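import Mathlib
import Pool.Agent.W793.YM.Corr
import Pool.Agent.TH618.YM.SiteRP

/-!
# Logarithmic convexity of the time correlations, for even and odd times
-/

open MeasureTheory Matrix
open scoped Matrix.Norms.Frobenius
open Pool.Agent.H906R3.YM hiding Pl
open Pool.Agent.W793.YM Pool.Agent.TH618.YM

namespace Pool.Agent.U508.YMF

set_option linter.unusedSectionVars false

noncomputable section

variable {G : Type*} [Group G] [TopologicalSpace G] [IsTopologicalGroup G] [CompactSpace G]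
  [SecondCountableTopology G] [MeasurableSpace G] [BorelSpace G] (μ : Measure G)
  [IsProbabilityMeasure μ] [μ.IsMulLeftInvariant] [μ.IsMulRightInvariant] [μ.IsInvInvariant]
  {N n : ℕ} {L : LD G N n} {d m : ℕ} [NeZero m] {τ : Fin d}

lemma sp_srefl (hm : 2 ≤ m) {F : (Ed d (2 * m) → G) → ℝ} (hF : Sp τ F) (k : ZMod (2 * m))
    (U : Ed d (2 * m) → G) :
    F (tr (sv τ k) ((SR hm τ).tU U)) = F (tr (sv τ (-k)) U) := by
  refine hF _ _ fun x i hx hi => ?_
  unfold tr
  simp only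
  rw [sU_ne _ _ hi]
  congr 2
  unfold rB sv
  funext j
  by_cases hj : j = τ
  · subst hj
    simp [hx]
  · simp [hj]

lemma sp_HQ {F : (Ed d (2 * m) → G) → ℝ} (hF : Sp τ F) {a : ℕ} (ha : a ≤ m) (hm : 2 ≤ m) :
    Dep (HQ τ) fun U : Ed d (2 * m) → G => F (tr (sv τ (a : ZMod (2 * m))) U) := by
  intro U U' h
  refine hF _ _ fun x i hx hi => ?_
  unfold tr
  refine h _ ?_
  show if i = τ then _ else _
  rw [if_neg hi]
  have h1 : (x + sv τ (a : ZMod (2 * m)) : Fin d → ZMod (2 * m)) τ = (a : ZMod (2 * m)) := by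
    simp [sv, hx]
  simp only [h1]
  rw [val_nat (by omega)]
  exact ha

/-- site reflection positivity -/
theorem site_cs (hm : 2 ≤ m) {β : ℝ} {F : (Ed d (2 * m) → G) → ℝ}
    (hc : Continuous F) (hF : Sp τ F) {a b : ℕ} (ha : a ≤ m) (hb : b ≤ m) :
    cor μ L β τ F ((a + b : ℕ) : ZMod (2 * m)) ^ 2 ≤
      cor μ L β τ F ((2 * a : ℕ) : ZMod (2 * m)) * cor μ L β τ F ((2 * b : ℕ) : ZMod (2 * m)) := by
  obtain ⟨f, hf⟩ : ∃ f : ℕ → (Ed d (2 * m) → G) → ℝ, f = fun (a : ℕ) U =>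
    F (tr (sv τ (a : ZMod (2 * m))) U) * Real.exp (-(β * sS L τ U)) := ⟨_, rfl⟩
  have hfc : ∀ a, Continuous (f a) := fun a => by
    rw [hf]
    exact (hc.comp (tr_cont _)).mul
      (Real.continuous_exp.comp (continuous_const.mul (sS_cont τ)).neg)
  have hfd : ∀ a, a ≤ m → Dep (fun e => PP τ e ∨ (SR hm τ).R e) (f a) := fun a ha => by
    refine Dep_HQ hm fun U U' h => ?_
    rw [hf]
    simp only
    have h1 := sp_HQ hF ha hm U U' h
    simp only at h1
    rw [h1, sS_dep (L := L) hm U U' h]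
  have key : ∀ a b : ℕ, cor μ L β τ F ((a + b : ℕ) : ZMod (2 * m)) =
      SB μ (SR hm τ) (f a) (f b) := by
    intro a b
    have h1 : cor μ L β τ F ((a + b : ℕ) : ZMod (2 * m)) =
        Zt μ L β (fun U => F (tr (sv τ (-(b : ZMod (2 * m)))) U) *
          F (tr (sv τ (a : ZMod (2 * m))) U)) := by
      rw [cor_tr]; congr 1; push_cast; ring
    rw [h1]
    unfold Zt SB
    refine integral_congr_ae (Filter.Eventually.of_forall fun U => ?_)
    simp only
    rw [hf, act_sS (i0 := τ) hm]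
    simp only
    rw [sp_srefl hm hF, mul_add, neg_add, Real.exp_add]
    ring
  have e1 : ((2 * a : ℕ) : ZMod (2 * m)) = ((a + a : ℕ) : ZMod (2 * m)) := by congr 1; omega
  have e2 : ((2 * b : ℕ) : ZMod (2 * m)) = ((b + b : ℕ) : ZMod (2 * m)) := by congr 1; omega
  rw [e1, e2, key, key, key]
  exact Pool.Agent.H906R3.YM.sq_le_of_forall fun t =>
    SB_quad μ (SR hm τ) (PP τ) PP_fix PP_th (hfc a) (hfd a ha) (hfc b) (hfd b hb) t

/-- logarithmic convexity for all times -/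
theorem logconv_all (hm : 2 ≤ m) {β : ℝ} (hβ : 0 ≤ β) {F : (Ed d (2 * m) → G) → ℝ}
    (hc : Continuous F) (hg : GI F) (hF : Sp τ F) {t : ℕ} (ht : t + 2 ≤ 2 * m) :
    cor μ L β τ F ((t + 1 : ℕ) : ZMod (2 * m)) ^ 2 ≤
      cor μ L β τ F (t : ZMod (2 * m)) * cor μ L β τ F ((t + 2 : ℕ) : ZMod (2 * m)) := by
  rcases Nat.even_or_odd' t with ⟨a, ha | ha⟩
  · have h1 := site_cs μ (L := L) hm (β := β) hc hF (a := a) (b := a + 1) (by omega) (by omega)
    have e1 : a + (a + 1) = t + 1 := by omega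
    have e2 : 2 * (a + 1) = t + 2 := by omega
    rw [e1, ← ha, e2] at h1
    exact h1
  · have h1 := cor_cs μ (L := L) hm hβ hc hg hF (j := ((a + 1 : ℕ) : ZMod (2 * m)))
      (k := ((a + 2 : ℕ) : ZMod (2 * m))) (H1_nat (by omega) (by omega) hm)
      (H1_nat (by omega) (by omega) hm)
    have e1 : (((a + 2 : ℕ) : ZMod (2 * m)) + ((a + 1 : ℕ) : ZMod (2 * m)) - 1) =
        ((t + 1 : ℕ) : ZMod (2 * m)) := by rw [ha]; push_cast; ring
    have e2 : (2 * ((a + 1 : ℕ) : ZMod (2 * m)) - 1) = (t : ZMod (2 * m)) := by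
      rw [ha]; push_cast; ring
    have e3 : (2 * ((a + 2 : ℕ) : ZMod (2 * m)) - 1) = ((t + 2 : ℕ) : ZMod (2 * m)) := by
      rw [ha]; push_cast; ring
    rw [e1, e2, e3] at h1
    exact h1

/-- a logarithmically convex sequence decays at most exponentially -/
lemma seq_conv {a : ℕ → ℝ} {n : ℕ} {r : ℝ} (hr : 0 < r) (h0 : 0 < a 0) (h1 : r * a 0 ≤ a 1)
    (h : ∀ t, t + 2 ≤ n → a (t + 1) ^ 2 ≤ a t * a (t + 2)) :
    ∀ t, t ≤ n → r ^ t * a 0 ≤ a t := by
  have key : ∀ t, t + 1 ≤ n → 0 < a t ∧ r * a t ≤ a (t + 1) := by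
    intro t
    induction t with
    | zero => intro _; exact ⟨h0, h1⟩
    | succ t ih =>
      intro ht
      obtain ⟨i1, i2⟩ := ih (by omega)
      have hpos : 0 < a (t + 1) := lt_of_lt_of_le (by positivity) i2
      refine ⟨hpos, ?_⟩
      have h3 := h t (by omega)
      have h4 : a t * (r * a (t + 1)) ≤ a t * a (t + 2) := by
        calc a t * (r * a (t + 1)) = (r * a t) * a (t + 1) := by ring
          _ ≤ a (t + 1) * a (t + 1) := mul_le_mul_of_nonneg_right i2 hpos.le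
          _ = a (t + 1) ^ 2 := by ring
          _ ≤ _ := h3
      exact le_of_mul_le_mul_left h4 i1
  intro t
  induction t with
  | zero => intro _; simp
  | succ t ih =>
    intro ht
    have h3 := ih (by omega)
    have h4 := (key t ht).2
    calc r ^ (t + 1) * a 0 = r * (r ^ t * a 0) := by ring
      _ ≤ r * a t := mul_le_mul_of_nonneg_left h3 hr.le
      _ ≤ _ := h4

/-- **The correlations decay at most exponentially.** -/
theorem decay (hm : 2 ≤ m) {β : ℝ} (hβ : 0 ≤ β) {F : (Ed d (2 * m) → G) → ℝ}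
    (hc : Continuous F) (hg : GI F) (hF : Sp τ F) {r : ℝ} (hr : 0 < r)
    (h0 : 0 < cor μ L β τ F 0) (h1 : r * cor μ L β τ F 0 ≤ cor μ L β τ F 1) {t : ℕ}
    (ht : t ≤ 2 * m) : r ^ t * cor μ L β τ F 0 ≤ cor μ L β τ F (t : ZMod (2 * m)) := by
  have h2 := seq_conv (a := fun t => cor μ L β τ F (t : ZMod (2 * m))) (n := 2 * m) hr
    (by simpa using h0) (by simpa using h1)
    (fun t ht => logconv_all μ (L := L) hm hβ hc hg hF ht) t ht
  simpa using h2

end

end Pool.Agent.U508.YMF
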