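import Mathlib
import Pool.Agent.W793.YM.Dom

/-!
# Expansion of the reflection positive form in the interaction of one link
-/

open MeasureTheory Matrix
open scoped Matrix.Norms.Frobenius
open Pool.Agent.H906R3.YM Pool.Agent.W793.YM

namespace Pool.Agent.U508.YMF

set_option linter.unusedSectionVars false

noncomputable section

variable {E : Type*} [Fintype E] [DecidableEq E] {G : Type*} [Group G] [TopologicalSpace G]
  [IsTopologicalGroup G] [CompactSpace G] [SecondCountableTopology G] [MeasurableSpace G]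
  [BorelSpace G] (μ : Measure G) [IsProbabilityMeasure μ] [μ.IsMulLeftInvariant]
  [μ.IsMulRightInvariant] [μ.IsInvInvariant] {N n : ℕ} {L : LD G N n} (T : Refl E)

/-- the reflection without the interaction of the link `e` -/
def del (T : Refl E) (e : E) : Refl E where
  R := T.R
  th := T.th
  iv := T.iv
  th_th := T.th_th
  th_R := T.th_R
  iv_th := T.iv_th
  J := T.J.erase e
  J_R := fun x hx => T.J_R x (Finset.mem_of_mem_erase hx)
  J_iv := fun x hx => T.J_iv x (Finset.mem_of_mem_erase hx)

lemma del_tU (e : E) (U : E → G) : (del T e).tU U = T.tU U := rfl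

lemma del_R (e : E) : (del T e).R = T.R := rfl

lemma del_J (e : E) : (del T e).J = T.J.erase e := rfl

variable (L) in
/-- the interaction of the link `e` -/
def sk (T : Refl E) (e : E) (U : E → G) : ℝ := (trace (L.rho (U e) * (L.rho (U (T.th e)))ᴴ)).re

lemma sk_cont (e : E) : Continuous (sk L T e) := by
  unfold sk
  refine Complex.continuous_re.comp ?_
  refine Continuous.matrix_trace ?_
  exact (L.cont.comp (continuous_apply e)).mul (L.cont.comp (continuous_apply _)).matrix_conjTranspose

lemma ker_del {e : E} (he : e ∈ T.J) (U : E → G) :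
    T.ker L U = (del T e).ker L U + sk L T e U := by
  have h1 : T.ker L U = ∑ x ∈ T.J, sk L T x U := rfl
  have h2 : (del T e).ker L U = ∑ x ∈ T.J.erase e, sk L T x U := rfl
  rw [h1, h2, Finset.sum_erase_add _ _ he]

/-- products of coordinates of the link `e` -/
def pe (L : LD G N n) (e : E) {k : ℕ} (w : Fin k → Fin N × Fin N × Bool) (U : E → G) : ℝ :=
  ∏ j, co (w j) (L.rho (U e))

lemma pe_cont (e : E) {k : ℕ} (w : Fin k → Fin N × Fin N × Bool) :
    Continuous (pe L e w) :=
  continuous_finsetProd _ fun j _ => (co (w j)).continuous.comp (L.cont.comp (continuous_apply _))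

lemma pe_dep {e : E} (he : T.R e) {k : ℕ} (w : Fin k → Fin N × Fin N × Bool) :
    Dep T.R (pe L e w) := by
  intro U U' h
  unfold pe
  rw [h e he]

lemma sk_pow {e : E} (he : e ∈ T.J) (k : ℕ) (U : E → G) : sk L T e U ^ k =
    ∑ w : Fin k → Fin N × Fin N × Bool, pe L e w U * pe L e w (T.tU U) := by
  have h1 : T.tU U e = U (T.th e) := by
    unfold Refl.tU; rw [if_neg (T.J_iv e he)]
  unfold sk pe
  rw [h1, ← sum_co_mul, ← Fin.prod_const, Finset.prod_univ_sum]
  simp only [Fintype.piFinset_univ, Finset.prod_mul_distrib]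

/-- expansion of an exponential -/
lemma hasSum_exp {a s : (E → G) → ℝ} (ha : Continuous a) (hs : Continuous s) {β : ℝ}
    (hβ : 0 ≤ β) : HasSum (fun k : ℕ => ∫ U, a U * ((β * s U) ^ k / (k.factorial : ℝ)) ∂(ME μ E))
      (∫ U, a U * Real.exp (β * s U) ∂(ME μ E)) := by
  obtain ⟨C, hC⟩ : ∃ C, ∀ U, |s U| ≤ C := by
    obtain ⟨C, hC⟩ := (isCompact_univ.image hs.norm).bddAbove
    exact ⟨C, fun U => hC ⟨U, trivial, rfl⟩⟩
  obtain ⟨M, hM⟩ : ∃ M, ∀ U, |a U| ≤ M := by
    obtain ⟨M, hM⟩ := (isCompact_univ.image ha.norm).bddAbove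
    exact ⟨M, fun U => hM ⟨U, trivial, rfl⟩⟩
  have hM0 : 0 ≤ M := (abs_nonneg _).trans (hM 1)
  have hC0 : 0 ≤ C := (abs_nonneg _).trans (hC 1)
  have hck : ∀ k : ℕ, Continuous fun U : E → G => a U * ((β * s U) ^ k / (k.factorial : ℝ)) :=
    fun k => ha.mul (((continuous_const.mul hs).pow k).div_const _)
  have hsum : HasSum (fun k : ℕ => ∫ U, a U *
      ((β * s U) ^ k / (k.factorial : ℝ)) ∂(ME μ E))
      (∫ U, ∑' k : ℕ, a U * ((β * s U) ^ k / (k.factorial : ℝ)) ∂(ME μ E)) := by
    refine hasSum_integral_of_summable_integral_norm (fun k => integrable_cont μ (hck k)) ?_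
    have hs : Summable fun k : ℕ => M * ((β * C) ^ k / (k.factorial : ℝ)) :=
      (Real.summable_pow_div_factorial _).mul_left M
    refine Summable.of_nonneg_of_le (fun k => integral_nonneg fun U => norm_nonneg _)
      (fun k => ?_) hs
    have h1 : ∫ U, ‖a U * ((β * s U) ^ k / (k.factorial : ℝ))‖ ∂(ME μ E) ≤
        ∫ U, M * ((β * C) ^ k / (k.factorial : ℝ)) ∂(ME μ E) := by
      refine integral_mono (integrable_cont μ (hck k).norm) (integrable_const _) fun U => ?_
      simp only [norm_mul, norm_div, norm_pow, Real.norm_eq_abs]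
      have e1 : |(k.factorial : ℝ)| = k.factorial := abs_of_nonneg (by positivity)
      rw [e1, abs_of_nonneg hβ]
      refine mul_le_mul (hM U) ?_ (by positivity) hM0
      refine div_le_div_of_nonneg_right ?_ (by positivity)
      exact pow_le_pow_left₀ (by positivity) (mul_le_mul_of_nonneg_left (hC U) hβ) k
    simpa using h1
  have heq : ∀ U, ∑' k : ℕ, a U * ((β * s U) ^ k / (k.factorial : ℝ)) =
      a U * Real.exp (β * s U) := by
    intro U
    rw [tsum_mul_left, Real.exp_eq_exp_ℝ, NormedSpace.exp_eq_tsum_div]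
  simp only [heq] at hsum
  exact hsum

lemma B_cont {f g : (E → G) → ℝ} (hf : Continuous f) (hg : Continuous g) (β : ℝ) :
    Continuous fun U => f U * g (T.tU U) * Real.exp (β * T.ker L U) :=
  (hf.mul (hg.comp T.tU_cont)).mul (Real.continuous_exp.comp (continuous_const.mul T.ker_cont))

/-- **Expansion in the interaction of one link.** -/
theorem hasSum_del {e : E} (he : e ∈ T.J) {f : (E → G) → ℝ} (hf : Continuous f) {β : ℝ}
    (hβ : 0 ≤ β) : HasSum (fun k : ℕ => β ^ k / (k.factorial : ℝ) *
      ∑ w : Fin k → Fin N × Fin N × Bool, (del T e).B μ L β (fun U => f U * pe L e w U)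
        (fun U => f U * pe L e w U)) (T.B μ L β f f) := by
  have h1 := hasSum_exp μ (a := fun U => f U * f ((del T e).tU U) *
    Real.exp (β * (del T e).ker L U)) (B_cont (del T e) hf hf β) (sk_cont (L := L) T e) hβ
  have h2 : (∫ U, f U * f ((del T e).tU U) * Real.exp (β * (del T e).ker L U) *
      Real.exp (β * sk L T e U) ∂(ME μ E)) = T.B μ L β f f := by
    unfold Refl.B
    refine integral_congr_ae (Filter.Eventually.of_forall fun U => ?_)
    simp only
    rw [del_tU, ker_del T he, mul_add, Real.exp_add]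
    ring
  rw [h2] at h1
  have h3 : ∀ k : ℕ, ∫ U, f U * f ((del T e).tU U) * Real.exp (β * (del T e).ker L U) *
      ((β * sk L T e U) ^ k / (k.factorial : ℝ)) ∂(ME μ E) = β ^ k / (k.factorial : ℝ) *
      ∑ w : Fin k → Fin N × Fin N × Bool, (del T e).B μ L β (fun U => f U * pe L e w U)
        (fun U => f U * pe L e w U) := by
    intro k
    unfold Refl.B
    have hi : ∀ w ∈ (Finset.univ : Finset (Fin k → Fin N × Fin N × Bool)), Integrable
        (fun U => f U * pe L e w U * (f ((del T e).tU U) * pe L e w ((del T e).tU U)) *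
          Real.exp (β * (del T e).ker L U)) (ME μ E) := fun w _ =>
      integrable_cont μ (B_cont (del T e) (hf.mul (pe_cont e w)) (hf.mul (pe_cont e w)) β)
    rw [← integral_finsetSum _ hi, ← integral_const_mul]
    refine integral_congr_ae (Filter.Eventually.of_forall fun U => ?_)
    simp only
    rw [mul_pow, sk_pow T he, del_tU, Finset.mul_sum, Finset.mul_sum, Finset.sum_div,
      Finset.mul_sum]
    refine Finset.sum_congr rfl fun w _ => ?_
    ring
  simpa only [h3] using h1

/-- lower bound by finitely many terms -/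
theorem le_B {e : E} (he : e ∈ T.J) {f : (E → G) → ℝ} (hf : Continuous f) (hd : Dep T.R f)
    {β : ℝ} (hβ : 0 ≤ β) (s : Finset ℕ) : ∑ k ∈ s, β ^ k / (k.factorial : ℝ) *
      ∑ w : Fin k → Fin N × Fin N × Bool, (del T e).B μ L β (fun U => f U * pe L e w U)
        (fun U => f U * pe L e w U) ≤ T.B μ L β f f := by
  refine sum_le_hasSum s (fun k _ => ?_) (hasSum_del μ T he hf hβ)
  refine mul_nonneg (by positivity) (Finset.sum_nonneg fun w _ => ?_)
  refine (del T e).B_self μ hβ (hf.mul (pe_cont e w)) fun U U' h => ?_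
  have h1 := hd U U' h
  have h2 := pe_dep (L := L) T (T.J_R e he) w U U' h
  show f U * pe L e w U = f U' * pe L e w U'
  rw [h1, h2]

/-- one coordinate of the link `e` -/
def c1 (L : LD G N n) (e : E) (c : Fin N × Fin N × Bool) (U : E → G) : ℝ := co c (L.rho (U e))

lemma c1_cont (e : E) (c : Fin N × Fin N × Bool) : Continuous (c1 L e c) :=
  (co c).continuous.comp (L.cont.comp (continuous_apply e))

lemma c1_dep {e : E} (he : T.R e) (c : Fin N × Fin N × Bool) : Dep T.R (c1 L e c) := by
  intro U U' h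
  unfold c1
  rw [h e he]

lemma mul_dep {p : E → Prop} {f g : (E → G) → ℝ} (hf : Dep p f) (hg : Dep p g) :
    Dep p fun U => f U * g U := fun U U' h => by
  show f U * g U = f U' * g U'
  rw [hf U U' h, hg U U' h]

theorem le_B0 {e : E} (he : e ∈ T.J) {f : (E → G) → ℝ} (hf : Continuous f) (hd : Dep T.R f)
    {β : ℝ} (hβ : 0 ≤ β) : (del T e).B μ L β f f ≤ T.B μ L β f f := by
  have h1 := le_B μ T (L := L) he hf hd hβ {0}
  simpa [pe] using h1

theorem le_B01 {e : E} (he : e ∈ T.J) {f : (E → G) → ℝ} (hf : Continuous f) (hd : Dep T.R f)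
    {β : ℝ} (hβ : 0 ≤ β) : (del T e).B μ L β f f + β * ∑ c : Fin N × Fin N × Bool,
      (del T e).B μ L β (fun U => f U * c1 L e c U) (fun U => f U * c1 L e c U) ≤
        T.B μ L β f f := by
  have h1 := le_B μ T (L := L) he hf hd hβ {0, 1}
  rw [Finset.sum_pair (by norm_num)] at h1
  have h2 : ∑ w : Fin 1 → Fin N × Fin N × Bool, (del T e).B μ L β (fun U => f U * pe L e w U)
      (fun U => f U * pe L e w U) = ∑ c : Fin N × Fin N × Bool,
      (del T e).B μ L β (fun U => f U * c1 L e c U) (fun U => f U * c1 L e c U) := by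
    rw [← Equiv.sum_comp (Equiv.funUnique (Fin 1) (Fin N × Fin N × Bool)).symm]
    refine Finset.sum_congr rfl fun c _ => ?_
    simp [pe, c1]
  rw [h2] at h1
  simpa [pe] using h1

theorem le_Bk {e : E} (he : e ∈ T.J) {f : (E → G) → ℝ} (hf : Continuous f) (hd : Dep T.R f)
    {β : ℝ} (hβ : 0 ≤ β) {k : ℕ} (w : Fin k → Fin N × Fin N × Bool) :
    β ^ k / (k.factorial : ℝ) * (del T e).B μ L β (fun U => f U * pe L e w U)
      (fun U => f U * pe L e w U) ≤ T.B μ L β f f := by
  have h1 := le_B μ T (L := L) he hf hd hβ {k}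
  rw [Finset.sum_singleton] at h1
  refine le_trans (mul_le_mul_of_nonneg_left ?_ (by positivity)) h1
  exact Finset.single_le_sum (f := fun w : Fin k → Fin N × Fin N × Bool => (del T e).B μ L β
    (fun U => f U * pe L e w U) (fun U => f U * pe L e w U)) (fun w' _ =>
    (del T e).B_self μ hβ (hf.mul (pe_cont e w'))
      (mul_dep hd (pe_dep (L := L) T (T.J_R e he) w'))) (Finset.mem_univ w)

end

end Pool.Agent.U508.YMF
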