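import Mathlib
import Pool.Agent.U508.YMF.Ker

/-!
# The plaquette variable as a polynomial of the four links
-/

open MeasureTheory Matrix
open scoped Matrix.Norms.Frobenius ComplexConjugate
open Pool.Agent.H906R3.YM Pool.Agent.W793.YM

namespace Pool.Agent.U508.YMF

set_option linter.unusedSectionVars false

noncomputable section

/-- real or imaginary part -/
def xb (b : Bool) (z : ℂ) : ℝ := if b then z.re else z.im

/-- the unit -/
def io (b : Bool) : ℂ := if b then 1 else Complex.I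

/-- the coefficients -/
def kp (b : Bool × Bool × Bool × Bool) : ℝ :=
  (io b.1 * io b.2.1 * conj (io b.2.2.1) * conj (io b.2.2.2)).re

lemma kp_sq (b : Bool × Bool × Bool × Bool) : kp b ^ 2 ≤ 1 := by
  obtain ⟨b1, b2, b3, b4⟩ := b
  cases b1 <;> cases b2 <;> cases b3 <;> cases b4 <;> simp [kp, io]

lemma re_four (a b c d : ℂ) : (a * b * conj c * conj d).re =
    ∑ s : Bool × Bool × Bool × Bool,
      kp s * (xb s.1 a * xb s.2.1 b * xb s.2.2.1 c * xb s.2.2.2 d) := by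
  simp only [Fintype.sum_prod_type, Fintype.sum_bool, kp, io, xb]
  simp [Complex.mul_re, Complex.mul_im]
  ring

variable {N n : ℕ}

/-- the indices -/
abbrev Q4 (N : ℕ) := (Fin N × Fin N × Fin N × Fin N) × (Bool × Bool × Bool × Bool)

/-- coordinates -/
abbrev Cx (N : ℕ) := Fin N × Fin N × Bool

/-- the coordinates of the four matrices -/
def m1 (q : Q4 N) : Cx N := (q.1.1, q.1.2.1, q.2.1)
/-- the coordinates of the four matrices -/
def m2 (q : Q4 N) : Cx N := (q.1.2.1, q.1.2.2.1, q.2.2.1)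
/-- the coordinates of the four matrices -/
def m3 (q : Q4 N) : Cx N := (q.1.2.2.2, q.1.2.2.1, q.2.2.2.1)
/-- the coordinates of the four matrices -/
def m4 (q : Q4 N) : Cx N := (q.1.1, q.1.2.2.2, q.2.2.2.2)

lemma m_inj : Function.Injective fun q : Q4 N => (m1 q, m2 q, m3 q, m4 q) := by
  rintro ⟨⟨a, b, c, d⟩, b1, b2, b3, b4⟩ ⟨⟨a', b', c', d'⟩, b1', b2', b3', b4'⟩ h
  simp only [m1, m2, m3, m4, Prod.mk.injEq] at h
  obtain ⟨⟨h1, h2, h3⟩, ⟨h4, h5, h6⟩, ⟨h7, h8, h9⟩, h10, h11, h12⟩ := h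
  simp [h1, h2, h3, h5, h6, h7, h9, h12]

lemma card_Q4 : (Fintype.card (Q4 N) : ℝ) = 16 * (N : ℝ) ^ 4 := by
  simp [Q4, Fintype.card_prod]
  ring

lemma sum_Q4_le {f : Cx N → Cx N → Cx N → Cx N → ℝ} (hf : ∀ a b c d, 0 ≤ f a b c d) :
    ∑ q : Q4 N, f (m1 q) (m2 q) (m3 q) (m4 q) ≤ ∑ a, ∑ b, ∑ c, ∑ d, f a b c d := by
  classical
  have h1 : ∑ a, ∑ b, ∑ c, ∑ d, f a b c d =
      ∑ x : Cx N × Cx N × Cx N × Cx N, f x.1 x.2.1 x.2.2.1 x.2.2.2 := by
    simp only [Fintype.sum_prod_type (γ := ℝ) (α₁ := Cx N) (α₂ := Cx N × Cx N × Cx N),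
      Fintype.sum_prod_type (γ := ℝ) (α₁ := Cx N) (α₂ := Cx N × Cx N),
      Fintype.sum_prod_type (γ := ℝ) (α₁ := Cx N) (α₂ := Cx N)]
  rw [h1]
  have h2 : ∑ q : Q4 N, f (m1 q) (m2 q) (m3 q) (m4 q) =
      ∑ x ∈ Finset.univ.image (fun q : Q4 N => (m1 q, m2 q, m3 q, m4 q)),
        f x.1 x.2.1 x.2.2.1 x.2.2.2 := by
    rw [Finset.sum_image fun a _ b _ h => m_inj h]
  rw [h2]
  exact Finset.sum_le_univ_sum_of_nonneg fun x => hf _ _ _ _

lemma trace_four (A B C D : Mat N) : (trace (A * B * Cᴴ * Dᴴ)).re =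
    ∑ q : Q4 N, kp q.2 * (co (m1 q) A * co (m2 q) B * co (m3 q) C * co (m4 q) D) := by
  have h1 : ∀ c (M : Mat N), co c M = xb c.2.2 (M c.1 c.2.1) := fun c M => rfl
  have h2 : (trace (A * B * Cᴴ * Dᴴ)).re = ∑ p, ∑ q, ∑ r, ∑ s,
      (A p q * B q r * conj (C s r) * conj (D p s)).re := by
    rw [trace, Complex.re_sum]
    refine Finset.sum_congr rfl fun p _ => ?_
    rw [diag_apply, mul_apply]
    simp only [mul_apply, conjTranspose_apply, Finset.sum_mul, Complex.re_sum]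
    rw [Finset.sum_congr rfl fun s _ => Finset.sum_comm]
    rw [Finset.sum_comm]
    refine Finset.sum_congr rfl fun q _ => ?_
    rw [Finset.sum_comm]
    rfl
  rw [h2]
  simp only [Fintype.sum_prod_type (γ := ℝ) (α₁ := Fin N × Fin N × Fin N × Fin N)
      (α₂ := Bool × Bool × Bool × Bool),
      Fintype.sum_prod_type (γ := ℝ) (α₁ := Fin N) (α₂ := Fin N × Fin N × Fin N),
      Fintype.sum_prod_type (γ := ℝ) (α₁ := Fin N) (α₂ := Fin N × Fin N),
      Fintype.sum_prod_type (γ := ℝ) (α₁ := Fin N) (α₂ := Fin N)]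
  refine Finset.sum_congr rfl fun p _ => Finset.sum_congr rfl fun q _ =>
    Finset.sum_congr rfl fun r _ => Finset.sum_congr rfl fun s _ => ?_
  rw [re_four]
  refine Finset.sum_congr rfl fun b _ => ?_
  simp only [h1, m1, m2, m3, m4]

end

end Pool.Agent.U508.YMF
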