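import Mathlib
import Pool.Agent.U508.YMF.Plaq

/-!
# Lower bound of the reflection positive form by the form without the four interactions
-/

open MeasureTheory Matrix
open scoped Matrix.Norms.Frobenius
open Pool.Agent.H906R3.YM Pool.Agent.W793.YM

namespace Pool.Agent.U508.YMF

set_option linter.unusedSectionVars false

noncomputable section

variable {E : Type*} [Fintype E] [DecidableEq E] {G : Type*} [Group G] [TopologicalSpace G]
  [IsTopologicalGroup G] [CompactSpace G] [SecondCountableTopology G] [MeasurableSpace G]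
  [BorelSpace G] (μ : Measure G) [IsProbabilityMeasure μ] [μ.IsMulLeftInvariant]
  [μ.IsMulRightInvariant] [μ.IsInvInvariant] {N n : ℕ} {L : LD G N n} (T : Refl E)

theorem le_B1 {e : E} (he : e ∈ T.J) {f : (E → G) → ℝ} (hf : Continuous f) (hd : Dep T.R f)
    {β : ℝ} (hβ : 0 ≤ β) : β * ∑ c : Fin N × Fin N × Bool,
      (del T e).B μ L β (fun U => f U * c1 L e c U) (fun U => f U * c1 L e c U) ≤
        T.B μ L β f f := by
  have h1 := le_B01 μ T (L := L) he hf hd hβ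
  have h2 : 0 ≤ (del T e).B μ L β f f := (del T e).B_self μ hβ hf hd
  linarith

/-- four links removed -/
def del4 (T : Refl E) (e1 e2 e3 e4 : E) : Refl E := del (del (del (del T e1) e2) e3) e4

theorem four {e1 e2 e3 e4 : E} (h1 : e1 ∈ T.J) (h2 : e2 ∈ T.J) (h3 : e3 ∈ T.J) (h4 : e4 ∈ T.J)
    (h12 : e2 ≠ e1) (h13 : e3 ≠ e1) (h14 : e4 ≠ e1) (h23 : e3 ≠ e2) (h24 : e4 ≠ e2)
    (h34 : e4 ≠ e3) {f : (E → G) → ℝ} (hf : Continuous f) (hd : Dep T.R f)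
    {β : ℝ} (hβ : 0 ≤ β) :
    (del4 T e1 e2 e3 e4).B μ L β f f + β ^ 4 * ∑ a : Cx N, ∑ b : Cx N, ∑ c : Cx N, ∑ d : Cx N,
      (del4 T e1 e2 e3 e4).B μ L β
        (fun U => f U * c1 L e1 a U * c1 L e2 b U * c1 L e3 c U * c1 L e4 d U)
        (fun U => f U * c1 L e1 a U * c1 L e2 b U * c1 L e3 c U * c1 L e4 d U) ≤
      T.B μ L β f f := by
  have k2 : e2 ∈ (del T e1).J := Finset.mem_erase.2 ⟨h12, h2⟩
  have k3 : e3 ∈ (del (del T e1) e2).J := Finset.mem_erase.2 ⟨h23, Finset.mem_erase.2 ⟨h13, h3⟩⟩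
  have k4 : e4 ∈ (del (del (del T e1) e2) e3).J :=
    Finset.mem_erase.2 ⟨h34, Finset.mem_erase.2 ⟨h24, Finset.mem_erase.2 ⟨h14, h4⟩⟩⟩
  have s1 := le_B01 μ T (L := L) h1 hf hd hβ
  have t2 := le_B0 μ (del T e1) (L := L) k2 hf hd hβ
  have t3 := le_B0 μ (del (del T e1) e2) (L := L) k3 hf hd hβ
  have t4 := le_B0 μ (del (del (del T e1) e2) e3) (L := L) k4 hf hd hβ
  have cf : ∀ a, Continuous fun U => f U * c1 L e1 a U := fun a => hf.mul (c1_cont e1 a)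
  have df : ∀ a, Dep T.R fun U => f U * c1 L e1 a U := fun a =>
    mul_dep hd (c1_dep T (T.J_R e1 h1) a)
  have cf2 : ∀ a b, Continuous fun U => f U * c1 L e1 a U * c1 L e2 b U := fun a b =>
    (cf a).mul (c1_cont e2 b)
  have df2 : ∀ a b, Dep T.R fun U => f U * c1 L e1 a U * c1 L e2 b U := fun a b =>
    mul_dep (df a) (c1_dep T (T.J_R e2 h2) b)
  have cf3 : ∀ a b c, Continuous fun U => f U * c1 L e1 a U * c1 L e2 b U * c1 L e3 c U :=
    fun a b c => (cf2 a b).mul (c1_cont e3 c)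
  have df3 : ∀ a b c, Dep T.R fun U => f U * c1 L e1 a U * c1 L e2 b U * c1 L e3 c U :=
    fun a b c => mul_dep (df2 a b) (c1_dep T (T.J_R e3 h3) c)
  have s4 : ∀ a b c, β * ∑ d : Cx N, (del4 T e1 e2 e3 e4).B μ L β
        (fun U => f U * c1 L e1 a U * c1 L e2 b U * c1 L e3 c U * c1 L e4 d U)
        (fun U => f U * c1 L e1 a U * c1 L e2 b U * c1 L e3 c U * c1 L e4 d U) ≤
      (del (del (del T e1) e2) e3).B μ L β
        (fun U => f U * c1 L e1 a U * c1 L e2 b U * c1 L e3 c U)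
        (fun U => f U * c1 L e1 a U * c1 L e2 b U * c1 L e3 c U) := fun a b c =>
    le_B1 μ (del (del (del T e1) e2) e3) (L := L) k4 (cf3 a b c) (df3 a b c) hβ
  have s3 : ∀ a b, β * ∑ c : Cx N, (del (del (del T e1) e2) e3).B μ L β
        (fun U => f U * c1 L e1 a U * c1 L e2 b U * c1 L e3 c U)
        (fun U => f U * c1 L e1 a U * c1 L e2 b U * c1 L e3 c U) ≤
      (del (del T e1) e2).B μ L β
        (fun U => f U * c1 L e1 a U * c1 L e2 b U)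
        (fun U => f U * c1 L e1 a U * c1 L e2 b U) := fun a b =>
    le_B1 μ (del (del T e1) e2) (L := L) k3 (cf2 a b) (df2 a b) hβ
  have s2 : ∀ a, β * ∑ b : Cx N, (del (del T e1) e2).B μ L β
        (fun U => f U * c1 L e1 a U * c1 L e2 b U)
        (fun U => f U * c1 L e1 a U * c1 L e2 b U) ≤
      (del T e1).B μ L β (fun U => f U * c1 L e1 a U) (fun U => f U * c1 L e1 a U) := fun a =>
    le_B1 μ (del T e1) (L := L) k2 (cf a) (df a) hβ
  have key : β ^ 4 * ∑ a : Cx N, ∑ b : Cx N, ∑ c : Cx N, ∑ d : Cx N,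
      (del4 T e1 e2 e3 e4).B μ L β
        (fun U => f U * c1 L e1 a U * c1 L e2 b U * c1 L e3 c U * c1 L e4 d U)
        (fun U => f U * c1 L e1 a U * c1 L e2 b U * c1 L e3 c U * c1 L e4 d U) ≤
      β * ∑ a : Cx N, (del T e1).B μ L β (fun U => f U * c1 L e1 a U)
        (fun U => f U * c1 L e1 a U) := by
    have e0 : β ^ 4 = β * (β * (β * β)) := by ring
    rw [e0, mul_assoc]
    refine mul_le_mul_of_nonneg_left ?_ hβ
    rw [Finset.mul_sum]
    refine Finset.sum_le_sum fun a _ => le_trans ?_ (s2 a)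
    rw [mul_assoc]
    refine mul_le_mul_of_nonneg_left ?_ hβ
    rw [Finset.mul_sum]
    refine Finset.sum_le_sum fun b _ => le_trans ?_ (s3 a b)
    rw [mul_assoc]
    refine mul_le_mul_of_nonneg_left ?_ hβ
    rw [Finset.mul_sum]
    exact Finset.sum_le_sum fun c _ => s4 a b c
  have t4' : (del4 T e1 e2 e3 e4).B μ L β f f ≤ (del (del (del T e1) e2) e3).B μ L β f f := t4
  linarith

/-- **The main inequality.** -/
theorem core_ineq {e1 e2 e3 e4 : E} (h1 : e1 ∈ T.J) (h2 : e2 ∈ T.J) (h3 : e3 ∈ T.J)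
    (h4 : e4 ∈ T.J) (h12 : e2 ≠ e1) (h13 : e3 ≠ e1) (h14 : e4 ≠ e1) (h23 : e3 ≠ e2)
    (h24 : e4 ≠ e2) (h34 : e4 ≠ e3) {f w F : (E → G) → ℝ} (hf : Continuous f) (hd : Dep T.R f)
    (hw : Continuous w) (hwd : Dep T.R w)
    (hF : ∀ U, F U = ∑ q : Q4 N, kp q.2 * (c1 L e1 (m1 q) U * c1 L e2 (m2 q) U *
      c1 L e3 (m3 q) U * c1 L e4 (m4 q) U)) {β : ℝ} (hβ : 0 ≤ β) (hN : 1 ≤ N) :
    (del4 T e1 e2 e3 e4).B μ L β f w ^ 2 + β ^ 4 / (16 * (N : ℝ) ^ 4) *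
      (del4 T e1 e2 e3 e4).B μ L β (fun U => f U * F U) w ^ 2 ≤
      (del4 T e1 e2 e3 e4).B μ L β w w * T.B μ L β f f := by
  obtain ⟨S, hS⟩ : ∃ S, S = del4 T e1 e2 e3 e4 := ⟨_, rfl⟩
  have hfour := four μ T (L := L) h1 h2 h3 h4 h12 h13 h14 h23 h24 h34 hf hd hβ
  have hSR : S.R = T.R := by rw [hS]; rfl
  rw [← hS] at hfour ⊢
  obtain ⟨Z, hZ⟩ : ∃ Z, Z = S.B μ L β w w := ⟨_, rfl⟩
  have hZ0 : 0 ≤ Z := by rw [hZ]; exact S.B_self μ hβ hw (by rw [hSR]; exact hwd)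
  obtain ⟨φ, hφ⟩ : ∃ φ : Cx N → Cx N → Cx N → Cx N → (E → G) → ℝ, φ = fun a b c d U =>
    f U * c1 L e1 a U * c1 L e2 b U * c1 L e3 c U * c1 L e4 d U := ⟨_, rfl⟩
  have hφc : ∀ a b c d, Continuous (φ a b c d) := fun a b c d => by
    rw [hφ]
    exact (((hf.mul (c1_cont e1 a)).mul (c1_cont e2 b)).mul (c1_cont e3 c)).mul (c1_cont e4 d)
  have hφd : ∀ a b c d, Dep S.R (φ a b c d) := fun a b c d => by
    rw [hφ, hSR]
    exact mul_dep (mul_dep (mul_dep (mul_dep hd (c1_dep T (T.J_R e1 h1) a))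
      (c1_dep T (T.J_R e2 h2) b)) (c1_dep T (T.J_R e3 h3) c)) (c1_dep T (T.J_R e4 h4) d)
  have hfour' : S.B μ L β f f + β ^ 4 * ∑ a : Cx N, ∑ b : Cx N, ∑ c : Cx N, ∑ d : Cx N,
      S.B μ L β (φ a b c d) (φ a b c d) ≤ T.B μ L β f f := by
    rw [hφ]; exact hfour
  have cs0 : S.B μ L β f w ^ 2 ≤ S.B μ L β f f * Z := by
    rw [hZ]; exact S.B_cs μ hβ hf (by rw [hSR]; exact hd) hw (by rw [hSR]; exact hwd)
  have cs1 : ∀ a b c d, S.B μ L β (φ a b c d) w ^ 2 ≤ S.B μ L β (φ a b c d) (φ a b c d) * Z :=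
    fun a b c d => by
      rw [hZ]; exact S.B_cs μ hβ (hφc a b c d) (hφd a b c d) hw (by rw [hSR]; exact hwd)
  have cs2 : ∑ q : Q4 N, S.B μ L β (φ (m1 q) (m2 q) (m3 q) (m4 q)) w ^ 2 ≤
      (∑ a : Cx N, ∑ b : Cx N, ∑ c : Cx N, ∑ d : Cx N,
        S.B μ L β (φ a b c d) (φ a b c d)) * Z := by
    refine (sum_Q4_le (f := fun a b c d => S.B μ L β (φ a b c d) w ^ 2)
      fun a b c d => sq_nonneg _).trans ?_
    simp only [Finset.sum_mul]
    exact Finset.sum_le_sum fun a _ => Finset.sum_le_sum fun b _ => Finset.sum_le_sum fun c _ =>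
      Finset.sum_le_sum fun d _ => cs1 a b c d
  have lin : S.B μ L β (fun U => f U * F U) w =
      ∑ q : Q4 N, kp q.2 * S.B μ L β (φ (m1 q) (m2 q) (m3 q) (m4 q)) w := by
    unfold Refl.B
    have hi : ∀ q ∈ (Finset.univ : Finset (Q4 N)), Integrable (fun U => kp q.2 *
        (φ (m1 q) (m2 q) (m3 q) (m4 q) U * w (S.tU U) * Real.exp (β * S.ker L U)))
        (ME μ E) := fun q _ =>
      (integrable_cont μ (B_cont S (hφc _ _ _ _) hw β)).const_mul _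
    simp only [← integral_const_mul]
    rw [← integral_finsetSum _ hi]
    refine integral_congr_ae (Filter.Eventually.of_forall fun U => ?_)
    simp only
    rw [hF U, hφ]
    simp only [Finset.mul_sum, Finset.sum_mul]
    exact Finset.sum_congr rfl fun q _ => by ring
  have cs3 : S.B μ L β (fun U => f U * F U) w ^ 2 ≤ 16 * (N : ℝ) ^ 4 *
      ∑ q : Q4 N, S.B μ L β (φ (m1 q) (m2 q) (m3 q) (m4 q)) w ^ 2 := by
    rw [lin]
    refine (Finset.sum_mul_sq_le_sq_mul_sq _ _ _).trans ?_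
    refine mul_le_mul_of_nonneg_right ?_ (Finset.sum_nonneg fun q _ => sq_nonneg _)
    calc ∑ q : Q4 N, kp q.2 ^ 2 ≤ ∑ q : Q4 N, (1 : ℝ) :=
          Finset.sum_le_sum fun q _ => kp_sq _
      _ = 16 * (N : ℝ) ^ 4 := by
          rw [Finset.sum_const, Finset.card_univ, nsmul_eq_mul, mul_one, card_Q4]
  rw [← hZ]
  have hN' : (0 : ℝ) < N := by exact_mod_cast hN
  have h5 : β ^ 4 / (16 * (N : ℝ) ^ 4) * S.B μ L β (fun U => f U * F U) w ^ 2 ≤
      β ^ 4 * ((∑ a : Cx N, ∑ b : Cx N, ∑ c : Cx N, ∑ d : Cx N,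
        S.B μ L β (φ a b c d) (φ a b c d)) * Z) := by
    calc _ ≤ β ^ 4 / (16 * (N : ℝ) ^ 4) * (16 * (N : ℝ) ^ 4 *
        ∑ q : Q4 N, S.B μ L β (φ (m1 q) (m2 q) (m3 q) (m4 q)) w ^ 2) :=
          mul_le_mul_of_nonneg_left cs3 (by positivity)
      _ = β ^ 4 * ∑ q : Q4 N, S.B μ L β (φ (m1 q) (m2 q) (m3 q) (m4 q)) w ^ 2 := by
          field_simp
      _ ≤ _ := mul_le_mul_of_nonneg_left cs2 (by positivity)
  calc _ ≤ S.B μ L β f f * Z + β ^ 4 * ((∑ a : Cx N, ∑ b : Cx N, ∑ c : Cx N, ∑ d : Cx N,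
        S.B μ L β (φ a b c d) (φ a b c d)) * Z) := add_le_add cs0 h5
    _ = Z * (S.B μ L β f f + β ^ 4 * ∑ a : Cx N, ∑ b : Cx N, ∑ c : Cx N, ∑ d : Cx N,
        S.B μ L β (φ a b c d) (φ a b c d)) := by ring
    _ ≤ _ := mul_le_mul_of_nonneg_left hfour' hZ0

end

end Pool.Agent.U508.YMF
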