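import Mathlib
import Pool.Agent.Y14.Defs

/-!
# Definitions: the plaquette observable and the bound of the mass
-/

open MeasureTheory Matrix Filter
open Pool.Agent.Y14.Wilson
open scoped Matrix.Norms.Frobenius Topology

namespace Pool.Agent.U508.YMF

noncomputable section

/-- The plaquette observable: the real part of the trace of the product of the link variables
around the plaquette at the origin in the directions `i`, `j`. -/
def plaqO {N d : ℕ} {G : Subgroup (UU N)} (i j : Fin d) (V : LinkZ d → G) : ℝ :=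
  (trace (mt (V (0, i) * V (Pi.single i 1, j) * (V (Pi.single j 1, i))⁻¹ * (V (0, j))⁻¹))).re

/-- The bound of the mass of the lattice gauge theory on `ℤ ^ d` with gauge group in `U(N)` at the
inverse coupling `β`: it is `4 log⁺ (1 / β) + (32 d + 4) N β + log (256 N ^ 6)`. -/
def massBound (N d : ℕ) (β : ℝ) : ℝ :=
  4 * max 0 (Real.log (1 / β)) + (32 * d + 4) * N * β + Real.log (256 * (N : ℝ) ^ 6)

/-- The truncated time correlations of the observable `F` at the inverse coupling `β` are at least
`c` at time `0` and decay at most with the rate `M`: in all volumes `(ℤ/l)^(D+1)` with even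
`l ≥ max 4 R`, and in all infinite volume limits. -/
def RateLe {N D : ℕ} {G : Subgroup (UU N)} [MeasurableSpace G] (μ : Measure G) (R : ℕ)
    (β c M : ℝ) (F : (LinkZ (D + 1) → G) → ℝ) : Prop :=
  (∀ (l : ℕ) [NeZero l], Even l → 4 ≤ l → R ≤ l → c ≤ corr l μ β F 0 ∧ ∀ t : ℕ, t ≤ l →
    Real.exp (-(M * t)) * corr l μ β F 0 ≤ corr l μ β F t) ∧
  ∀ ν : Measure (LinkZ (D + 1) → G), IsInfVol μ β ν → c ≤ corrZ ν F 0 ∧ ∀ t : ℕ,
    Real.exp (-(M * t)) * corrZ ν F 0 ≤ corrZ ν F t

/-- The mass gap at the inverse coupling `β` is at most `M₀`: every rate of exponential clustering,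
uniform in the volume or of an infinite volume limit, is at most `M₀`. -/
def GapLe {N : ℕ} {G : Subgroup (UU N)} [MeasurableSpace G] (D : ℕ) (μ : Measure G)
    (β M₀ : ℝ) : Prop :=
  (∀ M : ℝ, Clusters D μ β M → M ≤ M₀) ∧
  ∀ ν : Measure (LinkZ (D + 1) → G), IsInfVol μ β ν → ∀ M : ℝ, ClustersZ ν M → M ≤ M₀

end

end Pool.Agent.U508.YMF
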