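import Mathlib
import Pool.Agent.W793.YM.TorExp
import Pool.Agent.U508.YMF.Core

/-!
# The weight depends on few links only through a bounded factor
-/

open MeasureTheory Matrix
open scoped Matrix.Norms.Frobenius Classical
open Pool.Agent.H906R3.YM Pool.Agent.W793.YM

namespace Pool.Agent.U508.YMF

set_option linter.unusedSectionVars false

noncomputable section

variable {G : Type*} [Group G] [TopologicalSpace G] [IsTopologicalGroup G] [CompactSpace G]
  [SecondCountableTopology G] [MeasurableSpace G] [BorelSpace G] {N n : ℕ} {L : LD G N n}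

lemma we_le (g : G) : we L g ≤ 2 * N := by
  have h2 : ∀ A : Mat N, 0 ≤ (trace (A * Aᴴ)).re := by
    intro A
    rw [← sum_co_mul]
    exact Finset.sum_nonneg fun c _ => mul_self_nonneg _
  have h1 := h2 (1 + L.rho g)
  have h3 : (1 + L.rho g) * (1 + L.rho g)ᴴ = 1 + 1 + L.rho g + (L.rho g)ᴴ := by
    rw [conjTranspose_add, conjTranspose_one, add_mul, mul_add, mul_add, L.unit]
    simp only [one_mul, mul_one]
    abel
  rw [h3, trace_add, trace_add, trace_add, trace_one, trace_conjTranspose] at h1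
  rw [we_tr]
  simp at h1
  linarith

lemma rt_abs (g : G) : |(trace (L.rho g)).re| ≤ N := by
  have h1 := we_le (L := L) g
  have h2 := we_nonneg (L := L) g
  rw [we_tr] at h1 h2
  rw [abs_le]
  constructor <;> linarith

section count

variable {d l : ℕ} [NeZero l]

/-- the plaquette at `x` in the directions `i`, `j` contains a link of `Λ` -/
def tch (Λ : Finset (Ed d l)) (x : Fin d → ZMod l) (i j : Fin d) : Prop :=
  (x, i) ∈ Λ ∨ (x + eT i, j) ∈ Λ ∨ (x + eT j, i) ∈ Λ ∨ (x, j) ∈ Λ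

/-- indicator -/
def ii (p : Prop) : ℝ := if p then 1 else 0

lemma ii_nonneg (p : Prop) : 0 ≤ ii p := by unfold ii; split_ifs <;> norm_num

lemma tch_le (Λ : Finset (Ed d l)) (x : Fin d → ZMod l) (i j : Fin d) :
    ii (tch Λ x i j) ≤ ∑ e ∈ Λ, (ii ((x, i) = e) + ii ((x + eT i, j) = e) +
      ii ((x + eT j, i) = e) + ii ((x, j) = e)) := by
  have hn : ∀ e ∈ Λ, 0 ≤ (ii ((x, i) = e) + ii ((x + eT i, j) = e) +
      ii ((x + eT j, i) = e) + ii ((x, j) = e)) := fun e _ => by
    have := ii_nonneg ((x, i) = e)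
    have := ii_nonneg ((x + eT i, j) = e)
    have := ii_nonneg ((x + eT j, i) = e)
    have := ii_nonneg ((x, j) = e)
    linarith
  by_cases h : tch Λ x i j
  · have key : ∀ e ∈ Λ, 1 ≤ (ii ((x, i) = e) + ii ((x + eT i, j) = e) +
        ii ((x + eT j, i) = e) + ii ((x, j) = e)) → ii (tch Λ x i j) ≤ ∑ e ∈ Λ,
        (ii ((x, i) = e) + ii ((x + eT i, j) = e) +
      ii ((x + eT j, i) = e) + ii ((x, j) = e)) := by
      intro e he h1
      have h2 : ii (tch Λ x i j) = 1 := by unfold ii; rw [if_pos h]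
      rw [h2]
      exact h1.trans (Finset.single_le_sum hn he)
    have a1 : ∀ e, 0 ≤ ii ((x, i) = e) := fun e => ii_nonneg _
    have a2 : ∀ e, 0 ≤ ii ((x + eT i, j) = e) := fun e => ii_nonneg _
    have a3 : ∀ e, 0 ≤ ii ((x + eT j, i) = e) := fun e => ii_nonneg _
    have a4 : ∀ e, 0 ≤ ii ((x, j) = e) := fun e => ii_nonneg _
    have one : ∀ p : Prop, p → ii p = 1 := fun p hp => by unfold ii; rw [if_pos hp]
    rcases h with h | h | h | h
    · refine key _ h ?_
      rw [one _ rfl]; linarith [a2 (x, i), a3 (x, i), a4 (x, i)]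
    · refine key _ h ?_
      rw [one ((x + eT i, j) = _) rfl]; linarith [a1 (x + eT i, j), a3 (x + eT i, j), a4 (x + eT i, j)]
    · refine key _ h ?_
      rw [one ((x + eT j, i) = _) rfl]; linarith [a1 (x + eT j, i), a2 (x + eT j, i), a4 (x + eT j, i)]
    · refine key _ h ?_
      rw [one ((x, j) = _) rfl]; linarith [a1 (x, j), a2 (x, j), a3 (x, j)]
  · have h2 : ii (tch Λ x i j) = 0 := by unfold ii; rw [if_neg h]
    rw [h2]
    exact Finset.sum_nonneg hn

lemma sum_ii (z : Fin d → ZMod l) (i : Fin d) (e : Ed d l) :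
    ∑ x : Fin d → ZMod l, ii ((x + z, i) = e) = ii (i = e.2) := by
  obtain ⟨y, k⟩ := e
  unfold ii
  by_cases h : i = k
  · subst h
    simp only [Prod.mk.injEq, and_true, if_true]
    rw [Finset.sum_eq_single (y - z)]
    · simp
    · intro b _ hb
      rw [if_neg]
      intro h'
      exact hb (by rw [← h']; abel)
    · simp
  · simp [h]

lemma sum_ii0 (i : Fin d) (e : Ed d l) :
    ∑ x : Fin d → ZMod l, ii ((x, i) = e) = ii (i = e.2) := by
  have := sum_ii 0 i e
  simpa only [add_zero] using this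

lemma sum_one {d : ℕ} (k : Fin d) : ∑ j : Fin d, ii (j = k) = 1 := by
  rw [Finset.sum_eq_single k]
  · unfold ii; exact if_pos rfl
  · intro b _ hb
    unfold ii; exact if_neg hb
  · simp

/-- the number of plaquettes without the direction `τ` -/
lemma countA (Λ : Finset (Ed d l)) (τ : Fin d) :
    ∑ x : Fin d → ZMod l, ∑ i, ∑ j, ii ((i < j ∧ i ≠ τ ∧ j ≠ τ) ∧ tch Λ x i j) ≤
      2 * ((d : ℝ) - 1) * Λ.card := by
  have h1 : ∀ (x : Fin d → ZMod l) (i j : Fin d),
      ii ((i < j ∧ i ≠ τ ∧ j ≠ τ) ∧ tch Λ x i j) ≤ ∑ e ∈ Λ, ii (i < j) *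
        (ii ((x, i) = e) + ii ((x + eT i, j) = e) + ii ((x + eT j, i) = e) + ii ((x, j) = e)) := by
    intro x i j
    rw [← Finset.mul_sum]
    have h2 : ii ((i < j ∧ i ≠ τ ∧ j ≠ τ) ∧ tch Λ x i j) ≤ ii (i < j) * ii (tch Λ x i j) := by
      unfold ii
      by_cases h3 : i < j <;> by_cases h4 : tch Λ x i j <;> by_cases h5 : (i ≠ τ ∧ j ≠ τ) <;>
        simp [h3, h4, h5]
    exact h2.trans (mul_le_mul_of_nonneg_left (tch_le Λ x i j) (ii_nonneg _))
  calc _ ≤ ∑ x : Fin d → ZMod l, ∑ i, ∑ j, ∑ e ∈ Λ, ii (i < j) *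
        (ii ((x, i) = e) + ii ((x + eT i, j) = e) + ii ((x + eT j, i) = e) + ii ((x, j) = e)) :=
        Finset.sum_le_sum fun x _ => Finset.sum_le_sum fun i _ => Finset.sum_le_sum fun j _ =>
          h1 x i j
    _ = ∑ e ∈ Λ, ∑ i, ∑ j, ii (i < j) * (2 * ii (i = e.2) + 2 * ii (j = e.2)) := by
        rw [Finset.sum_congr rfl fun x _ => Finset.sum_congr rfl fun i _ => Finset.sum_comm]
        rw [Finset.sum_congr rfl fun x _ => Finset.sum_comm]
        rw [Finset.sum_comm]
        refine Finset.sum_congr rfl fun e _ => ?_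
        rw [Finset.sum_comm]
        refine Finset.sum_congr rfl fun i _ => ?_
        rw [Finset.sum_comm]
        refine Finset.sum_congr rfl fun j _ => ?_
        rw [← Finset.mul_sum]
        simp only [Finset.sum_add_distrib]
        rw [sum_ii0, sum_ii, sum_ii, sum_ii0]
        ring
    _ ≤ ∑ e ∈ Λ, 2 * ((d : ℝ) - 1) := by
        refine Finset.sum_le_sum fun e _ => ?_
        have h2 : ∑ i, ∑ j, ii (i < j) * (2 * ii (i = e.2) + 2 * ii (j = e.2)) =
            2 * ∑ j, (ii (e.2 < j) + ii (j < e.2)) := by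
          have h3 : ∀ i j : Fin d, ii (i < j) * (2 * ii (i = e.2) + 2 * ii (j = e.2)) =
              2 * (if i = e.2 then ii (i < j) else 0) + 2 * (if j = e.2 then ii (i < j) else 0) := by
            intro i j
            unfold ii
            by_cases h4 : i < j <;> by_cases h5 : i = e.2 <;> by_cases h6 : j = e.2 <;>
              simp [h4, h5, h6]
          simp only [h3, Finset.sum_add_distrib, ← Finset.mul_sum]
          have h4 : ∑ i : Fin d, ∑ j : Fin d, (if i = e.2 then ii (i < j) else 0) =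
              ∑ j, ii (e.2 < j) := by
            rw [Finset.sum_comm]
            refine Finset.sum_congr rfl fun j _ => ?_
            rw [Finset.sum_ite_eq']; simp
          have h5 : ∑ i : Fin d, ∑ j : Fin d, (if j = e.2 then ii (i < j) else 0) =
              ∑ i, ii (i < e.2) := by
            refine Finset.sum_congr rfl fun i _ => ?_
            rw [Finset.sum_ite_eq']; simp
          rw [h4, h5]
          ring
        rw [h2]
        refine mul_le_mul_of_nonneg_left ?_ (by norm_num)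
        have h3 : ∀ j : Fin d, ii (e.2 < j) + ii (j < e.2) = 1 - ii (j = e.2) := by
          intro j
          unfold ii
          rcases lt_trichotomy j e.2 with h | h | h
          · simp [h, h.ne, not_lt.2 h.le]
          · simp [h]
          · simp [h, h.ne', not_lt.2 h.le]
        simp only [h3, Finset.sum_sub_distrib]
        rw [sum_one]
        simp
    _ = _ := by rw [Finset.sum_const, nsmul_eq_mul]; ring

/-- the number of plaquettes with the direction `τ` -/
lemma countB (Λ : Finset (Ed d l)) {τ : Fin d} (hΛ : ∀ e ∈ Λ, e.2 ≠ τ) :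
    ∑ x : Fin d → ZMod l, ∑ k, ii (k ≠ τ ∧ tch Λ x τ k) ≤ 2 * Λ.card := by
  have h1 : ∀ (x : Fin d → ZMod l) (k : Fin d), ii (k ≠ τ ∧ tch Λ x τ k) ≤ ∑ e ∈ Λ,
        (ii ((x, τ) = e) + ii ((x + eT τ, k) = e) + ii ((x + eT k, τ) = e) + ii ((x, k) = e)) := by
    intro x k
    refine le_trans ?_ (tch_le Λ x τ k)
    unfold ii
    by_cases h4 : tch Λ x τ k <;> by_cases h5 : k ≠ τ <;> simp [h4, h5]
  calc _ ≤ ∑ x : Fin d → ZMod l, ∑ k, ∑ e ∈ Λ,
        (ii ((x, τ) = e) + ii ((x + eT τ, k) = e) + ii ((x + eT k, τ) = e) + ii ((x, k) = e)) :=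
        Finset.sum_le_sum fun x _ => Finset.sum_le_sum fun k _ => h1 x k
    _ = ∑ e ∈ Λ, ∑ k, (2 * ii (τ = e.2) + 2 * ii (k = e.2)) := by
        rw [Finset.sum_congr rfl fun x _ => Finset.sum_comm]
        rw [Finset.sum_comm]
        refine Finset.sum_congr rfl fun e _ => ?_
        rw [Finset.sum_comm]
        refine Finset.sum_congr rfl fun j _ => ?_
        simp only [Finset.sum_add_distrib]
        rw [sum_ii0, sum_ii, sum_ii, sum_ii0]
        ring
    _ = ∑ e ∈ Λ, (2 : ℝ) := by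
        refine Finset.sum_congr rfl fun e he => ?_
        have h2 : ii (τ = e.2) = 0 := by
          unfold ii; rw [if_neg (hΛ e he).symm]
        rw [h2]
        simp only [mul_zero, zero_add]
        rw [← Finset.mul_sum]
        rw [sum_one, mul_one]
    _ = _ := by rw [Finset.sum_const, nsmul_eq_mul]; ring

end count

section split

variable {d m : ℕ} [NeZero m]

variable (L) in
/-- the part of the action of one half with the condition `c` on the plaquettes -/
def sC (τ : Fin d) (c : (Fin d → ZMod (2 * m)) → Fin d → Fin d → Prop)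
    (U : Ed d (2 * m) → G) : ℝ :=
  ∑ x, ii (H1 m (x τ)) * ∑ i, ∑ j, ii ((i < j ∧ i ≠ τ ∧ j ≠ τ) ∧ c x i j) *
    we L (plqT U x i j) +
  ∑ x, ii (H2 m (x τ)) * ∑ k, ii (k ≠ τ ∧ c x τ k) * we L (plqT U x τ k)

lemma ii_split (p c : Prop) : ii p = ii (p ∧ ¬c) + ii (p ∧ c) := by
  unfold ii
  by_cases h : p <;> by_cases h' : c <;> simp [h, h']

lemma ii_le (p : Prop) : ii p ≤ 1 := by unfold ii; split_ifs <;> norm_num

lemma sR_eq (τ : Fin d) (U : Ed d (2 * m) → G) : sR L τ U =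
    ∑ x, ii (H1 m (x τ)) * ∑ i, ∑ j, ii (i < j ∧ i ≠ τ ∧ j ≠ τ) * we L (plqT U x i j) +
    ∑ x, ii (H2 m (x τ)) * ∑ k, ii (k ≠ τ) * we L (plqT U x τ k) := by
  unfold sR aA aB ii
  congr 1
  · refine Finset.sum_congr rfl fun x _ => ?_
    by_cases h : H1 m (x τ)
    · rw [if_pos h, if_pos h, one_mul]
      refine Finset.sum_congr rfl fun i _ => Finset.sum_congr rfl fun j _ => ?_
      by_cases hp : (i < j ∧ i ≠ τ ∧ j ≠ τ) <;> simp [hp]
    · rw [if_neg h, if_neg h, zero_mul]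
  · refine Finset.sum_congr rfl fun x _ => ?_
    by_cases h : H2 m (x τ)
    · rw [if_pos h, if_pos h, one_mul]
      refine Finset.sum_congr rfl fun i _ => ?_
      by_cases hp : i ≠ τ <;> simp [hp]
    · rw [if_neg h, if_neg h, zero_mul]

lemma sR_split (τ : Fin d) (c : (Fin d → ZMod (2 * m)) → Fin d → Fin d → Prop)
    (U : Ed d (2 * m) → G) : sR L τ U = sC L τ (fun x i j => ¬c x i j) U + sC L τ c U := by
  have hA : ∑ x, ii (H1 m (x τ)) * ∑ i, ∑ j, ii (i < j ∧ i ≠ τ ∧ j ≠ τ) * we L (plqT U x i j) =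
      ∑ x, ii (H1 m (x τ)) * ∑ i, ∑ j, ii ((i < j ∧ i ≠ τ ∧ j ≠ τ) ∧ ¬c x i j) *
        we L (plqT U x i j) +
      ∑ x, ii (H1 m (x τ)) * ∑ i, ∑ j, ii ((i < j ∧ i ≠ τ ∧ j ≠ τ) ∧ c x i j) *
        we L (plqT U x i j) := by
    rw [← Finset.sum_add_distrib]
    refine Finset.sum_congr rfl fun x _ => ?_
    rw [← mul_add, ← Finset.sum_add_distrib]
    refine congrArg _ (Finset.sum_congr rfl fun i _ => ?_)
    rw [← Finset.sum_add_distrib]
    refine Finset.sum_congr rfl fun j _ => ?_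
    rw [← add_mul, ← ii_split]
  have hB : ∑ x, ii (H2 m (x τ)) * ∑ k, ii (k ≠ τ) * we L (plqT U x τ k) =
      ∑ x, ii (H2 m (x τ)) * ∑ k, ii (k ≠ τ ∧ ¬c x τ k) * we L (plqT U x τ k) +
      ∑ x, ii (H2 m (x τ)) * ∑ k, ii (k ≠ τ ∧ c x τ k) * we L (plqT U x τ k) := by
    rw [← Finset.sum_add_distrib]
    refine Finset.sum_congr rfl fun x _ => ?_
    rw [← mul_add, ← Finset.sum_add_distrib]
    refine congrArg _ (Finset.sum_congr rfl fun i _ => ?_)
    rw [← add_mul, ← ii_split]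
  rw [sR_eq, hA, hB]
  unfold sC
  ring

lemma sC_nonneg (τ : Fin d) (c : (Fin d → ZMod (2 * m)) → Fin d → Fin d → Prop)
    (U : Ed d (2 * m) → G) : 0 ≤ sC L τ c U := by
  unfold sC
  refine add_nonneg (Finset.sum_nonneg fun x _ => mul_nonneg (ii_nonneg _)
    (Finset.sum_nonneg fun i _ => Finset.sum_nonneg fun j _ =>
      mul_nonneg (ii_nonneg _) (we_nonneg _))) (Finset.sum_nonneg fun x _ =>
    mul_nonneg (ii_nonneg _) (Finset.sum_nonneg fun i _ => mul_nonneg (ii_nonneg _) (we_nonneg _)))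

lemma sC_le {τ : Fin d} {Λ : Finset (Ed d (2 * m))} (hΛ : ∀ e ∈ Λ, e.2 ≠ τ)
    (U : Ed d (2 * m) → G) : sC L τ (tch Λ) U ≤ 4 * d * N * Λ.card := by
  have hA : ∑ x : Fin d → ZMod (2 * m), ii (H1 m (x τ)) * ∑ i, ∑ j,
      ii ((i < j ∧ i ≠ τ ∧ j ≠ τ) ∧ tch Λ x i j) * we L (plqT U x i j) ≤
      2 * N * (2 * ((d : ℝ) - 1) * Λ.card) := by
    calc _ ≤ ∑ x : Fin d → ZMod (2 * m), ∑ i, ∑ j,
        2 * N * ii ((i < j ∧ i ≠ τ ∧ j ≠ τ) ∧ tch Λ x i j) := by
          refine Finset.sum_le_sum fun x _ => ?_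
          have h0 : 0 ≤ ∑ i, ∑ j,
              ii ((i < j ∧ i ≠ τ ∧ j ≠ τ) ∧ tch Λ x i j) * we L (plqT U x i j) :=
            Finset.sum_nonneg fun i _ => Finset.sum_nonneg fun j _ =>
              mul_nonneg (ii_nonneg _) (we_nonneg _)
          refine (mul_le_of_le_one_left h0 (ii_le _)).trans ?_
          refine Finset.sum_le_sum fun i _ => Finset.sum_le_sum fun j _ => ?_
          rw [mul_comm]
          exact mul_le_mul_of_nonneg_right (we_le _) (ii_nonneg _)
      _ = 2 * N * ∑ x : Fin d → ZMod (2 * m), ∑ i, ∑ j,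
        ii ((i < j ∧ i ≠ τ ∧ j ≠ τ) ∧ tch Λ x i j) := by
          simp only [Finset.mul_sum]
      _ ≤ _ := mul_le_mul_of_nonneg_left (countA Λ τ) (by positivity)
  have hB : ∑ x : Fin d → ZMod (2 * m), ii (H2 m (x τ)) * ∑ k,
      ii (k ≠ τ ∧ tch Λ x τ k) * we L (plqT U x τ k) ≤ 2 * N * (2 * Λ.card) := by
    calc _ ≤ ∑ x : Fin d → ZMod (2 * m), ∑ k, 2 * N * ii (k ≠ τ ∧ tch Λ x τ k) := by
          refine Finset.sum_le_sum fun x _ => ?_
          have h0 : 0 ≤ ∑ k, ii (k ≠ τ ∧ tch Λ x τ k) * we L (plqT U x τ k) :=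
            Finset.sum_nonneg fun i _ => mul_nonneg (ii_nonneg _) (we_nonneg _)
          refine (mul_le_of_le_one_left h0 (ii_le _)).trans ?_
          refine Finset.sum_le_sum fun i _ => ?_
          rw [mul_comm]
          exact mul_le_mul_of_nonneg_right (we_le _) (ii_nonneg _)
      _ = 2 * N * ∑ x : Fin d → ZMod (2 * m), ∑ k, ii (k ≠ τ ∧ tch Λ x τ k) := by
          simp only [Finset.mul_sum]
      _ ≤ _ := mul_le_mul_of_nonneg_left (countB Λ hΛ) (by positivity)
  unfold sC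
  refine (add_le_add hA hB).trans (le_of_eq ?_)
  ring

lemma sC_dep (τ : Fin d) (Λ : Finset (Ed d (2 * m))) :
    Dep (fun e => ¬e ∈ Λ) (sC L τ (fun x i j => ¬tch Λ x i j) : (Ed d (2 * m) → G) → ℝ) := by
  intro U U' h
  have h1 : ∀ (p : Prop) x i j, ii (p ∧ ¬tch Λ x i j) * we L (plqT U x i j) =
      ii (p ∧ ¬tch Λ x i j) * we L (plqT U' x i j) := by
    intro p x i j
    by_cases hp : p ∧ ¬tch Λ x i j
    · have h2 := hp.2
      unfold tch at h2
      push Not at h2
      rw [plqT_congr (h _ h2.1) (h _ h2.2.1) (h _ h2.2.2.1) (h _ h2.2.2.2)]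
    · have h3 : ii (p ∧ ¬tch Λ x i j) = 0 := by
        unfold ii; exact if_neg hp
      rw [h3, zero_mul, zero_mul]
  unfold sC
  simp only [h1]

lemma sC_cont (τ : Fin d) (c : (Fin d → ZMod (2 * m)) → Fin d → Fin d → Prop) :
    Continuous (sC L τ c : (Ed d (2 * m) → G) → ℝ) := by
  unfold sC
  have hw : ∀ x i j, Continuous fun U : Ed d (2 * m) → G => we L (plqT U x i j) := fun x i j =>
    Sm_cont ⟨_, we_mem (L := L) x i j⟩
  exact (continuous_finsetSum _ fun x _ => continuous_const.mul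
    (continuous_finsetSum _ fun i _ => continuous_finsetSum _ fun j _ =>
      continuous_const.mul (hw x i j))).add
    (continuous_finsetSum _ fun x _ => continuous_const.mul
      (continuous_finsetSum _ fun k _ => continuous_const.mul (hw x τ k)))

end split

section dens

variable {d m : ℕ} [NeZero m] (μ : Measure G) [IsProbabilityMeasure μ] [μ.IsMulLeftInvariant]
  [μ.IsMulRightInvariant] [μ.IsInvInvariant]

/-- **Bounded local density.** `S` is the reflection of the torus with fewer interactions: the links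
of `Λ` do not interact with their images. -/
theorem dens (hm : 2 ≤ m) {τ : Fin d} {Λ : Finset (Ed d (2 * m))}
    (hΛ : ∀ e ∈ Λ, e.2 ≠ τ) (hΛR : ∀ e ∈ Λ, (TR hm τ).R e) {S : Refl (Ed d (2 * m))}
    (hSR : S.R = (TR hm τ).R) (hSJ : ∀ e ∈ S.J, e ∉ Λ) {β : ℝ} (hβ : 0 ≤ β)
    {A : (Ed d (2 * m) → G) → ℝ} (hA : Continuous A) (hA0 : ∀ U, 0 ≤ A U)
    (hAd : Dep (fun e => e ∈ Λ) A) :
    Real.exp (-(β * (4 * d * N * Λ.card))) * (∫ U, A U ∂(ME μ (Ed d (2 * m)))) *
      S.B μ L β (wR L β m τ).1 (wR L β m τ).1 ≤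
      S.B μ L β (fun U => A U * (wR L β m τ).1 U) (wR L β m τ).1 := by
  obtain ⟨W0, hW0⟩ : ∃ W0 : (Ed d (2 * m) → G) → ℝ, W0 = fun U =>
    Real.exp (-(β * sC L τ (fun x i j => ¬tch Λ x i j) U)) * (wR L β m τ).1 (S.tU U) *
      Real.exp (β * S.ker L U) := ⟨_, rfl⟩
  have hwc : Continuous ((wR L β m τ).1 : (Ed d (2 * m) → G) → ℝ) := Sm_cont _
  have hW0c : Continuous W0 := by
    rw [hW0]
    exact ((Real.continuous_exp.comp (continuous_const.mul (sC_cont τ _)).neg).mul
      (hwc.comp S.tU_cont)).mul (Real.continuous_exp.comp (continuous_const.mul S.ker_cont))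
  have hW00 : ∀ U, 0 ≤ W0 U := fun U => by
    rw [hW0]
    exact mul_nonneg (mul_nonneg (Real.exp_pos _).le (wR_nonneg β τ _)) (Real.exp_pos _).le
  have hW0d : Dep (fun e => ¬e ∈ Λ) W0 := by
    intro U U' h
    rw [hW0]
    simp only
    have e1 := sC_dep (L := L) τ Λ U U' h
    have e2 : (wR L β m τ).1 (S.tU U) = (wR L β m τ).1 (S.tU U') := by
      have h2 : Dep S.R ((wR L β m τ).1 : (Ed d (2 * m) → G) → ℝ) := by
        rw [hSR]; exact wR_dep hm β τ
      refine S.dep h2 U U' fun e he => h e fun hΛe => he ?_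
      rw [hSR]; exact hΛR e hΛe
    have e3 : S.ker L U = S.ker L U' := by
      unfold Refl.ker
      refine Finset.sum_congr rfl fun e he => ?_
      rw [h e (hSJ e he), h (S.th e) fun hΛe => S.th_R e (S.J_R e he) (by
        rw [hSR]; exact hΛR _ hΛe)]
    rw [e1, e2, e3]
  have hW : ∀ U, (wR L β m τ).1 U * (wR L β m τ).1 (S.tU U) * Real.exp (β * S.ker L U) =
      W0 U * Real.exp (-(β * sC L τ (tch Λ) U)) := by
    intro U
    rw [hW0, wR_apply, sR_split τ (tch Λ), mul_add, neg_add, Real.exp_add]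
    ring
  obtain ⟨κ, hκ⟩ : ∃ κ : ℝ, κ = Real.exp (-(β * (4 * d * N * Λ.card))) := ⟨_, rfl⟩
  have hκ0 : 0 < κ := by rw [hκ]; exact Real.exp_pos _
  have hup : ∀ U, (wR L β m τ).1 U * (wR L β m τ).1 (S.tU U) * Real.exp (β * S.ker L U) ≤
      W0 U := by
    intro U
    rw [hW]
    refine mul_le_of_le_one_right (hW00 U) ?_
    rw [Real.exp_le_one_iff]
    have := mul_nonneg hβ (sC_nonneg (L := L) τ (tch Λ) U)
    linarith
  have hlow : ∀ U, κ * W0 U ≤
      (wR L β m τ).1 U * (wR L β m τ).1 (S.tU U) * Real.exp (β * S.ker L U) := by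
    intro U
    rw [hW, mul_comm, hκ]
    refine mul_le_mul_of_nonneg_left (Real.exp_le_exp.2 (neg_le_neg ?_)) (hW00 U)
    exact mul_le_mul_of_nonneg_left (sC_le hΛ U) hβ
  rw [← hκ]
  have hWc : Continuous fun U => (wR L β m τ).1 U * (wR L β m τ).1 (S.tU U) *
      Real.exp (β * S.ker L U) := B_cont S hwc hwc β
  have h1 : S.B μ L β (wR L β m τ).1 (wR L β m τ).1 ≤ ∫ U, W0 U ∂(ME μ (Ed d (2 * m))) := by
    unfold Refl.B
    exact integral_mono (integrable_cont μ hWc) (integrable_cont μ hW0c) hup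
  have h2 : κ * ∫ U, A U * W0 U ∂(ME μ (Ed d (2 * m))) ≤
      S.B μ L β (fun U => A U * (wR L β m τ).1 U) (wR L β m τ).1 := by
    unfold Refl.B
    rw [← integral_const_mul]
    refine integral_mono (integrable_cont μ (continuous_const.mul (hA.mul hW0c)))
      (integrable_cont μ (B_cont S (hA.mul hwc) hwc β)) fun U => ?_
    show κ * (A U * W0 U) ≤ A U * (wR L β m τ).1 U * (wR L β m τ).1 (S.tU U) *
      Real.exp (β * S.ker L U)
    calc κ * (A U * W0 U) = A U * (κ * W0 U) := by ring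
      _ ≤ A U * ((wR L β m τ).1 U * (wR L β m τ).1 (S.tU U) * Real.exp (β * S.ker L U)) :=
          mul_le_mul_of_nonneg_left (hlow U) (hA0 U)
      _ = _ := by ring
  have h3 : ∫ U, A U * W0 U ∂(ME μ (Ed d (2 * m))) =
      (∫ U, A U ∂(ME μ (Ed d (2 * m)))) * ∫ U, W0 U ∂(ME μ (Ed d (2 * m))) :=
    integral_indep μ (fun e => e ∈ Λ) hAd hW0d
  rw [h3] at h2
  refine le_trans ?_ h2
  have h4 : 0 ≤ ∫ U, A U ∂(ME μ (Ed d (2 * m))) := integral_nonneg hA0
  calc _ = κ * ((∫ U, A U ∂(ME μ (Ed d (2 * m)))) *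
        S.B μ L β (wR L β m τ).1 (wR L β m τ).1) := by ring
    _ ≤ _ := mul_le_mul_of_nonneg_left (mul_le_mul_of_nonneg_left h1 h4) hκ0.le

end dens

end

end Pool.Agent.U508.YMF
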