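import Mathlib

/-!
# The variance of the real part of the character of a nontrivial unitary representation
-/

open MeasureTheory Matrix
open scoped Kronecker ComplexConjugate

namespace Pool.Agent.U508.YMF

set_option linter.unusedSectionVars false

noncomputable section

variable {G : Type*} [Group G] [TopologicalSpace G] [IsTopologicalGroup G] [CompactSpace G]
  [SecondCountableTopology G] [MeasurableSpace G] [BorelSpace G] (μ : Measure G)
  [IsProbabilityMeasure μ]

lemma intC {f : G → ℂ} (hf : Continuous f) : Integrable f μ :=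
  hf.integrable_of_hasCompactSupport (HasCompactSupport.of_compactSpace _)

lemma intR {f : G → ℝ} (hf : Continuous f) : Integrable f μ :=
  hf.integrable_of_hasCompactSupport (HasCompactSupport.of_compactSpace _)

section idem

variable {m : Type*} [Fintype m] [DecidableEq m]

/-- entrywise integral -/
def mi (K : G → Matrix m m ℂ) : Matrix m m ℂ := fun i j => ∫ g, K g i j ∂μ

lemma ent {K : G → Matrix m m ℂ} (hK : Continuous K) (i j : m) : Continuous fun g => K g i j :=
  (continuous_apply j).comp ((continuous_apply i).comp hK)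

lemma mi_left {K : G → Matrix m m ℂ} (hK : Continuous K) (M : Matrix m m ℂ) :
    mi μ (fun g => M * K g) = M * mi μ K := by
  ext i j
  unfold mi
  simp only [mul_apply]
  rw [integral_finsetSum _ fun k _ => (intC μ (ent hK k j)).const_mul _]
  exact Finset.sum_congr rfl fun k _ => integral_const_mul _ _

lemma mi_right {K : G → Matrix m m ℂ} (hK : Continuous K) (M : Matrix m m ℂ) :
    mi μ (fun g => K g * M) = mi μ K * M := by
  ext i j
  unfold mi
  simp only [mul_apply]
  rw [integral_finsetSum _ fun k _ => (intC μ (ent hK i k)).mul_const _]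
  exact Finset.sum_congr rfl fun k _ => integral_mul_const _ _

lemma mi_const (M : Matrix m m ℂ) : mi μ (fun _ : G => M) = M := by
  ext i j
  unfold mi
  simp

lemma mi_trace {K : G → Matrix m m ℂ} (hK : Continuous K) :
    trace (mi μ K) = ∫ g, trace (K g) ∂μ := by
  have h1 : ∀ g, trace (K g) = ∑ k, K g k k := fun g => rfl
  simp only [h1]
  rw [integral_finsetSum _ fun k _ => intC μ (ent hK k k)]
  rfl

lemma mi_absorb [μ.IsMulLeftInvariant] {K : G → Matrix m m ℂ} (hK : Continuous K)
    (hm : ∀ g h, K (g * h) = K g * K h) (h : G) : K h * mi μ K = mi μ K := by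
  rw [← mi_left μ hK]
  ext i j
  unfold mi
  simp only [← hm]
  exact integral_mul_left_eq_self (μ := μ) (fun g => K g i j) h

lemma mi_absorb' [μ.IsMulRightInvariant] {K : G → Matrix m m ℂ} (hK : Continuous K)
    (hm : ∀ g h, K (g * h) = K g * K h) (h : G) : mi μ K * K h = mi μ K := by
  rw [← mi_right μ hK]
  ext i j
  unfold mi
  simp only [← hm]
  exact integral_mul_right_eq_self (μ := μ) (fun g => K g i j) h

lemma mi_idem [μ.IsMulLeftInvariant] {K : G → Matrix m m ℂ} (hK : Continuous K)
    (hm : ∀ g h, K (g * h) = K g * K h) : mi μ K * mi μ K = mi μ K := by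
  rw [← mi_right μ hK]
  simp only [mi_absorb μ hK hm]
  exact mi_const μ _

/-- the trace of an idempotent matrix is a natural number -/
lemma trace_idem {P : Matrix m m ℂ} (hP : P * P = P) : ∃ k : ℕ, trace P = k := by
  have h1 : IsIdempotentElem (Matrix.toLin' P) := by
    unfold IsIdempotentElem
    rw [Module.End.mul_eq_comp, ← Matrix.toLin'_mul, hP]
  refine ⟨Module.finrank ℂ (LinearMap.range (Matrix.toLin' P)), ?_⟩
  rw [← (LinearMap.IsIdempotentElem.isProj_range _ h1).trace, Matrix.trace_toLin'_eq]

/-- the integral of the trace of a multiplicative matrix function is a natural number -/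
lemma int_trace [μ.IsMulLeftInvariant] {K : G → Matrix m m ℂ} (hK : Continuous K)
    (hm : ∀ g h, K (g * h) = K g * K h) : ∃ k : ℕ, ∫ g, trace (K g) ∂μ = k := by
  obtain ⟨k, hk⟩ := trace_idem (mi_idem μ hK hm)
  exact ⟨k, by rw [← hk, mi_trace μ hK]⟩

end idem

variable {N : ℕ}

/-- A unitary matrix with the trace `N` is the identity. -/
lemma eq_one_of_trace {M : Matrix (Fin N) (Fin N) ℂ} (hM : M * Mᴴ = 1)
    (h : (trace M).re = N) : M = 1 := by
  have h1 : (trace ((1 - M) * (1 - M)ᴴ)).re = 0 := by
    have h2 : (1 - M) * (1 - M)ᴴ = 1 + 1 - M - Mᴴ := by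
      rw [conjTranspose_sub, conjTranspose_one, sub_mul, mul_sub, mul_sub, hM]
      simp only [one_mul, mul_one]
      abel
    rw [h2, trace_sub, trace_sub, trace_add, trace_one, trace_conjTranspose]
    simp [h]
  have h2 : ∀ A : Matrix (Fin N) (Fin N) ℂ, (trace (A * Aᴴ)).re =
      ∑ i, ∑ j, Complex.normSq (A i j) := by
    intro A
    rw [trace, Complex.re_sum]
    refine Finset.sum_congr rfl fun i _ => ?_
    rw [diag_apply, mul_apply, Complex.re_sum]
    refine Finset.sum_congr rfl fun j _ => ?_
    rw [conjTranspose_apply, Complex.normSq_apply]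
    simp [Complex.mul_re]
  rw [h2] at h1
  have h3 := (Finset.sum_eq_zero_iff_of_nonneg fun i _ =>
    Finset.sum_nonneg fun j _ => Complex.normSq_nonneg _).1 h1
  have h4 : 1 - M = 0 := by
    ext i j
    have h5 := (Finset.sum_eq_zero_iff_of_nonneg fun j _ =>
      Complex.normSq_nonneg ((1 - M) i j)).1 (h3 i (Finset.mem_univ _)) j (Finset.mem_univ _)
    exact Complex.normSq_eq_zero.1 h5
  exact (sub_eq_zero.1 h4).symm

variable [μ.IsMulLeftInvariant] [μ.IsMulRightInvariant] [μ.IsOpenPosMeasure]

/-- **The variance of the real part of the trace of a nontrivial unitary representation is at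
least `1 / 2`.** -/
theorem var_trace {ρ : G →* Matrix (Fin N) (Fin N) ℂ} (hc : Continuous ρ)
    (hu : ∀ g, ρ g * (ρ g)ᴴ = 1) (hne : ∃ g, ρ g ≠ 1) (x : ℝ) :
    1 / 2 ≤ ∫ g, ((trace (ρ g)).re - x) ^ 2 ∂μ := by
  obtain ⟨A, hA⟩ : ∃ A, A = mi μ (fun g => ρ g) := ⟨_, rfl⟩
  have hm : ∀ g h : G, ρ (g * h) = ρ g * ρ h := fun g h => map_mul _ _ _
  have hA1 : ∀ h, ρ h * A = A := fun h => by
    rw [hA]; exact mi_absorb μ (K := fun g => ρ g) hc hm h
  have hA2 : ∀ h, A * ρ h = A := fun h => by
    rw [hA]; exact mi_absorb' μ (K := fun g => ρ g) hc hm h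
  have hA3 : A * A = A := by
    rw [hA]; exact mi_idem μ (K := fun g => ρ g) hc hm
  obtain ⟨σ, hσ⟩ : ∃ σ : G → Matrix (Fin N) (Fin N) ℂ, σ = fun g => ρ g - A := ⟨_, rfl⟩
  have hσc : Continuous σ := by rw [hσ]; exact hc.sub continuous_const
  have hσm : ∀ g h, σ (g * h) = σ g * σ h := by
    intro g h
    rw [hσ]
    simp only
    rw [hm, sub_mul, mul_sub, mul_sub, hA1, hA2, hA3]
    abel
  have hσc' : Continuous fun g => (σ g).map conj := by
    refine continuous_matrix fun i j => ?_
    exact Complex.continuous_conj.comp (ent hσc i j)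
  obtain ⟨k1, hk1⟩ := int_trace μ (K := fun g => σ g ⊗ₖ (σ g).map conj)
    (by
      refine continuous_matrix fun i j => ?_
      exact (ent hσc _ _).mul (ent hσc' _ _))
    (fun g h => by
      have h1 : (σ g * σ h).map conj = (σ g).map conj * (σ h).map conj := Matrix.map_mul
      rw [← mul_kronecker_mul, hσm, h1])
  obtain ⟨k2, hk2⟩ := int_trace μ (K := fun g => σ g ⊗ₖ σ g)
    (by
      refine continuous_matrix fun i j => ?_
      exact (ent hσc _ _).mul (ent hσc _ _))
    (fun g h => by
      rw [← mul_kronecker_mul, hσm])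
  have ht : ∀ g, trace ((σ g).map conj) = conj (trace (σ g)) := by
    intro g
    unfold trace
    rw [map_sum]
    rfl
  simp only [trace_kronecker, ht] at hk1 hk2
  -- the integral of the square of the real part
  have hcc : Continuous fun g => trace (σ g) := hσc.matrix_trace
  have e1 : ∫ g, (trace (σ g)).re ^ 2 ∂μ = ((k1 : ℝ) + k2) / 2 := by
    have h1 : ∀ z : ℂ, z.re ^ 2 = ((z * conj z).re + (z * z).re) / 2 := by
      intro z
      simp only [Complex.mul_re, Complex.conj_re, Complex.conj_im]
      ring
    simp only [h1]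
    have c1 : Continuous fun g => (trace (σ g) * conj (trace (σ g))) :=
      hcc.mul (Complex.continuous_conj.comp hcc)
    have c2 : Continuous fun g => (trace (σ g) * trace (σ g)) := hcc.mul hcc
    have i1 : Integrable (fun g => (trace (σ g) * conj (trace (σ g))).re) μ :=
      intR μ (Complex.continuous_re.comp c1)
    have i2 : Integrable (fun g => (trace (σ g) * trace (σ g)).re) μ :=
      intR μ (Complex.continuous_re.comp c2)
    rw [integral_div, integral_add i1 i2]
    have r1 : ∫ g, (trace (σ g) * conj (trace (σ g))).re ∂μ = k1 := by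
      have := Complex.reCLM.integral_comp_comm (intC μ c1)
      simp only [Complex.reCLM_apply] at this
      rw [this, hk1, Complex.natCast_re]
    have r2 : ∫ g, (trace (σ g) * trace (σ g)).re ∂μ = k2 := by
      have := Complex.reCLM.integral_comp_comm (intC μ c2)
      simp only [Complex.reCLM_apply] at this
      rw [this, hk2, Complex.natCast_re]
    rw [r1, r2]
  -- the first one is positive
  have hk1pos : 1 ≤ k1 := by
    by_contra hcon
    have hk0 : k1 = 0 := by omega
    have c1 : Continuous fun g => Complex.normSq (trace (σ g)) := Complex.continuous_normSq.comp hcc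
    have h1 : ∫ g, Complex.normSq (trace (σ g)) ∂μ = 0 := by
      have h2 : ∀ g, Complex.normSq (trace (σ g)) = (trace (σ g) * conj (trace (σ g))).re := by
        intro g
        rw [Complex.mul_conj, Complex.ofReal_re]
      simp only [h2]
      have c2 : Continuous fun g => (trace (σ g) * conj (trace (σ g))) :=
        hcc.mul (Complex.continuous_conj.comp hcc)
      have := Complex.reCLM.integral_comp_comm (intC μ c2)
      simp only [Complex.reCLM_apply] at this
      rw [this, hk1, hk0]
      simp
    have h2 : (fun g => Complex.normSq (trace (σ g))) = 0 := by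
      have h3 := (integral_eq_zero_iff_of_nonneg (fun g => Complex.normSq_nonneg _)
        (intR μ c1)).1 h1
      exact (Continuous.ae_eq_iff_eq μ c1 continuous_const).1 h3
    have h3 : ∀ g, trace (ρ g) = trace A := by
      intro g
      have h4 := Complex.normSq_eq_zero.1 (congrFun h2 g)
      rw [hσ] at h4
      simp only [trace_sub] at h4
      exact sub_eq_zero.1 h4
    obtain ⟨g, hg⟩ := hne
    refine hg (eq_one_of_trace (hu g) ?_)
    rw [h3 g, ← h3 1, map_one, trace_one]
    simp
  have e0 : ∫ g, (trace (σ g)).re ∂μ = 0 := by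
    have := Complex.reCLM.integral_comp_comm (intC μ hcc)
    simp only [Complex.reCLM_apply] at this
    rw [this, ← mi_trace μ hσc]
    have h1 : mi μ σ = 0 := by
      have h2 : mi μ σ = mi μ (fun g => ρ g) - A := by
        ext i j
        rw [hσ, Matrix.sub_apply]
        have i1 : Integrable (fun g => ρ g i j) μ := intC μ (ent (K := fun g => ρ g) hc i j)
        show ∫ g, (ρ g i j - A i j) ∂μ = ∫ g, ρ g i j ∂μ - A i j
        rw [integral_sub i1 (integrable_const _)]
        simp
      rw [h2, ← hA, sub_self]
    rw [h1]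
    simp
  have e2 : ∀ g, ((trace (ρ g)).re - x) ^ 2 = (trace (σ g)).re ^ 2 +
      (2 * ((trace A).re - x) * (trace (σ g)).re + ((trace A).re - x) ^ 2) := by
    intro g
    rw [hσ]
    simp only [trace_sub, Complex.sub_re]
    ring
  simp only [e2]
  have cr : Continuous fun g => (trace (σ g)).re := Complex.continuous_re.comp hcc
  have i1 : Integrable (fun g => (trace (σ g)).re ^ 2) μ := intR μ (cr.pow 2)
  have i2 : Integrable (fun g => 2 * ((trace A).re - x) * (trace (σ g)).re) μ :=
    intR μ (continuous_const.mul cr)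
  have i3 : Integrable (fun g => 2 * ((trace A).re - x) * (trace (σ g)).re +
      ((trace A).re - x) ^ 2) μ := i2.add (integrable_const _)
  rw [integral_add i1 i3, integral_add i2 (integrable_const _), integral_const_mul, e0, e1]
  simp only [mul_zero, zero_add, integral_const, probReal_univ, smul_eq_mul, one_mul]
  have h1 : (1 : ℝ) ≤ k1 := by exact_mod_cast hk1pos
  have h2 : (0 : ℝ) ≤ k2 := Nat.cast_nonneg _
  nlinarith [sq_nonneg ((trace A).re - x)]

end

end Pool.Agent.U508.YMF
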