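import Mathlib
import Pool.Agent.W793.YM.Corr
import Pool.Agent.U508.YMF.Dens
import Pool.Agent.U508.YMF.HaarVar

/-!
# The correlation of two neighbouring plaquettes on the torus
-/

open MeasureTheory Matrix
open scoped Matrix.Norms.Frobenius
open Pool.Agent.H906R3.YM Pool.Agent.W793.YM

namespace Pool.Agent.U508.YMF

set_option linter.unusedSectionVars false

noncomputable section

variable {G : Type*} [Group G] [TopologicalSpace G] [IsTopologicalGroup G] [CompactSpace G]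
  [SecondCountableTopology G] [MeasurableSpace G] [BorelSpace G] (μ : Measure G)
  [IsProbabilityMeasure μ] [μ.IsMulLeftInvariant] [μ.IsMulRightInvariant] [μ.IsInvInvariant]
  {N n : ℕ} {L : LD G N n}

variable (L) in
/-- the real part of the trace -/
def rtr (g : G) : ℝ := (trace (L.rho g)).re

lemma rtr_cont : Continuous (rtr L) := Complex.continuous_re.comp L.cont.matrix_trace

lemma rtr_we (g : G) : rtr L g = N - we L g := by
  rw [we_tr]; unfold rtr; ring

lemma rtr_conj (h g : G) : rtr L (h * g * h⁻¹) = rtr L g := by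
  rw [rtr_we, rtr_we, we_conj]

lemma rtr_abs (g : G) : |rtr L g| ≤ N := rt_abs g

/-- the integral of a function of one link times a function of the others -/
lemma integral_link {E : Type*} [Fintype E] [DecidableEq E] (e : E) {ψ : G → ℝ}
    (hψ : Continuous ψ) {b : (E → G) → G} (hb : Continuous b)
    (hbd : Dep (fun x => ¬x = e) b) :
    ∫ U, ψ (U e * b U) ∂(ME μ E) = ∫ g, ψ g ∂μ := by
  have h1 := integral_skew μ (fun x => x = e) (F := fun U : E → G => ψ (U e))
    (hψ.comp (continuous_apply e)) (a := fun _ _ => 1) (b := fun _ => b)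
    (fun _ => continuous_const) (fun _ => hb) (fun _ _ _ _ => rfl) (fun _ => hbd)
  simp only [if_true, one_mul] at h1
  rw [h1]
  exact integral_comp_eval (μ := fun _ : E => μ) (i := e) hψ.aestronglyMeasurable

section tor

variable {d m : ℕ} [NeZero m] {τ i j : Fin d}

/-- the plaquette at `x` -/
lemma plq_four {l : ℕ} (U : Ed d l → G) (x : Fin d → ZMod l) (i j : Fin d) :
    rtr L (plqT U x i j) = ∑ q : Q4 N, kp q.2 * (c1 L (x, i) (m1 q) U *
      c1 L (x + eT i, j) (m2 q) U * c1 L (x + eT j, i) (m3 q) U * c1 L (x, j) (m4 q) U) := by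
  unfold rtr plqT
  rw [map_mul, map_mul, map_mul, L.rho_inv, L.rho_inv, trace_four]
  rfl

lemma plq_cont {l : ℕ} (x : Fin d → ZMod l) (i j : Fin d) :
    Continuous fun U : Ed d l → G => rtr L (plqT U x i j) := by
  refine rtr_cont.comp ?_
  unfold plqT
  fun_prop

/-- the Haar integral of a function of the plaquette -/
lemma integral_plq {l : ℕ} [NeZero l] (hl : 2 ≤ l) (x : Fin d → ZMod l) (hij : i ≠ j)
    {ψ : G → ℝ} (hψ : Continuous ψ) :
    ∫ U, ψ (plqT U x i j) ∂(ME μ (Ed d l)) = ∫ g, ψ g ∂μ := by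
  have : Fact (1 < l) := ⟨by omega⟩
  have h0 : (eT j : Fin d → ZMod l) ≠ 0 := by
    intro h
    have := congrFun h j
    simp [eT] at this
  have h1 := integral_link μ (E := Ed d l) (x, i) hψ
    (b := fun U => U (x + eT i, j) * (U (x + eT j, i))⁻¹ * (U (x, j))⁻¹)
    (by fun_prop)
    (fun U U' h => by
      have e1 : U (x + eT i, j) = U' (x + eT i, j) := h _ (fun h' => hij (congrArg Prod.snd h').symm)
      have e2 : U (x + eT j, i) = U' (x + eT j, i) := h _ (fun h' => by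
        have h2 : x + eT j = x := congrArg Prod.fst h'
        exact h0 (by simpa using h2))
      have e3 : U (x, j) = U' (x, j) := h _ (fun h' => hij (congrArg Prod.snd h').symm)
      simp only [e1, e2, e3])
  rw [← h1]
  refine integral_congr_ae (Filter.Eventually.of_forall fun U => ?_)
  simp only [plqT, mul_assoc]

/-- reduction to one half of the torus -/
lemma half (hm : 2 ≤ m) (β : ℝ) : ∃ c : ℝ, 0 < c ∧
    Zt μ L β (fun _ : Ed d (2 * m) → G => 1) =
      c * (TR hm τ).B μ L β (wR L β m τ).1 (wR L β m τ).1 ∧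
    ∀ F : (Ed d (2 * m) → G) → ℝ, Continuous F → GI F → Sp τ F →
      cor μ L β τ F 1 = c * (TR hm τ).B μ L β
        (fun U => F (tr (sv τ 1) U) * (wR L β m τ).1 U)
        (fun U => F (tr (sv τ 1) U) * (wR L β m τ).1 U) := by
  obtain ⟨c, hc0, hred⟩ := Zt_red μ (L := L) hm τ β
  refine ⟨c, hc0, ?_, fun F hc hg hF => ?_⟩
  · rw [hred _ continuous_const (fun _ _ => rfl)]
    unfold Refl.Ew Refl.B
    simp only [one_mul]
  · have h1 : cor μ L β τ F 1 =
        Zt μ L β (fun U => F (tr (sv τ (1 - 1)) U) * F (tr (sv τ 1) U)) := by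
      rw [cor_tr]; congr 1; ring
    have hcc : Continuous fun U : Ed d (2 * m) → G =>
        F (tr (sv τ (1 - 1)) U) * F (tr (sv τ 1) U) :=
      (hc.comp (tr_cont _)).mul (hc.comp (tr_cont _))
    have hgg : GI fun U : Ed d (2 * m) → G => F (tr (sv τ (1 - 1)) U) * F (tr (sv τ 1) U) :=
      fun γ U => by
        have e1 : F (tr (sv τ (1 - 1)) (gt γ U)) = F (tr (sv τ (1 - 1)) U) :=
          GI_tr hg (sv τ (1 - 1)) γ U
        have e2 : F (tr (sv τ 1) (gt γ U)) = F (tr (sv τ 1) U) := GI_tr hg (sv τ 1) γ U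
        show F _ * F _ = F _ * F _
        rw [e1, e2]
    rw [h1, hred _ hcc hgg]
    congr 1
    unfold Refl.Ew Refl.B
    refine integral_congr_ae (Filter.Eventually.of_forall fun U => ?_)
    simp only
    rw [sp_fix hF, sp_fix hF, sp_refl hm hF]
    ring

/-- the algebra of the lower bound -/
lemma alg {ε v I0 I1 I2 z Nr b : ℝ} (hε0 : 0 ≤ ε) (hε1 : ε ≤ 1) (hεb : ε ≤ b) (hN : 1 ≤ Nr)
    (hv : 0 ≤ v) (hI0 : 0 < I0) (hI1 : |I1| ≤ Nr * I0) (hvar : v * I0 ^ 2 ≤ I2 * I0 - I1 ^ 2) :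
    ε / (64 * Nr ^ 4) * v ^ 2 * I0 ^ 2 ≤
      (I1 - z * I0) ^ 2 + b / (16 * Nr ^ 4) * (I2 - z * I1) ^ 2 := by
  obtain ⟨x, hx⟩ : ∃ x, x = I1 - z * I0 := ⟨_, rfl⟩
  obtain ⟨y, hy⟩ : ∃ y, y = I2 - z * I1 := ⟨_, rfl⟩
  rw [← hx, ← hy]
  have hN4 : (0 : ℝ) < Nr ^ 4 := by positivity
  have hN2 : (1 : ℝ) ≤ Nr ^ 2 := one_le_pow₀ hN
  have hyI : y * I0 = (I2 * I0 - I1 ^ 2) + I1 * x := by rw [hx, hy]; ring
  rcases le_or_gt (v * I0 / (2 * Nr)) |x| with h | h
  · have h1 : (v * I0 / (2 * Nr)) ^ 2 ≤ x ^ 2 := by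
      rw [← sq_abs x]
      exact pow_le_pow_left₀ (by positivity) h 2
    have h2 : ε / (64 * Nr ^ 4) * v ^ 2 * I0 ^ 2 ≤ (v * I0 / (2 * Nr)) ^ 2 := by
      have h3 : (v * I0 / (2 * Nr)) ^ 2 = (1 / (4 * Nr ^ 2)) * v ^ 2 * I0 ^ 2 := by
        field_simp; ring
      rw [h3]
      have h4 : ε / (64 * Nr ^ 4) ≤ 1 / (4 * Nr ^ 2) := by
        rw [div_le_div_iff₀ (by positivity) (by positivity)]
        nlinarith
      gcongr
    have h3 : 0 ≤ b / (16 * Nr ^ 4) * y ^ 2 := by
      have : 0 ≤ b := hε0.trans hεb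
      positivity
    linarith
  · have h1 : |I1 * x| ≤ v * I0 ^ 2 / 2 := by
      rw [abs_mul]
      calc |I1| * |x| ≤ (Nr * I0) * (v * I0 / (2 * Nr)) :=
            mul_le_mul hI1 h.le (abs_nonneg _) (by positivity)
        _ = _ := by field_simp
    have h2 : v * I0 ^ 2 / 2 ≤ y * I0 := by
      rw [hyI]
      have := (abs_le.1 h1).1
      linarith
    have h3 : v * I0 / 2 ≤ y := by
      have h4 : (v * I0 / 2) * I0 ≤ y * I0 := by
        calc (v * I0 / 2) * I0 = v * I0 ^ 2 / 2 := by ring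
          _ ≤ _ := h2
      exact le_of_mul_le_mul_right h4 hI0
    have h4 : (v * I0 / 2) ^ 2 ≤ y ^ 2 := pow_le_pow_left₀ (by positivity) h3 2
    calc ε / (64 * Nr ^ 4) * v ^ 2 * I0 ^ 2 ≤ b / (64 * Nr ^ 4) * v ^ 2 * I0 ^ 2 := by gcongr
      _ = b / (16 * Nr ^ 4) * (v * I0 / 2) ^ 2 := by field_simp; ring
      _ ≤ b / (16 * Nr ^ 4) * y ^ 2 :=
          mul_le_mul_of_nonneg_left h4 (by have : 0 ≤ b := hε0.trans hεb
                                           positivity)
      _ ≤ _ := by have := sq_nonneg x; linarith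

end tor

end

end Pool.Agent.U508.YMF
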