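import Mathlib
import Pool.Agent.U508.YMF.Tor

/-!
# The lower bound of the correlation of two neighbouring plaquettes
-/

open MeasureTheory Matrix
open scoped Matrix.Norms.Frobenius
open Pool.Agent.H906R3.YM Pool.Agent.W793.YM

namespace Pool.Agent.U508.YMF

set_option linter.unusedSectionVars false

noncomputable section

variable {G : Type*} [Group G] [TopologicalSpace G] [IsTopologicalGroup G] [CompactSpace G]
  [SecondCountableTopology G] [MeasurableSpace G] [BorelSpace G] (μ : Measure G)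
  [IsProbabilityMeasure μ] [μ.IsMulLeftInvariant] [μ.IsMulRightInvariant] [μ.IsInvInvariant]
  {N n : ℕ} {L : LD G N n}

section gen

variable {E : Type*} [Fintype E] [DecidableEq E] (S : Refl E)

lemma B_smul_left (β c : ℝ) (f g : (E → G) → ℝ) :
    S.B μ L β (fun U => c * f U) g = c * S.B μ L β f g := by
  unfold Refl.B
  rw [← integral_const_mul]
  refine integral_congr_ae (Filter.Eventually.of_forall fun U => ?_)
  simp only
  ring

lemma B_add_left (β : ℝ) {f f' g : (E → G) → ℝ} (hf : Continuous f) (hf' : Continuous f')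
    (hg : Continuous g) :
    S.B μ L β (fun U => f U + f' U) g = S.B μ L β f g + S.B μ L β f' g := by
  unfold Refl.B
  rw [← integral_add (integrable_cont μ (B_cont S hf hg β))
    (integrable_cont μ (B_cont S hf' hg β))]
  refine integral_congr_ae (Filter.Eventually.of_forall fun U => ?_)
  simp only
  ring

lemma B_mono_left (β : ℝ) {f f' g : (E → G) → ℝ} (hf : Continuous f) (hf' : Continuous f')
    (hg : Continuous g) (hg0 : ∀ U, 0 ≤ g U) (h : ∀ U, f U ≤ f' U) :
    S.B μ L β f g ≤ S.B μ L β f' g := by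
  unfold Refl.B
  refine integral_mono (integrable_cont μ (B_cont S hf hg β))
    (integrable_cont μ (B_cont S hf' hg β)) fun U => ?_
  exact mul_le_mul_of_nonneg_right (mul_le_mul_of_nonneg_right (h U) (hg0 _)) (Real.exp_pos _).le

lemma sk_le (T : Refl E) (e : E) (U : E → G) : sk L T e U ≤ N := by
  unfold sk
  rw [← L.rho_inv, ← map_mul]
  exact (le_abs_self _).trans (rt_abs _)

/-- the interaction of one link changes the form by a bounded factor -/
lemma B_del_le (T : Refl E) {e : E} (he : e ∈ T.J) {w : (E → G) → ℝ} (hw : Continuous w)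
    (hw0 : ∀ U, 0 ≤ w U) {β : ℝ} (hβ : 0 ≤ β) :
    T.B μ L β w w ≤ Real.exp (β * N) * (del T e).B μ L β w w := by
  unfold Refl.B
  rw [← integral_const_mul]
  refine integral_mono (integrable_cont μ (B_cont T hw hw β))
    (integrable_cont μ (continuous_const.mul (B_cont (del T e) hw hw β))) fun U => ?_
  show w U * w (T.tU U) * Real.exp (β * T.ker L U) ≤
    Real.exp (β * N) * (w U * w (T.tU U) * Real.exp (β * (del T e).ker L U))
  rw [ker_del T he, mul_add, Real.exp_add]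
  have h1 : Real.exp (β * sk L T e U) ≤ Real.exp (β * N) :=
    Real.exp_le_exp.2 (mul_le_mul_of_nonneg_left (sk_le T e U) hβ)
  have h2 : 0 ≤ w U * w (T.tU U) * Real.exp (β * (del T e).ker L U) :=
    mul_nonneg (mul_nonneg (hw0 _) (hw0 _)) (Real.exp_pos _).le
  calc _ = Real.exp (β * sk L T e U) *
        (w U * w (T.tU U) * Real.exp (β * (del T e).ker L U)) := by ring
    _ ≤ _ := mul_le_mul_of_nonneg_right h1 h2

end gen

section tor

variable {d m : ℕ} [NeZero m] {τ i j : Fin d}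

/-- the lower bound -/
def c0 (N d : ℕ) (β : ℝ) : ℝ :=
  min 1 (β ^ 4) * Real.exp (-((32 * d + 4) * N * β)) / (256 * (N : ℝ) ^ 4)

lemma c0_nonneg (N d : ℕ) (β : ℝ) : 0 ≤ c0 N d β := by
  unfold c0
  have : 0 ≤ min 1 (β ^ 4) := le_min zero_le_one (by positivity)
  positivity

lemma c0_pos {N d : ℕ} (hN : 1 ≤ N) {β : ℝ} (hβ : 0 < β) : 0 < c0 N d β := by
  unfold c0
  have : 0 < min 1 (β ^ 4) := lt_min zero_lt_one (by positivity)
  have hN' : (0 : ℝ) < N := by exact_mod_cast hN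
  positivity

theorem plq_low [μ.IsOpenPosMeasure] (hm : 2 ≤ m) (hi : i ≠ τ) (hj : j ≠ τ) (hij : i ≠ j)
    (hne : ∃ g : G, L.rho g ≠ 1) (hN : 1 ≤ N) {β : ℝ} (hβ : 0 ≤ β) (z : ℝ) :
    c0 N d β * Zt μ L β (fun _ : Ed d (2 * m) → G => 1) ≤
      cor μ L β τ (fun U : Ed d (2 * m) → G => rtr L (plqT U 0 i j) - z) 1 := by
  have : Fact (1 < 2 * m) := ⟨by omega⟩
  have heT : ∀ k : Fin d, (eT k : Fin d → ZMod (2 * m)) ≠ 0 := by
    intro k h
    have := congrFun h k
    simp [eT] at this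
  obtain ⟨c, hc0, hZ1, hcor⟩ := half μ (L := L) (τ := τ) (d := d) hm β
  obtain ⟨T, hT⟩ : ∃ T, T = TR (d := d) hm τ := ⟨_, rfl⟩
  obtain ⟨w, hw⟩ : ∃ w : (Ed d (2 * m) → G) → ℝ, w = (wR L β m τ).1 := ⟨_, rfl⟩
  have hwc : Continuous w := by rw [hw]; exact Sm_cont _
  have hwd : Dep T.R w := by rw [hw, hT]; exact wR_dep hm β τ
  have hwp : ∀ U, 0 < w U := fun U => by rw [hw, wR_apply]; exact Real.exp_pos _
  have hw0 : ∀ U, 0 ≤ w U := fun U => (hwp U).le
  obtain ⟨F, hF⟩ : ∃ F : (Ed d (2 * m) → G) → ℝ, F = fun U => rtr L (plqT U (eT τ) i j) :=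
    ⟨_, rfl⟩
  have hFc : Continuous F := by rw [hF]; exact plq_cont _ _ _
  have hFabs : ∀ U, |F U| ≤ N := fun U => by rw [hF]; exact rtr_abs _
  obtain ⟨e1, he1⟩ : ∃ e : Ed d (2 * m), e = (eT τ, i) := ⟨_, rfl⟩
  obtain ⟨e2, he2⟩ : ∃ e : Ed d (2 * m), e = (eT τ + eT i, j) := ⟨_, rfl⟩
  obtain ⟨e3, he3⟩ : ∃ e : Ed d (2 * m), e = (eT τ + eT j, i) := ⟨_, rfl⟩
  obtain ⟨e4, he4⟩ : ∃ e : Ed d (2 * m), e = (eT τ, j) := ⟨_, rfl⟩
  have hmem : ∀ (x : Fin d → ZMod (2 * m)) (k : Fin d), k ≠ τ → x τ = 1 → (x, k) ∈ T.J := by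
    intro x k hk hx
    rw [hT]
    show _ ∈ Finset.univ.filter _
    rw [Finset.mem_filter]
    exact ⟨Finset.mem_univ _, hk, Or.inl hx⟩
  have hτ1 : (eT τ : Fin d → ZMod (2 * m)) τ = 1 := by simp [eT]
  have h1 : e1 ∈ T.J := by rw [he1]; exact hmem _ _ hi hτ1
  have h2 : e2 ∈ T.J := by rw [he2]; exact hmem _ _ hj (by rw [add_ne _ hi]; exact hτ1)
  have h3 : e3 ∈ T.J := by rw [he3]; exact hmem _ _ hi (by rw [add_ne _ hj]; exact hτ1)
  have h4 : e4 ∈ T.J := by rw [he4]; exact hmem _ _ hj hτ1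
  have h12 : e2 ≠ e1 := by rw [he1, he2]; exact fun h => hij (congrArg Prod.snd h).symm
  have h13 : e3 ≠ e1 := by
    rw [he1, he3]; exact fun h => heT j (by simpa using congrArg Prod.fst h)
  have h14 : e4 ≠ e1 := by rw [he1, he4]; exact fun h => hij (congrArg Prod.snd h).symm
  have h23 : e3 ≠ e2 := by rw [he2, he3]; exact fun h => hij (congrArg Prod.snd h)
  have h24 : e4 ≠ e2 := by
    rw [he2, he4]; exact fun h => heT i (by simpa using (congrArg Prod.fst h).symm)
  have h34 : e4 ≠ e3 := by rw [he3, he4]; exact fun h => hij (congrArg Prod.snd h).symm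
  have hexp : ∀ U, F U = ∑ q : Q4 N, kp q.2 * (c1 L e1 (m1 q) U * c1 L e2 (m2 q) U *
      c1 L e3 (m3 q) U * c1 L e4 (m4 q) U) := fun U => by
    rw [hF, he1, he2, he3, he4]; exact plq_four U _ _ _
  obtain ⟨Λ, hΛ⟩ : ∃ Λ : Finset (Ed d (2 * m)), Λ = {e1, e2, e3, e4} := ⟨_, rfl⟩
  have hΛe : ∀ e, e ∈ Λ ↔ e = e1 ∨ e = e2 ∨ e = e3 ∨ e = e4 := fun e => by
    rw [hΛ]; simp
  have hΛJ : ∀ e ∈ Λ, e ∈ T.J := fun e he => by
    rcases (hΛe e).1 he with h | h | h | h <;> rw [h] <;> assumption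
  have hΛτ : ∀ e ∈ Λ, e.2 ≠ τ := fun e he => by
    have h5 := hΛJ e he
    rw [hT] at h5
    have h6 : e ∈ Finset.univ.filter (fun e : Ed d (2 * m) =>
      e.2 ≠ τ ∧ (e.1 τ = 1 ∨ e.1 τ = (m : ZMod (2 * m)))) := h5
    rw [Finset.mem_filter] at h6
    exact h6.2.1
  have hΛR : ∀ e ∈ Λ, T.R e := fun e he => T.J_R e (hΛJ e he)
  have hFd : Dep (fun e => e ∈ Λ) F := by
    intro U U' h
    have a1 := h e1 ((hΛe _).2 (Or.inl rfl))
    have a2 := h e2 ((hΛe _).2 (Or.inr (Or.inl rfl)))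
    have a3 := h e3 ((hΛe _).2 (Or.inr (Or.inr (Or.inl rfl))))
    have a4 := h e4 ((hΛe _).2 (Or.inr (Or.inr (Or.inr rfl))))
    rw [he1] at a1
    rw [he2] at a2
    rw [he3] at a3
    rw [he4] at a4
    rw [hF]
    simp only [plqT, a1, a2, a3, a4]
  have hFR : Dep T.R F := fun U U' h => hFd U U' fun e he => h e (hΛR e he)
  obtain ⟨S, hS⟩ : ∃ S, S = del4 T e1 e2 e3 e4 := ⟨_, rfl⟩
  have hSR : S.R = T.R := by rw [hS]; rfl
  have hSJ : ∀ e ∈ S.J, e ∉ Λ := by
    intro e he hcon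
    rw [hS] at he
    have h5 : e ∈ (((T.J.erase e1).erase e2).erase e3).erase e4 := he
    simp only [Finset.mem_erase] at h5
    rcases (hΛe e).1 hcon with h | h | h | h
    · exact h5.2.2.2.1 h
    · exact h5.2.2.1 h
    · exact h5.2.1 h
    · exact h5.1 h
  -- the three integrals
  obtain ⟨I0, hI0⟩ : ∃ I, I = S.B μ L β w w := ⟨_, rfl⟩
  obtain ⟨I1, hI1⟩ : ∃ I, I = S.B μ L β (fun U => F U * w U) w := ⟨_, rfl⟩
  obtain ⟨I2, hI2⟩ : ∃ I, I = S.B μ L β (fun U => F U ^ 2 * w U) w := ⟨_, rfl⟩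
  have hI0p : 0 < I0 := by
    rw [hI0]
    unfold Refl.B
    have hpos : ∀ U, 0 < w U * w (S.tU U) * Real.exp (β * S.ker L U) := fun U =>
      mul_pos (mul_pos (hwp _) (hwp _)) (Real.exp_pos _)
    rw [integral_pos_iff_support_of_nonneg (fun U => (hpos U).le)
      (integrable_cont μ (B_cont S hwc hwc β))]
    have : Function.support (fun U => w U * w (S.tU U) * Real.exp (β * S.ker L U)) =
        Set.univ := by
      ext U
      simp only [Function.mem_support, Set.mem_univ, iff_true]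
      exact (hpos U).ne'
    rw [this]
    simp
  have c1' : Continuous fun U => F U * w U := hFc.mul hwc
  have c2' : Continuous fun U => F U ^ 2 * w U := (hFc.pow 2).mul hwc
  have hI1le : |I1| ≤ N * I0 := by
    have a1 : S.B μ L β (fun U => F U * w U) w ≤ S.B μ L β (fun U => N * w U) w :=
      B_mono_left μ S β c1' (continuous_const.mul hwc) hwc hw0 fun U =>
        mul_le_mul_of_nonneg_right ((le_abs_self _).trans (hFabs U)) (hw0 U)
    have a2 : S.B μ L β (fun U => (-N) * w U) w ≤ S.B μ L β (fun U => F U * w U) w :=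
      B_mono_left μ S β (continuous_const.mul hwc) c1' hwc hw0 fun U =>
        mul_le_mul_of_nonneg_right (abs_le.1 (hFabs U)).1 (hw0 U)
    rw [B_smul_left] at a1 a2
    rw [abs_le, hI1, hI0]
    constructor <;> linarith
  -- the variance
  obtain ⟨v, hv⟩ : ∃ v : ℝ, v = Real.exp (-(16 * d * N * β)) / 2 := ⟨_, rfl⟩
  have hv0 : 0 ≤ v := by rw [hv]; positivity
  have hquad : ∀ x : ℝ, S.B μ L β (fun U => (F U - x) ^ 2 * w U) w =
      I2 - 2 * x * I1 + x ^ 2 * I0 := by
    intro x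
    have a1 : (fun U => (F U - x) ^ 2 * w U) =
        fun U => (F U ^ 2 * w U + (-(2 * x)) * (F U * w U)) + x ^ 2 * w U := by
      funext U; ring
    have c3 : Continuous fun U => (-(2 * x)) * (F U * w U) := continuous_const.mul c1'
    have c4 : Continuous fun U => F U ^ 2 * w U + (-(2 * x)) * (F U * w U) := c2'.add c3
    have c5 : Continuous fun U => x ^ 2 * w U := continuous_const.mul hwc
    rw [a1, B_add_left μ S β c4 c5 hwc, B_add_left μ S β c2' c3 hwc,
      B_smul_left, B_smul_left, ← hI0, ← hI1, ← hI2]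
    ring
  have hvar : v * I0 ^ 2 ≤ I2 * I0 - I1 ^ 2 := by
    obtain ⟨x, hx⟩ : ∃ x, x = I1 / I0 := ⟨_, rfl⟩
    have cA : Continuous fun U => (F U - x) ^ 2 := (hFc.sub continuous_const).pow 2
    have b1 := dens μ (L := L) (τ := τ) (S := S) hm hΛτ (fun e he => by rw [← hT]; exact hΛR e he)
      (by rw [hSR, hT]) hSJ hβ (A := fun U => (F U - x) ^ 2) cA (fun U => sq_nonneg _)
      (fun U U' h => by
        show (F U - x) ^ 2 = (F U' - x) ^ 2
        rw [hFd U U' h])
    rw [← hw, ← hI0, hquad] at b1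
    have b2 : 1 / 2 ≤ ∫ U, (F U - x) ^ 2 ∂(ME μ (Ed d (2 * m))) := by
      rw [hF]
      have b3 := integral_plq μ (l := 2 * m) (by omega) (eT τ) hij (ψ := fun g => (rtr L g - x) ^ 2)
        ((rtr_cont.sub continuous_const).pow 2)
      rw [b3]
      exact var_trace μ L.cont L.unit hne x
    have b4 : v ≤ Real.exp (-(β * (4 * d * N * Λ.card))) *
        (∫ U, (F U - x) ^ 2 ∂(ME μ (Ed d (2 * m)))) := by
      have b5 : Real.exp (-(16 * d * N * β)) ≤ Real.exp (-(β * (4 * d * N * Λ.card))) := by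
        refine Real.exp_le_exp.2 (neg_le_neg ?_)
        have b6 : (Λ.card : ℝ) ≤ 4 := by
          rw [hΛ]
          exact_mod_cast Finset.card_le_four
        calc β * (4 * d * N * Λ.card) ≤ β * (4 * d * N * 4) := by gcongr
          _ = _ := by ring
      rw [hv]
      calc Real.exp (-(16 * d * N * β)) / 2 = Real.exp (-(16 * d * N * β)) * (1 / 2) := by ring
        _ ≤ _ := mul_le_mul b5 b2 (by norm_num) (Real.exp_pos _).le
    have b7 : v * I0 ≤ I2 - 2 * x * I1 + x ^ 2 * I0 :=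
      (mul_le_mul_of_nonneg_right b4 hI0p.le).trans b1
    have b8 : (I2 - 2 * x * I1 + x ^ 2 * I0) * I0 = I2 * I0 - I1 ^ 2 := by
      rw [hx]; field_simp; ring
    rw [← b8]
    calc v * I0 ^ 2 = (v * I0) * I0 := by ring
      _ ≤ _ := mul_le_mul_of_nonneg_right b7 hI0p.le
  -- the main inequality
  obtain ⟨f, hf⟩ : ∃ f : (Ed d (2 * m) → G) → ℝ, f = fun U => (F U - z) * w U := ⟨_, rfl⟩
  have hfc : Continuous f := by rw [hf]; exact (hFc.sub continuous_const).mul hwc
  have hfd : Dep T.R f := by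
    rw [hf]
    refine mul_dep (fun U U' h => ?_) hwd
    show F U - z = F U' - z
    rw [hFR U U' h]
  have main := core_ineq μ T (L := L) h1 h2 h3 h4 h12 h13 h14 h23 h24 h34 hfc hfd hwc hwd hexp hβ hN
  rw [← hS, ← hI0] at main
  have g1 : S.B μ L β f w = I1 - z * I0 := by
    have a1 : f = fun U => F U * w U + (-z) * w U := by rw [hf]; funext U; ring
    have c5 : Continuous fun U => (-z) * w U := continuous_const.mul hwc
    rw [a1, B_add_left μ S β c1' c5 hwc, B_smul_left, ← hI0, ← hI1]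
    ring
  have g2 : S.B μ L β (fun U => f U * F U) w = I2 - z * I1 := by
    have a1 : (fun U => f U * F U) = fun U => F U ^ 2 * w U + (-z) * (F U * w U) := by
      rw [hf]; funext U; ring
    have c5 : Continuous fun U => (-z) * (F U * w U) := continuous_const.mul c1'
    rw [a1, B_add_left μ S β c2' c5 hwc, B_smul_left, ← hI2, ← hI1]
    ring
  rw [g1, g2] at main
  obtain ⟨ε, hε⟩ : ∃ ε : ℝ, ε = min 1 (β ^ 4) := ⟨_, rfl⟩
  have hε0 : 0 ≤ ε := by rw [hε]; exact le_min zero_le_one (by positivity)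
  have hN' : (1 : ℝ) ≤ N := by exact_mod_cast hN
  have main2 := (alg (z := z) hε0 (by rw [hε]; exact min_le_left _ _)
    (b := β ^ 4) (by rw [hε]; exact min_le_right _ _) hN' hv0 hI0p hI1le hvar).trans main
  have main3 : ε / (64 * (N : ℝ) ^ 4) * v ^ 2 * I0 ≤ T.B μ L β f f := by
    have a1 : I0 * (ε / (64 * (N : ℝ) ^ 4) * v ^ 2 * I0) ≤ I0 * T.B μ L β f f := by
      calc _ = ε / (64 * (N : ℝ) ^ 4) * v ^ 2 * I0 ^ 2 := by ring
        _ ≤ _ := main2
    exact le_of_mul_le_mul_left a1 hI0p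
  -- the normalisation
  have hZ : T.B μ L β w w ≤ Real.exp (4 * N * β) * I0 := by
    have k2 : e2 ∈ (del T e1).J := Finset.mem_erase.2 ⟨h12, h2⟩
    have k3 : e3 ∈ (del (del T e1) e2).J := Finset.mem_erase.2 ⟨h23, Finset.mem_erase.2 ⟨h13, h3⟩⟩
    have k4 : e4 ∈ (del (del (del T e1) e2) e3).J :=
      Finset.mem_erase.2 ⟨h34, Finset.mem_erase.2 ⟨h24, Finset.mem_erase.2 ⟨h14, h4⟩⟩⟩
    have s1 := B_del_le μ (L := L) T h1 hwc hw0 hβ
    have s2 := B_del_le μ (L := L) (del T e1) k2 hwc hw0 hβ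
    have s3 := B_del_le μ (L := L) (del (del T e1) e2) k3 hwc hw0 hβ
    have s4 := B_del_le μ (L := L) (del (del (del T e1) e2) e3) k4 hwc hw0 hβ
    have hx : Real.exp (4 * N * β) = Real.exp (β * N) * (Real.exp (β * N) *
        (Real.exp (β * N) * Real.exp (β * N))) := by
      rw [← Real.exp_add, ← Real.exp_add, ← Real.exp_add]; congr 1; ring
    have hp := (Real.exp_pos (β * N)).le
    have hS' : I0 = (del (del (del (del T e1) e2) e3) e4).B μ L β w w := by rw [hI0, hS]; rfl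
    rw [hx, hS']
    calc _ ≤ _ := s1
      _ ≤ _ := mul_le_mul_of_nonneg_left s2 hp
      _ ≤ _ := mul_le_mul_of_nonneg_left (mul_le_mul_of_nonneg_left s3 hp) hp
      _ ≤ _ := mul_le_mul_of_nonneg_left (mul_le_mul_of_nonneg_left
        (mul_le_mul_of_nonneg_left s4 hp) hp) hp
      _ = _ := by ring
  -- conclusion
  have hcorr := hcor (fun U : Ed d (2 * m) → G => rtr L (plqT U 0 i j) - z)
    ((plq_cont _ _ _).sub continuous_const)
    (fun γ U => by
      show rtr L (plqT (gt γ U) 0 i j) - z = _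
      rw [plqT_gt, rtr_conj])
    (fun U U' h => by
      have e : ∀ k : Fin d, k ≠ τ → (0 + eT k : Fin d → ZMod (2 * m)) τ = 0 := fun k hk => by
        rw [add_ne _ hk]; rfl
      show rtr L (plqT U 0 i j) - z = rtr L (plqT U' 0 i j) - z
      rw [plqT_congr (h _ _ rfl hi) (h _ _ (e i hi) hj) (h _ _ (e j hj) hi) (h _ _ rfl hj)])
  have hshift : (fun U : Ed d (2 * m) → G =>
      (rtr L (plqT (tr (sv τ 1) U) 0 i j) - z) * (wR L β m τ).1 U) = f := by
    funext U
    rw [hf, hF, hw, plqT_tr, sv_one, zero_add]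
  rw [hshift, ← hT] at hcorr
  rw [hcorr, hZ1, ← hT, ← hw]
  have hfin : c0 N d β * T.B μ L β w w ≤ T.B μ L β f f := by
    refine le_trans ?_ main3
    calc c0 N d β * T.B μ L β w w ≤ c0 N d β * (Real.exp (4 * N * β) * I0) :=
          mul_le_mul_of_nonneg_left hZ (c0_nonneg _ _ _)
      _ = ε / (64 * (N : ℝ) ^ 4) * v ^ 2 * I0 := by
          unfold c0
          have hx : v ^ 2 = Real.exp (-((32 * d + 4) * N * β)) * Real.exp (4 * N * β) / 4 := by
            rw [hv, div_pow, ← Real.exp_nat_mul, ← Real.exp_add]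
            congr 1
            · congr 1; push_cast; ring
            · norm_num
          rw [hx, hε]
          ring
  calc c0 N d β * (c * T.B μ L β w w) = c * (c0 N d β * T.B μ L β w w) := by ring
    _ ≤ _ := mul_le_mul_of_nonneg_left hfin hc0.le

end tor

end

end Pool.Agent.U508.YMF
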