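import Mathlib
import Pool.Agent.H906R3.YM.Conc
import Pool.Agent.W793.YM.Inf
import Pool.Agent.U508.YMF.Low
import Pool.Agent.U508.YMF.Conv
import Pool.Agent.U508.YMF.Defs

/-!
# The time correlations of the plaquette on the torus
-/

open MeasureTheory Matrix
open scoped Matrix.Norms.Frobenius
open Pool.Agent.H906R3.YM hiding Pl
open Pool.Agent.W793.YM

namespace Pool.Agent.U508.YMF

set_option linter.unusedSectionVars false

noncomputable section

variable {G : Type*} [Group G] [TopologicalSpace G] [IsTopologicalGroup G] [CompactSpace G]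
  [SecondCountableTopology G] [MeasurableSpace G] [BorelSpace G] (μ : Measure G)
  [IsProbabilityMeasure μ] [μ.IsMulLeftInvariant] [μ.IsMulRightInvariant] [μ.IsInvInvariant]
  {N n : ℕ} {L : LD G N n} {d m : ℕ} [NeZero m] {τ i j : Fin d}

variable (L) in
/-- the truncated correlation -/
def tc {l : ℕ} [NeZero l] (β : ℝ) (τ : Fin d) (F : (Ed d l → G) → ℝ) (t : ZMod l) : ℝ :=
  Zt μ L β (fun U => F U * F (tr (sv τ t) U)) / Zt μ L β (fun _ : Ed d l → G => 1) -
    (Zt μ L β F / Zt μ L β (fun _ : Ed d l → G => 1)) ^ 2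

/-- subtraction of the mean -/
lemma tc_eq {l : ℕ} [NeZero l] (β : ℝ) {F : (Ed d l → G) → ℝ} (hF : Continuous F) (t : ZMod l) :
    tc μ L β τ F t * Zt μ L β (fun _ : Ed d l → G => 1) =
      cor μ L β τ (fun U => F U - Zt μ L β F / Zt μ L β (fun _ : Ed d l → G => 1)) t := by
  obtain ⟨Z, hZ⟩ : ∃ Z, Z = Zt μ L β (fun _ : Ed d l → G => 1) := ⟨_, rfl⟩
  have hZ0 : 0 < Z := by rw [hZ]; exact Zt_pos μ β
  obtain ⟨z, hz⟩ : ∃ z, z = Zt μ L β F / Z := ⟨_, rfl⟩
  have hzZ : Zt μ L β F = z * Z := by rw [hz]; field_simp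
  unfold tc cor
  rw [← hZ, ← hz]
  have c1 : Continuous fun U => F (tr (sv τ t) U) := hF.comp (tr_cont _)
  have h1 : (fun U => (F U - z) * (F (tr (sv τ t) U) - z)) = fun U =>
      (F U * F (tr (sv τ t) U) + ((-z) * F U + (-z) * F (tr (sv τ t) U))) + z ^ 2 * 1 := by
    funext U; ring
  have c2 : Continuous fun U => F U * F (tr (sv τ t) U) := hF.mul c1
  have c3 : Continuous fun U => (-z) * F U := continuous_const.mul hF
  have c4 : Continuous fun U => (-z) * F (tr (sv τ t) U) := continuous_const.mul c1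
  have c5 : Continuous fun U => (-z) * F U + (-z) * F (tr (sv τ t) U) := c3.add c4
  have c6 : Continuous fun U => F U * F (tr (sv τ t) U) +
      ((-z) * F U + (-z) * F (tr (sv τ t) U)) := c2.add c5
  have c7 : Continuous fun _ : Ed d l → G => z ^ 2 * (1 : ℝ) := continuous_const
  rw [h1, Zt_add μ c6 c7, Zt_add μ c2 c5, Zt_add μ c3 c4, Zt_smul, Zt_smul, Zt_smul,
    Zt_tr μ β _ F, hzZ, ← hZ]
  field_simp
  ring

/-- the correlation at time `1` is at most the one at time `0` -/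
lemma cor_one_le {l : ℕ} [NeZero l] (β : ℝ) {F : (Ed d l → G) → ℝ} (hF : Continuous F)
    (t : ZMod l) : cor μ L β τ F t ≤ cor μ L β τ F 0 := by
  rw [cor_diff μ β hF, cor_zero]
  have h1 : 0 ≤ Zt μ L β (fun U => (F (tr (sv τ t) U) - F U) ^ 2) :=
    Zt_nonneg μ fun U => sq_nonneg _
  linarith

lemma plq_GI {l : ℕ} [NeZero l] (x : Fin d → ZMod l) (i j : Fin d) :
    GI fun U : Ed d l → G => rtr L (plqT U x i j) := fun γ U => by
  show rtr L (plqT (gt γ U) x i j) = _
  rw [plqT_gt, rtr_conj]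

lemma plq_Sp {l : ℕ} (hi : i ≠ τ) (hj : j ≠ τ) :
    Sp τ fun U : Ed d l → G => rtr L (plqT U 0 i j) := fun U U' h => by
  have e : ∀ k : Fin d, k ≠ τ → (0 + eT k : Fin d → ZMod l) τ = 0 := fun k hk => by
    rw [add_ne _ hk]; rfl
  show rtr L (plqT U 0 i j) = rtr L (plqT U' 0 i j)
  rw [plqT_congr (h _ _ rfl hi) (h _ _ (e i hi) hj) (h _ _ (e j hj) hi) (h _ _ rfl hj)]

lemma exp_mass {N d : ℕ} (hN : 1 ≤ N) {β : ℝ} (hβ : 0 < β) :
    Real.exp (-massBound N d β) * (N : ℝ) ^ 2 = c0 N d β := by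
  have hN' : (0 : ℝ) < N := by exact_mod_cast hN
  have h1 : Real.exp (-(4 * max 0 (Real.log (1 / β)))) = min 1 (β ^ 4) := by
    rcases le_total β 1 with h | h
    · have h2 : 0 ≤ Real.log (1 / β) := Real.log_nonneg (by rw [le_div_iff₀ hβ]; linarith)
      rw [max_eq_right h2, min_eq_right (pow_le_one₀ hβ.le h)]
      have h3 : -(4 * Real.log (1 / β)) = Real.log (β ^ 4) := by
        rw [Real.log_pow, one_div, Real.log_inv]; push_cast; ring
      rw [h3, Real.exp_log (by positivity)]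
    · have h2 : Real.log (1 / β) ≤ 0 := Real.log_nonpos (by positivity)
        (by rw [div_le_one hβ]; exact h)
      rw [max_eq_left h2, min_eq_left (one_le_pow₀ h)]
      simp
  unfold massBound c0
  rw [neg_add, neg_add, Real.exp_add, Real.exp_add, h1, Real.exp_neg (Real.log _),
    Real.exp_log (by positivity)]
  field_simp

/-- **The time correlations of the plaquette decay at most exponentially.** -/
theorem fin_plq [μ.IsOpenPosMeasure] (hm : 2 ≤ m) (hi : i ≠ τ) (hj : j ≠ τ) (hij : i ≠ j)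
    (hne : ∃ g : G, L.rho g ≠ 1) (hN : 1 ≤ N) {β : ℝ} (hβ : 0 < β) :
    Real.exp (-massBound N d β) ≤
      tc μ L β τ (fun U : Ed d (2 * m) → G => rtr L (plqT U 0 i j)) 0 ∧
    ∀ t : ℕ, t ≤ 2 * m → Real.exp (-(massBound N d β * t)) *
      tc μ L β τ (fun U : Ed d (2 * m) → G => rtr L (plqT U 0 i j)) 0 ≤
      tc μ L β τ (fun U : Ed d (2 * m) → G => rtr L (plqT U 0 i j)) (t : ZMod (2 * m)) := by
  obtain ⟨F, hF⟩ : ∃ F : (Ed d (2 * m) → G) → ℝ, F = fun U => rtr L (plqT U 0 i j) := ⟨_, rfl⟩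
  have hFc : Continuous F := by rw [hF]; exact plq_cont _ _ _
  have hFg : GI F := by rw [hF]; exact plq_GI _ _ _
  have hFs : Sp τ F := by rw [hF]; exact plq_Sp hi hj
  have hFabs : ∀ U, |F U| ≤ N := fun U => by rw [hF]; exact rtr_abs _
  rw [← hF]
  obtain ⟨Z, hZ⟩ : ∃ Z, Z = Zt μ L β (fun _ : Ed d (2 * m) → G => 1) := ⟨_, rfl⟩
  have hZ0 : 0 < Z := by rw [hZ]; exact Zt_pos μ β
  obtain ⟨z, hz⟩ : ∃ z, z = Zt μ L β F / Z := ⟨_, rfl⟩
  have htc : ∀ t : ZMod (2 * m), tc μ L β τ F t * Z = cor μ L β τ (fun U => F U - z) t :=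
    fun t => by rw [hz, hZ]; exact tc_eq μ β hFc t
  obtain ⟨f, hf⟩ : ∃ f : (Ed d (2 * m) → G) → ℝ, f = fun U => F U - z := ⟨_, rfl⟩
  have hfc : Continuous f := by rw [hf]; exact hFc.sub continuous_const
  have hfg : GI f := fun γ U => by
    rw [hf]
    show F (gt γ U) - z = F U - z
    rw [hFg γ U]
  have hfs : Sp τ f := fun U U' h => by
    rw [hf]
    show F U - z = F U' - z
    rw [hFs U U' h]
  rw [← hf] at htc
  have hlow := plq_low μ (L := L) (m := m) hm hi hj hij hne hN hβ.le z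
  have hFf : (fun U : Ed d (2 * m) → G => rtr L (plqT U 0 i j) - z) = f := by rw [hf, hF]
  rw [hFf, ← hZ] at hlow
  have hc0 := c0_pos (d := d) hN hβ
  have h10 := cor_one_le μ (L := L) (τ := τ) β hfc 1
  have hpos : 0 < cor μ L β τ f 0 := lt_of_lt_of_le (mul_pos hc0 hZ0) (hlow.trans h10)
  have hN' : (0 : ℝ) < N := by exact_mod_cast hN
  have hN1 : (1 : ℝ) ≤ N := by exact_mod_cast hN
  have hE := exp_mass (d := d) hN hβ
  have hup : cor μ L β τ f 0 ≤ (N : ℝ) ^ 2 * Z := by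
    rw [cor_zero]
    have h1 : (fun U => f U ^ 2) = fun U => (F U ^ 2 + (-(2 * z)) * F U) + z ^ 2 * 1 := by
      rw [hf]; funext U; ring
    have c1 : Continuous fun U => F U ^ 2 := hFc.pow 2
    have c2 : Continuous fun U => (-(2 * z)) * F U := continuous_const.mul hFc
    have c3 : Continuous fun U => F U ^ 2 + (-(2 * z)) * F U := c1.add c2
    have c4 : Continuous fun _ : Ed d (2 * m) → G => z ^ 2 * (1 : ℝ) := continuous_const
    rw [h1, Zt_add μ c3 c4, Zt_add μ c1 c2, Zt_smul, Zt_smul, ← hZ]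
    have hzZ : Zt μ L β F = z * Z := by rw [hz]; field_simp
    rw [hzZ]
    have h2 : Zt μ L β (fun U => F U ^ 2) ≤ (N : ℝ) ^ 2 * Z := by
      have h3 : Zt μ L β (fun U => F U ^ 2) ≤
          Zt μ L β (fun _ : Ed d (2 * m) → G => (N : ℝ) ^ 2 * 1) := by
        refine Zt_mono μ c1 continuous_const fun U => ?_
        rw [mul_one, ← sq_abs]
        exact pow_le_pow_left₀ (abs_nonneg _) (hFabs U) 2
      rw [Zt_smul, ← hZ] at h3
      exact h3
    nlinarith [mul_nonneg (sq_nonneg z) hZ0.le]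
  have hr1 : Real.exp (-massBound N d β) * cor μ L β τ f 0 ≤ cor μ L β τ f 1 := by
    calc _ ≤ Real.exp (-massBound N d β) * ((N : ℝ) ^ 2 * Z) :=
          mul_le_mul_of_nonneg_left hup (Real.exp_pos _).le
      _ = c0 N d β * Z := by rw [← hE]; ring
      _ ≤ _ := hlow
  have hdec := fun t (ht : t ≤ 2 * m) => decay μ (L := L) (τ := τ) hm hβ.le hfc hfg hfs
    (Real.exp_pos (-massBound N d β)) hpos hr1 (t := t) ht
  constructor
  · have h1 : Real.exp (-massBound N d β) * Z ≤ tc μ L β τ F 0 * Z := by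
      rw [htc]
      refine le_trans ?_ (hlow.trans h10)
      refine mul_le_mul_of_nonneg_right ?_ hZ0.le
      rw [← hE]
      exact le_mul_of_one_le_right (Real.exp_pos _).le (one_le_pow₀ hN1)
    exact le_of_mul_le_mul_right h1 hZ0
  · intro t ht
    have h1 := hdec t ht
    rw [← htc, ← htc, ← mul_assoc] at h1
    have h2 := le_of_mul_le_mul_right h1 hZ0
    have h3 : Real.exp (-(massBound N d β * t)) = Real.exp (-massBound N d β) ^ t := by
      rw [← Real.exp_nat_mul]; congr 1; ring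
    rw [h3]
    exact h2

end

end Pool.Agent.U508.YMF
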