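import Mathlib
import Pool.Agent.U508.YMF.Low

/-!
# Expansion of the reflection positive form in the interaction of several links
-/

open MeasureTheory Matrix
open scoped Matrix.Norms.Frobenius
open Pool.Agent.H906R3.YM Pool.Agent.W793.YM

namespace Pool.Agent.U508.YMF

set_option linter.unusedSectionVars false

noncomputable section

variable {E : Type*} [Fintype E] [DecidableEq E] {G : Type*} [Group G] [TopologicalSpace G]
  [IsTopologicalGroup G] [CompactSpace G] [SecondCountableTopology G] [MeasurableSpace G]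
  [BorelSpace G] (μ : Measure G) [IsProbabilityMeasure μ] [μ.IsMulLeftInvariant]
  [μ.IsMulRightInvariant] [μ.IsInvInvariant] {N n : ℕ} {L : LD G N n} (T : Refl E)

/-- the reflection without the interactions of the links in `Λ` -/
def delF (T : Refl E) (Λ : Finset E) : Refl E where
  R := T.R
  th := T.th
  iv := T.iv
  th_th := T.th_th
  th_R := T.th_R
  iv_th := T.iv_th
  J := T.J \ Λ
  J_R := fun x hx => T.J_R x (Finset.mem_sdiff.1 hx).1
  J_iv := fun x hx => T.J_iv x (Finset.mem_sdiff.1 hx).1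

variable (L) in
/-- the interaction of the links in `Λ` -/
def skF (T : Refl E) (Λ : Finset E) (U : E → G) : ℝ := ∑ e ∈ Λ, sk L T e U

lemma skF_cont (Λ : Finset E) : Continuous (skF L T Λ) :=
  continuous_finsetSum _ fun e _ => sk_cont (L := L) T e

lemma ker_delF {Λ : Finset E} (hΛ : Λ ⊆ T.J) (U : E → G) :
    T.ker L U = (delF T Λ).ker L U + skF L T Λ U := by
  have h1 : T.ker L U = ∑ x ∈ T.J, sk L T x U := rfl
  have h2 : (delF T Λ).ker L U = ∑ x ∈ T.J \ Λ, sk L T x U := rfl
  rw [h1, h2, skF, Finset.sum_sdiff hΛ]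

/-- words of coordinates of links -/
def pw (L : LD G N n) (w : List (E × Cx N)) (U : E → G) : ℝ :=
  (w.map fun p => c1 L p.1 p.2 U).prod

lemma pw_nil (U : E → G) : pw L ([] : List (E × Cx N)) U = 1 := rfl

lemma pw_cons (p : E × Cx N) (w : List (E × Cx N)) (U : E → G) :
    pw L (p :: w) U = c1 L p.1 p.2 U * pw L w U := by
  unfold pw; simp

lemma pw_cont (w : List (E × Cx N)) : Continuous (pw L w : (E → G) → ℝ) := by
  induction w with
  | nil => exact continuous_const
  | cons p w ih =>
    have h : (pw L (p :: w) : (E → G) → ℝ) = fun U => c1 L p.1 p.2 U * pw L w U := by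
      funext U; exact pw_cons p w U
    rw [h]
    exact (c1_cont p.1 p.2).mul ih

lemma pw_dep {p : E → Prop} {w : List (E × Cx N)} (h : ∀ q ∈ w, p q.1) :
    Dep p (pw L w : (E → G) → ℝ) := by
  intro U U' hU
  unfold pw c1
  refine congrArg List.prod (List.map_congr_left fun q hq => ?_)
  rw [hU _ (h q hq)]

/-- Positivity of the form with a power of the interaction, and a lower bound by one word. -/
lemma pow_lower {Λ : Finset E} (hΛ : Λ ⊆ T.J) {S : Refl E} (hSR : S.R = T.R)
    (hSU : ∀ U : E → G, S.tU U = T.tU U) {β : ℝ} (hβ : 0 ≤ β) (w : List (E × Cx N)) :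
    (∀ q ∈ w, q.1 ∈ Λ) → ∀ {f : (E → G) → ℝ}, Continuous f → Dep T.R f →
    S.B μ L β (fun U => f U * pw L w U) (fun U => f U * pw L w U) ≤
      ∫ U, f U * f (S.tU U) * Real.exp (β * S.ker L U) * skF L T Λ U ^ w.length ∂(ME μ E) := by
  -- the factorisation of the interaction
  have hsk : ∀ U : E → G, skF L T Λ U = ∑ p : {e // e ∈ Λ} × Cx N,
      c1 L p.1.1 p.2 U * c1 L p.1.1 p.2 (T.tU U) := by
    intro U
    unfold skF
    rw [Fintype.sum_prod_type, ← Finset.sum_coe_sort]
    refine Finset.sum_congr rfl fun e _ => ?_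
    have h1 : T.tU U e.1 = U (T.th e.1) := by
      unfold Refl.tU; rw [if_neg (T.J_iv e.1 (hΛ e.2))]
    unfold sk c1
    rw [← h1, ← sum_co_mul]
  have hc1d : ∀ (e : {e // e ∈ Λ}) (c : Cx N), Dep T.R (c1 L e.1 c) := fun e c =>
    c1_dep T (T.J_R e.1 (hΛ e.2)) c
  -- positivity
  have hpos : ∀ (k : ℕ) {f : (E → G) → ℝ}, Continuous f → Dep T.R f →
      0 ≤ ∫ U, f U * f (S.tU U) * Real.exp (β * S.ker L U) * skF L T Λ U ^ k ∂(ME μ E) := by
    intro k
    induction k with
    | zero =>
      intro f hf hd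
      simp only [pow_zero, mul_one]
      exact S.B_self μ hβ hf (by rw [hSR]; exact hd)
    | succ k ih =>
      intro f hf hd
      have h1 : ∀ U, f U * f (S.tU U) * Real.exp (β * S.ker L U) * skF L T Λ U ^ (k + 1) =
          ∑ p : {e // e ∈ Λ} × Cx N, (f U * c1 L p.1.1 p.2 U) *
            (f (S.tU U) * c1 L p.1.1 p.2 (S.tU U)) * Real.exp (β * S.ker L U) *
              skF L T Λ U ^ k := by
        intro U
        rw [pow_succ, hSU]
        nth_rewrite 2 [hsk]
        rw [Finset.mul_sum, Finset.mul_sum]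
        exact Finset.sum_congr rfl fun p _ => by ring
      simp only [h1]
      have hi : ∀ p ∈ (Finset.univ : Finset ({e // e ∈ Λ} × Cx N)), Integrable (fun U =>
          (f U * c1 L p.1.1 p.2 U) * (f (S.tU U) * c1 L p.1.1 p.2 (S.tU U)) *
            Real.exp (β * S.ker L U) * skF L T Λ U ^ k) (ME μ E) := fun p _ =>
        integrable_cont μ ((B_cont S (hf.mul (c1_cont _ _)) (hf.mul (c1_cont _ _)) β).mul
          ((skF_cont T Λ).pow k))
      rw [integral_finsetSum _ hi]
      exact Finset.sum_nonneg fun p _ => ih (hf.mul (c1_cont _ _)) (mul_dep hd (hc1d p.1 p.2))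
  induction w with
  | nil =>
    intro _ f hf hd
    simp only [pw_nil, mul_one, List.length_nil, pow_zero]
    exact le_rfl
  | cons q w ih =>
    intro hw f hf hd
    have hq : q.1 ∈ Λ := hw q (by simp)
    have h1 : ∀ U, f U * f (S.tU U) * Real.exp (β * S.ker L U) *
        skF L T Λ U ^ (q :: w).length =
          ∑ p : {e // e ∈ Λ} × Cx N, (f U * c1 L p.1.1 p.2 U) *
            (f (S.tU U) * c1 L p.1.1 p.2 (S.tU U)) * Real.exp (β * S.ker L U) *
              skF L T Λ U ^ w.length := by
      intro U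
      rw [List.length_cons, pow_succ, hSU]
      nth_rewrite 2 [hsk]
      rw [Finset.mul_sum, Finset.mul_sum]
      exact Finset.sum_congr rfl fun p _ => by ring
    simp only [h1]
    have hi : ∀ p ∈ (Finset.univ : Finset ({e // e ∈ Λ} × Cx N)), Integrable (fun U =>
        (f U * c1 L p.1.1 p.2 U) * (f (S.tU U) * c1 L p.1.1 p.2 (S.tU U)) *
          Real.exp (β * S.ker L U) * skF L T Λ U ^ w.length) (ME μ E) := fun p _ =>
      integrable_cont μ ((B_cont S (hf.mul (c1_cont _ _)) (hf.mul (c1_cont _ _)) β).mul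
        ((skF_cont T Λ).pow _))
    rw [integral_finsetSum _ hi]
    have h2 := ih (fun q' hq' => hw q' (by simp [hq'])) (f := fun U => f U * c1 L q.1 q.2 U)
      (hf.mul (c1_cont _ _)) (mul_dep hd (c1_dep T (T.J_R _ (hΛ hq)) q.2))
    have h3 : (fun U => f U * pw L (q :: w) U) = fun U => f U * c1 L q.1 q.2 U * pw L w U := by
      funext U; rw [pw_cons]; ring
    rw [h3]
    refine h2.trans ?_
    exact Finset.single_le_sum (f := fun p : {e // e ∈ Λ} × Cx N =>
      ∫ U, (f U * c1 L p.1.1 p.2 U) * (f (S.tU U) * c1 L p.1.1 p.2 (S.tU U)) *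
        Real.exp (β * S.ker L U) * skF L T Λ U ^ w.length ∂(ME μ E))
      (fun p _ => hpos _ (hf.mul (c1_cont _ _)) (mul_dep hd (hc1d p.1 p.2)))
      (Finset.mem_univ (⟨q.1, hq⟩, q.2))

/-- **Lower bound by one word of coordinates.** -/
theorem word_lower {Λ : Finset E} (hΛ : Λ ⊆ T.J) {β : ℝ} (hβ : 0 ≤ β) {w : List (E × Cx N)}
    (hw : ∀ q ∈ w, q.1 ∈ Λ) {f : (E → G) → ℝ} (hf : Continuous f) (hd : Dep T.R f) :
    β ^ w.length / (w.length.factorial : ℝ) *
      (delF T Λ).B μ L β (fun U => f U * pw L w U) (fun U => f U * pw L w U) ≤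
      T.B μ L β f f := by
  have h1 := hasSum_exp μ (a := fun U => f U * f ((delF T Λ).tU U) *
    Real.exp (β * (delF T Λ).ker L U)) (B_cont (delF T Λ) hf hf β) (skF_cont (L := L) T Λ) hβ
  have h2 : (∫ U, f U * f ((delF T Λ).tU U) * Real.exp (β * (delF T Λ).ker L U) *
      Real.exp (β * skF L T Λ U) ∂(ME μ E)) = T.B μ L β f f := by
    unfold Refl.B
    refine integral_congr_ae (Filter.Eventually.of_forall fun U => ?_)
    simp only
    rw [ker_delF T hΛ, mul_add, Real.exp_add]
    have h3 : (delF T Λ).tU U = T.tU U := rfl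
    rw [h3]
    ring
  rw [h2] at h1
  have h3 : ∀ k : ℕ, ∫ U, f U * f ((delF T Λ).tU U) * Real.exp (β * (delF T Λ).ker L U) *
      ((β * skF L T Λ U) ^ k / (k.factorial : ℝ)) ∂(ME μ E) = β ^ k / (k.factorial : ℝ) *
      ∫ U, f U * f ((delF T Λ).tU U) * Real.exp (β * (delF T Λ).ker L U) *
        skF L T Λ U ^ k ∂(ME μ E) := by
    intro k
    rw [← integral_const_mul]
    refine integral_congr_ae (Filter.Eventually.of_forall fun U => ?_)
    simp only
    rw [mul_pow]
    ring
  simp only [h3] at h1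
  have hdep : ∀ {v : List (E × Cx N)}, (∀ q ∈ v, q.1 ∈ Λ) → Dep T.R (pw L v : (E → G) → ℝ) :=
    fun hv => pw_dep fun q hq => T.J_R _ (hΛ (hv q hq))
  have hnn : ∀ k : ℕ, 0 ≤ β ^ k / (k.factorial : ℝ) *
      ∫ U, f U * f ((delF T Λ).tU U) * Real.exp (β * (delF T Λ).ker L U) *
        skF L T Λ U ^ k ∂(ME μ E) := by
    intro k
    refine mul_nonneg (by positivity) ?_
    rcases Λ.eq_empty_or_nonempty with h0 | ⟨e, he⟩
    · subst h0
      rcases Nat.eq_zero_or_pos k with hk | hk
      · subst hk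
        simp only [pow_zero, mul_one]
        exact (delF T ∅).B_self μ hβ hf hd
      · have : ∀ U : E → G, skF L T ∅ U = 0 := fun U => by unfold skF; simp
        simp [this, hk.ne']
    · rcases Nat.eq_zero_or_pos N with hN | hN
      · subst hN
        have : ∀ U : E → G, skF L T Λ U = 0 := fun U => by
          unfold skF sk
          refine Finset.sum_eq_zero fun e _ => ?_
          unfold Matrix.trace
          simp
        rcases Nat.eq_zero_or_pos k with hk | hk
        · subst hk
          simp only [pow_zero, mul_one]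
          exact (delF T Λ).B_self μ hβ hf hd
        · simp [this, hk.ne']
      · have h4 := pow_lower μ T (L := L) hΛ (S := delF T Λ) rfl (fun _ => rfl) hβ
          (List.replicate k (e, ((⟨0, hN⟩, ⟨0, hN⟩, true) : Cx N)))
          (fun q hq => by rw [List.eq_of_mem_replicate hq]; exact he) hf hd
        rw [List.length_replicate] at h4
        refine le_trans ?_ h4
        exact (delF T Λ).B_self μ hβ (hf.mul (pw_cont _)) (mul_dep hd (hdep
          (fun q hq => by rw [List.eq_of_mem_replicate hq]; exact he)))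
  have h5 := sum_le_hasSum {w.length} (fun k _ => hnn k) h1
  rw [Finset.sum_singleton] at h5
  refine le_trans (mul_le_mul_of_nonneg_left ?_ (by positivity)) h5
  exact pow_lower μ T (L := L) hΛ (S := delF T Λ) rfl (fun _ => rfl) hβ w hw hf hd

end

end Pool.Agent.U508.YMF
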