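import Mathlib
import Pool.Agent.U508.YMF.KerF
import Pool.Agent.U508.YMF.Fin

/-!
# The lower bound for general observables
-/

open MeasureTheory Matrix
open scoped Matrix.Norms.Frobenius
open Pool.Agent.H906R3.YM hiding Pl
open Pool.Agent.W793.YM

namespace Pool.Agent.U508.YMF

set_option linter.unusedSectionVars false

noncomputable section

variable {G : Type*} [Group G] [TopologicalSpace G] [IsTopologicalGroup G] [CompactSpace G]
  [SecondCountableTopology G] [MeasurableSpace G] [BorelSpace G] (μ : Measure G)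
  [IsProbabilityMeasure μ] [μ.IsMulLeftInvariant] [μ.IsMulRightInvariant] [μ.IsInvInvariant]
  {N n : ℕ} {L : LD G N n}

section gen

variable {E : Type*} [Fintype E] [DecidableEq E] (T : Refl E)

/-- the normalisation -/
lemma B_delF_le {Λ : Finset E} (hΛ : Λ ⊆ T.J) {w : (E → G) → ℝ} (hw : Continuous w)
    (hw0 : ∀ U, 0 ≤ w U) {β : ℝ} (hβ : 0 ≤ β) :
    T.B μ L β w w ≤ Real.exp (β * (N * Λ.card)) * (delF T Λ).B μ L β w w := by
  unfold Refl.B
  rw [← integral_const_mul]
  refine integral_mono (integrable_cont μ (B_cont T hw hw β))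
    (integrable_cont μ (continuous_const.mul (B_cont (delF T Λ) hw hw β))) fun U => ?_
  show w U * w (T.tU U) * Real.exp (β * T.ker L U) ≤
    Real.exp (β * (N * Λ.card)) * (w U * w (T.tU U) * Real.exp (β * (delF T Λ).ker L U))
  rw [ker_delF T hΛ, mul_add, Real.exp_add]
  have h0 : skF L T Λ U ≤ N * Λ.card := by
    unfold skF
    calc _ ≤ ∑ e ∈ Λ, (N : ℝ) := Finset.sum_le_sum fun e _ => sk_le T e U
      _ = _ := by rw [Finset.sum_const, nsmul_eq_mul]; ring
  have h1 : Real.exp (β * skF L T Λ U) ≤ Real.exp (β * (N * Λ.card)) :=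
    Real.exp_le_exp.2 (mul_le_mul_of_nonneg_left h0 hβ)
  have h2 : 0 ≤ w U * w (T.tU U) * Real.exp (β * (delF T Λ).ker L U) :=
    mul_nonneg (mul_nonneg (hw0 _) (hw0 _)) (Real.exp_pos _).le
  calc _ = Real.exp (β * skF L T Λ U) *
        (w U * w (T.tU U) * Real.exp (β * (delF T Λ).ker L U)) := by ring
    _ ≤ _ := mul_le_mul_of_nonneg_right h1 h2

/-- the algebra of the general lower bound -/
lemma alg2 {v I0 I1 I2 z B y X cP e : ℝ} (hv : 0 < v) (hI0 : 0 < I0) (hB : 0 < B)
    (hI1 : |I1| ≤ B * I0) (hvar : v * I0 ^ 2 ≤ I2 * I0 - I1 ^ 2)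
    (hX : (I1 - z * I0) ^ 2 ≤ I0 * X) (hcP : 0 ≤ cP) (hy : |y| ≤ cP * Real.sqrt (I0 * X))
    (hX0 : 0 ≤ X) (he : |y - (I2 - z * I1)| ≤ e * (2 * B * I0)) (he' : e * (8 * B) ≤ v) :
    min (v ^ 2 / (4 * B ^ 2)) (v ^ 2 / (16 * (cP + 1) ^ 2)) * I0 ≤ X := by
  obtain ⟨x, hx⟩ : ∃ x, x = I1 - z * I0 := ⟨_, rfl⟩
  obtain ⟨y', hy'⟩ : ∃ y', y' = I2 - z * I1 := ⟨_, rfl⟩
  rw [← hx] at hX
  rw [← hy'] at he
  have hyI : y' * I0 = (I2 * I0 - I1 ^ 2) + I1 * x := by rw [hx, hy']; ring
  rcases le_or_gt (v * I0 / (2 * B)) |x| with h | h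
  · have h1 : (v * I0 / (2 * B)) ^ 2 ≤ I0 * X := by
      refine le_trans ?_ hX
      rw [← sq_abs x]
      exact pow_le_pow_left₀ (by positivity) h 2
    have h2 : v ^ 2 / (4 * B ^ 2) * I0 ≤ X := by
      have h3 : I0 * (v ^ 2 / (4 * B ^ 2) * I0) ≤ I0 * X := by
        refine le_trans (le_of_eq ?_) h1
        field_simp; ring
      exact le_of_mul_le_mul_left h3 hI0
    exact (mul_le_mul_of_nonneg_right (min_le_left _ _) hI0.le).trans h2
  · have h1 : |I1 * x| ≤ v * I0 ^ 2 / 2 := by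
      rw [abs_mul]
      calc |I1| * |x| ≤ (B * I0) * (v * I0 / (2 * B)) :=
            mul_le_mul hI1 h.le (abs_nonneg _) (by positivity)
        _ = _ := by field_simp
    have h2 : v * I0 ^ 2 / 2 ≤ y' * I0 := by
      rw [hyI]
      have := (abs_le.1 h1).1
      linarith
    have h3 : v * I0 / 2 ≤ y' := by
      have h4 : (v * I0 / 2) * I0 ≤ y' * I0 := by
        calc (v * I0 / 2) * I0 = v * I0 ^ 2 / 2 := by ring
          _ ≤ _ := h2
      exact le_of_mul_le_mul_right h4 hI0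
    have h4 : v * I0 / 4 ≤ |y| := by
      have h5 := (abs_le.1 he).1
      have h6 : e * (2 * B * I0) ≤ v * I0 / 4 := by
        calc e * (2 * B * I0) = (e * (8 * B)) * (I0 / 4) := by ring
          _ ≤ v * (I0 / 4) := mul_le_mul_of_nonneg_right he' (by positivity)
          _ = _ := by ring
      have h7 := le_abs_self y
      linarith
    have h5 : (v * I0 / 4) ^ 2 ≤ (cP + 1) ^ 2 * (I0 * X) := by
      have h6 : v * I0 / 4 ≤ (cP + 1) * Real.sqrt (I0 * X) := by
        refine (h4.trans hy).trans ?_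
        exact mul_le_mul_of_nonneg_right (by linarith) (Real.sqrt_nonneg _)
      calc (v * I0 / 4) ^ 2 ≤ ((cP + 1) * Real.sqrt (I0 * X)) ^ 2 :=
            pow_le_pow_left₀ (by positivity) h6 2
        _ = _ := by rw [mul_pow, Real.sq_sqrt (by positivity)]
    have h6 : v ^ 2 / (16 * (cP + 1) ^ 2) * I0 ≤ X := by
      have h7 : ((cP + 1) ^ 2 * I0) * (v ^ 2 / (16 * (cP + 1) ^ 2) * I0) ≤
          ((cP + 1) ^ 2 * I0) * X := by
        have h8 : (0 : ℝ) < cP + 1 := by linarith
        calc _ = (v * I0 / 4) ^ 2 := by field_simp; ring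
          _ ≤ _ := h5
          _ = _ := by ring
      exact le_of_mul_le_mul_left h7 (by positivity)
    exact (mul_le_mul_of_nonneg_right (min_le_right _ _) hI0.le).trans h6

end gen

section tor

variable {d m : ℕ} [NeZero m] {τ : Fin d}

/-- a function of the links which can be handled with the constant `c` -/
def Good (μ : Measure G) [IsProbabilityMeasure μ] (L : LD G N n) {E : Type*} [Fintype E]
    [DecidableEq E] (T : Refl E) (Λ : Finset E) (β : ℝ) (w P : (E → G) → ℝ) (c : ℝ) : Prop :=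
  ∀ f : (E → G) → ℝ, Continuous f → Dep T.R f →
    |(delF T Λ).B μ L β (fun U => f U * P U) w| ≤
      c * Real.sqrt ((delF T Λ).B μ L β w w * T.B μ L β f f)

/-- **The lower bound for general observables.** -/
theorem gen_low (hm : 2 ≤ m) {Λ : Finset (Ed d (2 * m))} (hΛ : Λ ⊆ (TR hm τ).J) {β : ℝ}
    (hβ : 0 ≤ β) {F P : (Ed d (2 * m) → G) → ℝ} (hF : Continuous F) (hP : Continuous P)
    (hFd : Dep (fun e => e ∈ Λ) F) {B K v0 v cP e z : ℝ} (hB : 0 < B) (hFB : ∀ U, |F U| ≤ B)
    (hK : (Λ.card : ℝ) ≤ K) (hv0 : 0 < v0)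
    (hv : v = Real.exp (-(β * (4 * d * N * K))) * v0)
    (hvar : ∀ x : ℝ, v0 ≤ ∫ U, (F U - x) ^ 2 ∂(ME μ (Ed d (2 * m))))
    (hcP : 0 ≤ cP) (hgood : Good μ L (TR hm τ) Λ β (wR L β m τ).1 P cP)
    (hPF : ∀ U, |P U - F U| ≤ e) (he : e * (8 * B) ≤ v) (hz : |z| ≤ B) :
    min (v ^ 2 / (4 * B ^ 2)) (v ^ 2 / (16 * (cP + 1) ^ 2)) * Real.exp (-(β * (N * K))) *
      (TR hm τ).B μ L β (wR L β m τ).1 (wR L β m τ).1 ≤
      (TR hm τ).B μ L β (fun U => (F U - z) * (wR L β m τ).1 U)
        (fun U => (F U - z) * (wR L β m τ).1 U) := by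
  obtain ⟨T, hT⟩ : ∃ T, T = TR (d := d) hm τ := ⟨_, rfl⟩
  obtain ⟨w, hw⟩ : ∃ w : (Ed d (2 * m) → G) → ℝ, w = (wR L β m τ).1 := ⟨_, rfl⟩
  have hwc : Continuous w := by rw [hw]; exact Sm_cont _
  have hwd : Dep T.R w := by rw [hw, hT]; exact wR_dep hm β τ
  have hwp : ∀ U, 0 < w U := fun U => by rw [hw, wR_apply]; exact Real.exp_pos _
  have hw0 : ∀ U, 0 ≤ w U := fun U => (hwp U).le
  rw [← hT] at hΛ hgood ⊢
  rw [← hw] at hgood ⊢
  have hΛR : ∀ e ∈ Λ, T.R e := fun e he => T.J_R e (hΛ he)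
  have hΛτ : ∀ e ∈ Λ, e.2 ≠ τ := fun e he => by
    have h5 := hΛ he
    rw [hT] at h5
    have h6 : e ∈ Finset.univ.filter (fun e : Ed d (2 * m) =>
      e.2 ≠ τ ∧ (e.1 τ = 1 ∨ e.1 τ = (m : ZMod (2 * m)))) := h5
    rw [Finset.mem_filter] at h6
    exact h6.2.1
  have hFR : Dep T.R F := fun U U' h => hFd U U' fun e he => h e (hΛR e he)
  obtain ⟨S, hS⟩ : ∃ S, S = delF T Λ := ⟨_, rfl⟩
  have hSR : S.R = T.R := by rw [hS]; rfl
  have hSJ : ∀ e ∈ S.J, e ∉ Λ := by
    intro e he
    rw [hS] at he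
    exact (Finset.mem_sdiff.1 he).2
  have hgood' : ∀ f : (Ed d (2 * m) → G) → ℝ, Continuous f → Dep T.R f →
      |S.B μ L β (fun U => f U * P U) w| ≤
      cP * Real.sqrt (S.B μ L β w w * T.B μ L β f f) := by rw [hS]; exact hgood
  obtain ⟨I0, hI0⟩ : ∃ I, I = S.B μ L β w w := ⟨_, rfl⟩
  obtain ⟨I1, hI1⟩ : ∃ I, I = S.B μ L β (fun U => F U * w U) w := ⟨_, rfl⟩
  obtain ⟨I2, hI2⟩ : ∃ I, I = S.B μ L β (fun U => F U ^ 2 * w U) w := ⟨_, rfl⟩
  have hI0p : 0 < I0 := by
    rw [hI0]
    unfold Refl.B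
    have hpos : ∀ U, 0 < w U * w (S.tU U) * Real.exp (β * S.ker L U) := fun U =>
      mul_pos (mul_pos (hwp _) (hwp _)) (Real.exp_pos _)
    rw [integral_pos_iff_support_of_nonneg (fun U => (hpos U).le)
      (integrable_cont μ (B_cont S hwc hwc β))]
    have : Function.support (fun U => w U * w (S.tU U) * Real.exp (β * S.ker L U)) =
        Set.univ := by
      ext U
      simp only [Function.mem_support, Set.mem_univ, iff_true]
      exact (hpos U).ne'
    rw [this]
    simp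
  have c1' : Continuous fun U => F U * w U := hF.mul hwc
  have c2' : Continuous fun U => F U ^ 2 * w U := (hF.pow 2).mul hwc
  have hI1le : |I1| ≤ B * I0 := by
    have a1 : S.B μ L β (fun U => F U * w U) w ≤ S.B μ L β (fun U => B * w U) w :=
      B_mono_left μ S β c1' (continuous_const.mul hwc) hwc hw0 fun U =>
        mul_le_mul_of_nonneg_right ((le_abs_self _).trans (hFB U)) (hw0 U)
    have a2 : S.B μ L β (fun U => (-B) * w U) w ≤ S.B μ L β (fun U => F U * w U) w :=
      B_mono_left μ S β (continuous_const.mul hwc) c1' hwc hw0 fun U =>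
        mul_le_mul_of_nonneg_right (abs_le.1 (hFB U)).1 (hw0 U)
    rw [B_smul_left] at a1 a2
    rw [abs_le, hI1, hI0]
    constructor <;> linarith
  have hvp : 0 < v := by rw [hv]; positivity
  have hquad : ∀ x : ℝ, S.B μ L β (fun U => (F U - x) ^ 2 * w U) w =
      I2 - 2 * x * I1 + x ^ 2 * I0 := by
    intro x
    have a1 : (fun U => (F U - x) ^ 2 * w U) =
        fun U => (F U ^ 2 * w U + (-(2 * x)) * (F U * w U)) + x ^ 2 * w U := by
      funext U; ring
    have c3 : Continuous fun U => (-(2 * x)) * (F U * w U) := continuous_const.mul c1'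
    have c4 : Continuous fun U => F U ^ 2 * w U + (-(2 * x)) * (F U * w U) := c2'.add c3
    have c5 : Continuous fun U => x ^ 2 * w U := continuous_const.mul hwc
    rw [a1, B_add_left μ S β c4 c5 hwc, B_add_left μ S β c2' c3 hwc,
      B_smul_left, B_smul_left, ← hI0, ← hI1, ← hI2]
    ring
  have hvar' : v * I0 ^ 2 ≤ I2 * I0 - I1 ^ 2 := by
    obtain ⟨x, hx⟩ : ∃ x, x = I1 / I0 := ⟨_, rfl⟩
    have cA : Continuous fun U => (F U - x) ^ 2 := (hF.sub continuous_const).pow 2
    have b1 := dens μ (L := L) (τ := τ) (S := S) hm hΛτ (fun e he => by rw [← hT]; exact hΛR e he)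
      (by rw [hSR, hT]) hSJ hβ (A := fun U => (F U - x) ^ 2) cA (fun U => sq_nonneg _)
      (fun U U' h => by
        show (F U - x) ^ 2 = (F U' - x) ^ 2
        rw [hFd U U' h])
    rw [← hw, ← hI0, hquad] at b1
    have b4 : v ≤ Real.exp (-(β * (4 * d * N * Λ.card))) *
        (∫ U, (F U - x) ^ 2 ∂(ME μ (Ed d (2 * m)))) := by
      rw [hv]
      refine mul_le_mul ?_ (hvar x) hv0.le (Real.exp_pos _).le
      refine Real.exp_le_exp.2 (neg_le_neg ?_)
      gcongr
    have b7 : v * I0 ≤ I2 - 2 * x * I1 + x ^ 2 * I0 :=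
      (mul_le_mul_of_nonneg_right b4 hI0p.le).trans b1
    have b8 : (I2 - 2 * x * I1 + x ^ 2 * I0) * I0 = I2 * I0 - I1 ^ 2 := by
      rw [hx]; field_simp; ring
    rw [← b8]
    calc v * I0 ^ 2 = (v * I0) * I0 := by ring
      _ ≤ _ := mul_le_mul_of_nonneg_right b7 hI0p.le
  obtain ⟨f, hf⟩ : ∃ f : (Ed d (2 * m) → G) → ℝ, f = fun U => (F U - z) * w U := ⟨_, rfl⟩
  have hfc : Continuous f := by rw [hf]; exact (hF.sub continuous_const).mul hwc
  have hfd : Dep T.R f := by
    rw [hf]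
    refine mul_dep (fun U U' h => ?_) hwd
    show F U - z = F U' - z
    rw [hFR U U' h]
  have g1 : S.B μ L β f w = I1 - z * I0 := by
    have a1 : f = fun U => F U * w U + (-z) * w U := by rw [hf]; funext U; ring
    have c5 : Continuous fun U => (-z) * w U := continuous_const.mul hwc
    rw [a1, B_add_left μ S β c1' c5 hwc, B_smul_left, ← hI0, ← hI1]
    ring
  have g2 : S.B μ L β (fun U => f U * F U) w = I2 - z * I1 := by
    have a1 : (fun U => f U * F U) = fun U => F U ^ 2 * w U + (-z) * (F U * w U) := by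
      rw [hf]; funext U; ring
    have c5 : Continuous fun U => (-z) * (F U * w U) := continuous_const.mul c1'
    rw [a1, B_add_left μ S β c2' c5 hwc, B_smul_left, ← hI2, ← hI1]
    ring
  have hX0 : 0 ≤ T.B μ L β f f := T.B_self μ hβ hfc hfd
  have hXx : (I1 - z * I0) ^ 2 ≤ I0 * T.B μ L β f f := by
    have b1 := word_lower μ T (L := L) hΛ hβ (w := ([] : List (Ed d (2 * m) × Cx N)))
      (by simp) hfc hfd
    simp only [pw_nil, mul_one, List.length_nil, pow_zero, Nat.factorial_zero, Nat.cast_one,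
      div_one, one_mul] at b1
    have b2 := S.B_cs μ (L := L) hβ hfc (by rw [hSR]; exact hfd) hwc (by rw [hSR]; exact hwd)
    rw [g1, ← hI0] at b2
    rw [← hS] at b1
    calc _ ≤ S.B μ L β f f * I0 := b2
      _ ≤ T.B μ L β f f * I0 := mul_le_mul_of_nonneg_right b1 hI0p.le
      _ = _ := mul_comm _ _
  have hdiff : |S.B μ L β (fun U => f U * P U) w - (I2 - z * I1)| ≤ e * (2 * B * I0) := by
    rw [← g2]
    have c3 : Continuous fun U => f U * P U := hfc.mul hP
    have c4 : Continuous fun U => f U * F U := hfc.mul hF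
    have c5 : Continuous fun U => (-1) * (f U * F U) := continuous_const.mul c4
    have a1 : S.B μ L β (fun U => f U * P U) w - S.B μ L β (fun U => f U * F U) w =
        S.B μ L β (fun U => f U * P U + (-1) * (f U * F U)) w := by
      rw [B_add_left μ S β c3 c5 hwc, B_smul_left]; ring
    rw [a1]
    have he0 : 0 ≤ e := (abs_nonneg _).trans (hPF 1)
    have key : ∀ U, |f U * P U + (-1) * (f U * F U)| ≤ e * (2 * B) * w U := by
      intro U
      have b1 : f U * P U + (-1) * (f U * F U) = ((F U - z) * (P U - F U)) * w U := by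
        rw [hf]; ring
      rw [b1, abs_mul, abs_of_nonneg (hw0 U), abs_mul]
      refine mul_le_mul_of_nonneg_right ?_ (hw0 U)
      have b2 : |F U - z| ≤ 2 * B := by
        have := abs_sub (F U) z
        linarith [hFB U]
      calc |F U - z| * |P U - F U| ≤ (2 * B) * e :=
            mul_le_mul b2 (hPF U) (abs_nonneg _) (by positivity)
        _ = _ := by ring
    have c6 : Continuous fun U => f U * P U + (-1) * (f U * F U) := c3.add c5
    have up : S.B μ L β (fun U => f U * P U + (-1) * (f U * F U)) w ≤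
        S.B μ L β (fun U => e * (2 * B) * w U) w :=
      B_mono_left μ S β c6 (continuous_const.mul hwc) hwc hw0 fun U =>
        (le_abs_self _).trans (key U)
    have lo : S.B μ L β (fun U => (-(e * (2 * B))) * w U) w ≤
        S.B μ L β (fun U => f U * P U + (-1) * (f U * F U)) w :=
      B_mono_left μ S β (continuous_const.mul hwc) c6 hwc hw0 fun U => by
        have := (abs_le.1 (key U)).1
        linarith
    rw [B_smul_left, ← hI0] at up lo
    rw [abs_le]
    constructor <;> linarith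
  have main := alg2 hvp hI0p hB hI1le hvar' hXx hcP
    (by have := hgood' f hfc hfd; rwa [← hI0] at this) hX0 hdiff he
  have hmin0 : 0 ≤ min (v ^ 2 / (4 * B ^ 2)) (v ^ 2 / (16 * (cP + 1) ^ 2)) :=
    le_min (by positivity) (by positivity)
  have hZ : T.B μ L β w w ≤ Real.exp (β * (N * K)) * I0 := by
    have b1 := B_delF_le μ (L := L) T hΛ hwc hw0 hβ
    rw [← hS, ← hI0] at b1
    refine b1.trans (mul_le_mul_of_nonneg_right (Real.exp_le_exp.2 ?_) hI0p.le)
    gcongr
  rw [hf] at main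
  refine le_trans ?_ main
  calc _ ≤ min (v ^ 2 / (4 * B ^ 2)) (v ^ 2 / (16 * (cP + 1) ^ 2)) *
        Real.exp (-(β * (N * K))) * (Real.exp (β * (N * K)) * I0) :=
        mul_le_mul_of_nonneg_left hZ (by positivity)
    _ = _ := by
        have : Real.exp (-(β * (N * K))) * Real.exp (β * (N * K)) = 1 := by
          rw [← Real.exp_add]; simp
        calc _ = min (v ^ 2 / (4 * B ^ 2)) (v ^ 2 / (16 * (cP + 1) ^ 2)) *
            (Real.exp (-(β * (N * K))) * Real.exp (β * (N * K))) * I0 := by ring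
          _ = _ := by rw [this, mul_one]

end tor

end

end Pool.Agent.U508.YMF
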