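import Mathlib
import Pool.Agent.U508.YMF.Gen

/-!
# Polynomial approximation, variance and marginals
-/

open MeasureTheory Matrix
open scoped Matrix.Norms.Frobenius
open Pool.Agent.H906R3.YM hiding Pl
open Pool.Agent.W793.YM

namespace Pool.Agent.U508.YMF

set_option linter.unusedSectionVars false

noncomputable section

section marg

variable {G : Type*} [MeasurableSpace G] (μ : Measure G) [IsProbabilityMeasure μ]
  {ι E : Type*} [Fintype ι] [Fintype E] [DecidableEq E]

/-- the marginal of a product measure -/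
lemma marg (φ : ι → E) (hφ : Function.Injective φ) :
    (Measure.pi fun _ : E => μ).map (fun U => fun i => U (φ i)) = Measure.pi fun _ : ι => μ := by
  refine (Measure.pi_eq fun s hs => ?_).symm
  have hm : Measurable fun (U : E → G) => fun i => U (φ i) :=
    measurable_pi_lambda _ fun i => measurable_pi_apply _
  rw [Measure.map_apply hm (MeasurableSet.univ_pi hs)]
  have h1 : (fun (U : E → G) => fun i => U (φ i)) ⁻¹' (Set.univ.pi s) =
      Set.univ.pi (Function.extend φ s fun _ => Set.univ) := by
    ext U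
    simp only [Set.mem_preimage, Set.mem_pi, Set.mem_univ, true_implies]
    constructor
    · intro h e
      by_cases he : ∃ i, φ i = e
      · obtain ⟨i, rfl⟩ := he
        rw [hφ.extend_apply]
        exact h i
      · rw [Function.extend_apply' _ _ _ he]
        exact Set.mem_univ _
    · intro h i
      have := h (φ i)
      rwa [hφ.extend_apply] at this
  rw [h1, Measure.pi_pi]
  have h2 : ∏ e ∈ Finset.univ.image φ, μ (Function.extend φ s (fun _ => Set.univ) e) =
      ∏ e, μ (Function.extend φ s (fun _ => Set.univ) e) := by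
    refine Finset.prod_subset (Finset.subset_univ _) fun e _ he => ?_
    have h3 : ¬∃ i, φ i = e := by
      intro ⟨i, hi⟩
      exact he (Finset.mem_image.2 ⟨i, Finset.mem_univ _, hi⟩)
    rw [Function.extend_apply' _ _ _ h3, measure_univ]
  rw [← h2, Finset.prod_image fun i _ j _ h => hφ h]
  exact Finset.prod_congr rfl fun i _ => by rw [hφ.extend_apply]

/-- integration of a function of some of the variables -/
lemma integral_marg [TopologicalSpace G] [BorelSpace G] [SecondCountableTopology G]
    (φ : ι → E) (hφ : Function.Injective φ) {f : (ι → G) → ℝ} (hf : Continuous f) :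
    ∫ U, f (fun i => U (φ i)) ∂(Measure.pi fun _ : E => μ) =
      ∫ u, f u ∂(Measure.pi fun _ : ι => μ) := by
  rw [← marg μ φ hφ, integral_map]
  · exact (measurable_pi_lambda _ fun i => measurable_pi_apply _).aemeasurable
  · exact hf.aestronglyMeasurable

end marg

section var

variable {X : Type*} [TopologicalSpace X] [CompactSpace X] [MeasurableSpace X] [BorelSpace X]
  (P : Measure X) [IsProbabilityMeasure P] [P.IsOpenPosMeasure]

/-- the variance of a continuous function which is not constant -/
lemma var_pos {f : X → ℝ} (hf : Continuous f) (hne : ∃ x y, f x ≠ f y) :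
    ∃ v : ℝ, 0 < v ∧ ∀ x : ℝ, v ≤ ∫ u, (f u - x) ^ 2 ∂P := by
  have hi : ∀ {g : X → ℝ}, Continuous g → Integrable g P := fun hg =>
    hg.integrable_of_hasCompactSupport (HasCompactSupport.of_compactSpace _)
  obtain ⟨a, ha⟩ : ∃ a, a = ∫ u, f u ∂P := ⟨_, rfl⟩
  refine ⟨∫ u, (f u - a) ^ 2 ∂P, ?_, fun x => ?_⟩
  · have h0 : Continuous fun u => (f u - a) ^ 2 := (hf.sub continuous_const).pow 2
    obtain ⟨x, hx⟩ : ∃ x, f x ≠ a := by
      by_contra hcon
      push Not at hcon
      obtain ⟨x, y, hxy⟩ := hne
      exact hxy ((hcon x).trans (hcon y).symm)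
    exact h0.integral_pos_of_hasCompactSupport_nonneg_nonzero
      (HasCompactSupport.of_compactSpace _) (fun u => sq_nonneg _) (x := x)
      (pow_ne_zero 2 (sub_ne_zero.2 hx))
  · have c1 : Continuous fun u => (f u - a) ^ 2 := (hf.sub continuous_const).pow 2
    have c2 : Continuous fun u => (2 * (a - x)) * (f u - a) :=
      continuous_const.mul (hf.sub continuous_const)
    have h1 : (fun u => (f u - x) ^ 2) = fun u => ((f u - a) ^ 2 + (2 * (a - x)) * (f u - a)) +
        (a - x) ^ 2 := by
      funext u; ring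
    rw [h1, integral_add (f := fun u => (f u - a) ^ 2 + (2 * (a - x)) * (f u - a))
      (hi (c1.add c2)) (integrable_const _), integral_add (hi c1) (hi c2),
      integral_const_mul, integral_sub (hi hf) (integrable_const _), ← ha]
    simp only [integral_const, probReal_univ, smul_eq_mul, one_mul, sub_self, mul_zero,
      add_zero]
    have := sq_nonneg (a - x)
    linarith

end var

section poly

variable {G : Type*} [Group G] [TopologicalSpace G] [IsTopologicalGroup G] [CompactSpace G]
  [SecondCountableTopology G] [MeasurableSpace G] [BorelSpace G]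
  {N n : ℕ} {L : LD G N n} {ι : Type*} [Fintype ι] [DecidableEq ι]

/-- polynomials in the coordinates of the links -/
def ev (L : LD G N n) (P : List (ℝ × List (ι × Cx N))) (u : ι → G) : ℝ :=
  (P.map fun p => p.1 * pw L p.2 u).sum

lemma ev_nil (u : ι → G) : ev L ([] : List (ℝ × List (ι × Cx N))) u = 0 := rfl

lemma ev_cons (p : ℝ × List (ι × Cx N)) (P : List (ℝ × List (ι × Cx N))) (u : ι → G) :
    ev L (p :: P) u = p.1 * pw L p.2 u + ev L P u := by
  unfold ev; simp

lemma ev_append (P Q : List (ℝ × List (ι × Cx N))) (u : ι → G) :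
    ev L (P ++ Q) u = ev L P u + ev L Q u := by
  unfold ev; simp

lemma pw_append (v w : List (ι × Cx N)) (u : ι → G) :
    pw L (v ++ w) u = pw L v u * pw L w u := by
  unfold pw; simp

lemma ev_mul (P Q : List (ℝ × List (ι × Cx N))) :
    ∃ R : List (ℝ × List (ι × Cx N)), ∀ u : ι → G, ev L R u = ev L P u * ev L Q u := by
  induction P with
  | nil => exact ⟨[], fun u => by rw [ev_nil, zero_mul]⟩
  | cons p P ih =>
    obtain ⟨R, hR⟩ := ih
    refine ⟨(Q.map fun q => (p.1 * q.1, p.2 ++ q.2)) ++ R, fun u => ?_⟩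
    rw [ev_append, hR, ev_cons, add_mul]
    congr 1
    clear hR
    induction Q with
    | nil => simp [ev_nil]
    | cons q Q ih =>
      rw [List.map_cons, ev_cons, ev_cons, ih, mul_add, pw_append]
      ring

variable (L ι) in
/-- the algebra of the polynomials -/
def pAlg : Subalgebra ℝ C(ι → G, ℝ) where
  carrier := {f | ∃ P : List (ℝ × List (ι × Cx N)), ∀ u, f u = ev L P u}
  mul_mem' := by
    rintro f g ⟨P, hP⟩ ⟨Q, hQ⟩
    obtain ⟨R, hR⟩ := ev_mul (L := L) P Q
    exact ⟨R, fun u => by rw [ContinuousMap.mul_apply, hP, hQ, hR]⟩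
  add_mem' := by
    rintro f g ⟨P, hP⟩ ⟨Q, hQ⟩
    exact ⟨P ++ Q, fun u => by rw [ContinuousMap.add_apply, hP, hQ, ev_append]⟩
  algebraMap_mem' r := ⟨[(r, [])], fun u => by
    rw [ev_cons, ev_nil, pw_nil]
    simp⟩

/-- **Approximation by polynomials in the coordinates of the links.** -/
lemma stone (hinj : Function.Injective L.rho) {f : (ι → G) → ℝ} (hf : Continuous f) {ε : ℝ}
    (hε : 0 < ε) : ∃ P : List (ℝ × List (ι × Cx N)), ∀ u, |ev L P u - f u| ≤ ε := by
  have hsep : (pAlg L ι).SeparatesPoints := by
    intro u v huv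
    obtain ⟨i, hi⟩ := Function.ne_iff.1 huv
    have h1 : L.rho (u i) ≠ L.rho (v i) := fun h => hi (hinj h)
    have h2 : ∃ c : Cx N, co c (L.rho (u i)) ≠ co c (L.rho (v i)) := by
      by_contra hcon
      push Not at hcon
      refine h1 (Matrix.ext fun a b => Complex.ext ?_ ?_)
      · exact hcon (a, b, true)
      · exact hcon (a, b, false)
    obtain ⟨c, hc⟩ := h2
    refine ⟨_, ⟨⟨c1 L i c, c1_cont i c⟩, ⟨[(1, [(i, c)])], fun w => ?_⟩, rfl⟩, ?_⟩
    · rw [ev_cons, ev_nil, pw_cons, pw_nil]
      simp
    · exact hc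
  obtain ⟨g, hg⟩ := ContinuousMap.exists_mem_subalgebra_near_continuous_of_separatesPoints
    (pAlg L ι) hsep f hf ε hε
  obtain ⟨P, hP⟩ := g.2
  refine ⟨P, fun u => ?_⟩
  have := hg u
  rw [Real.norm_eq_abs] at this
  rw [← hP]
  exact this.le

end poly

end

end Pool.Agent.U508.YMF
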