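import Mathlib
import Pool.Agent.U508.YMF.Poly

/-!
# Polynomials in the coordinates of the links
-/

open MeasureTheory Matrix
open scoped Matrix.Norms.Frobenius
open Pool.Agent.H906R3.YM hiding Pl
open Pool.Agent.W793.YM

namespace Pool.Agent.U508.YMF

set_option linter.unusedSectionVars false

noncomputable section

variable {G : Type*} [Group G] [TopologicalSpace G] [IsTopologicalGroup G] [CompactSpace G]
  [SecondCountableTopology G] [MeasurableSpace G] [BorelSpace G] (μ : Measure G)
  [IsProbabilityMeasure μ] [μ.IsMulLeftInvariant] [μ.IsMulRightInvariant] [μ.IsInvInvariant]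
  {N n : ℕ} {L : LD G N n} {ι : Type*} [Fintype ι] [DecidableEq ι]
  {E : Type*} [Fintype E] [DecidableEq E] {T : Refl E}

lemma pw_map (φ : ι → E) (w : List (ι × Cx N)) (U : E → G) :
    pw L (w.map fun p => (φ p.1, p.2)) U = pw L w (fun i => U (φ i)) := by
  induction w with
  | nil => rfl
  | cons p w ih => rw [List.map_cons, pw_cons, pw_cons, ih]; rfl

/-- the constant of a word -/
def cw (β : ℝ) (K : ℕ) : ℝ := Real.sqrt ((K.factorial : ℝ) / β ^ K)

lemma good_word {Λ : Finset E} (hΛ : Λ ⊆ T.J) {β : ℝ} (hβ : 0 < β) {w : List (E × Cx N)}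
    (hw : ∀ q ∈ w, q.1 ∈ Λ) {w0 : (E → G) → ℝ} (h0 : Continuous w0) (h0d : Dep T.R w0) :
    Good μ L T Λ β w0 (pw L w) (cw β w.length) := by
  intro f hf hd
  have hdp : Dep T.R (pw L w : (E → G) → ℝ) := pw_dep fun q hq => T.J_R _ (hΛ (hw q hq))
  have h1 := word_lower μ T (L := L) hΛ hβ.le hw hf hd
  have h2 := (delF T Λ).B_cs μ (L := L) hβ.le (f := fun U => f U * pw L w U)
    (hf.mul (pw_cont w)) (mul_dep hd hdp) h0 h0d
  have h3 : 0 ≤ (delF T Λ).B μ L β w0 w0 := (delF T Λ).B_self μ hβ.le h0 h0d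
  have h4 : 0 ≤ T.B μ L β f f := T.B_self μ hβ.le hf hd
  have hp : 0 < β ^ w.length / (w.length.factorial : ℝ) := by positivity
  have h5 : (delF T Λ).B μ L β (fun U => f U * pw L w U) w0 ^ 2 ≤
      ((w.length.factorial : ℝ) / β ^ w.length) *
        ((delF T Λ).B μ L β w0 w0 * T.B μ L β f f) := by
    have h6 : (delF T Λ).B μ L β (fun U => f U * pw L w U) (fun U => f U * pw L w U) ≤
        ((w.length.factorial : ℝ) / β ^ w.length) * T.B μ L β f f := by
      have h7 := mul_le_mul_of_nonneg_left h1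
        (show (0 : ℝ) ≤ (w.length.factorial : ℝ) / β ^ w.length by positivity)
      refine le_trans (le_of_eq ?_) h7
      field_simp
    calc _ ≤ _ := h2
      _ ≤ (((w.length.factorial : ℝ) / β ^ w.length) * T.B μ L β f f) *
          (delF T Λ).B μ L β w0 w0 := mul_le_mul_of_nonneg_right h6 h3
      _ = _ := by ring
  unfold cw
  rw [← Real.sqrt_mul (by positivity)]
  exact Real.abs_le_sqrt h5

lemma good_add {Λ : Finset E} {β : ℝ} {w0 P Q : (E → G) → ℝ} {a b : ℝ}
    (h0 : Continuous w0) (hP : Continuous P) (hQ : Continuous Q)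
    (h1 : Good μ L T Λ β w0 P a) (h2 : Good μ L T Λ β w0 Q b) :
    Good μ L T Λ β w0 (fun U => P U + Q U) (a + b) := by
  intro f hf hd
  have e1 : (fun U => f U * (P U + Q U)) = fun U => f U * P U + f U * Q U := by
    funext U; ring
  have c1 : Continuous fun U => f U * P U := hf.mul hP
  have c2 : Continuous fun U => f U * Q U := hf.mul hQ
  rw [e1, B_add_left μ (delF T Λ) β c1 c2 h0, add_mul]
  exact (abs_add_le _ _).trans (add_le_add (h1 f hf hd) (h2 f hf hd))

lemma good_smul {Λ : Finset E} {β : ℝ} {w0 P : (E → G) → ℝ} {a : ℝ} (r : ℝ)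
    (h1 : Good μ L T Λ β w0 P a) : Good μ L T Λ β w0 (fun U => r * P U) (|r| * a) := by
  intro f hf hd
  have e1 : (fun U => f U * (r * P U)) = fun U => r * (f U * P U) := by
    funext U; ring
  rw [e1, B_smul_left, abs_mul, mul_assoc]
  exact mul_le_mul_of_nonneg_left (h1 f hf hd) (abs_nonneg _)

/-- the constant of a polynomial -/
def ce (β : ℝ) (P : List (ℝ × List (ι × Cx N))) : ℝ :=
  (P.map fun p => |p.1| * cw β p.2.length).sum

lemma ce_nonneg (β : ℝ) (P : List (ℝ × List (ι × Cx N))) : 0 ≤ ce β P := by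
  unfold ce cw
  refine List.sum_nonneg fun x hx => ?_
  obtain ⟨p, -, rfl⟩ := List.mem_map.1 hx
  exact mul_nonneg (abs_nonneg _) (Real.sqrt_nonneg _)

lemma ev_cont (P : List (ℝ × List (ι × Cx N))) : Continuous (ev L P : (ι → G) → ℝ) := by
  induction P with
  | nil => exact continuous_const
  | cons p P ih =>
    have h : (ev L (p :: P) : (ι → G) → ℝ) = fun u => p.1 * pw L p.2 u + ev L P u := by
      funext u; exact ev_cons p P u
    rw [h]
    exact (continuous_const.mul (pw_cont _)).add ih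

/-- polynomials of the links in `Λ` -/
theorem good_ev {Λ : Finset E} (hΛ : Λ ⊆ T.J) {β : ℝ} (hβ : 0 < β) {φ : ι → E}
    (hφ : ∀ i, φ i ∈ Λ) {w0 : (E → G) → ℝ} (h0 : Continuous w0) (h0d : Dep T.R w0)
    (P : List (ℝ × List (ι × Cx N))) :
    Good μ L T Λ β w0 (fun U => ev L P fun i => U (φ i)) (ce β P) := by
  have hcφ : Continuous fun (U : E → G) => fun i => U (φ i) :=
    continuous_pi fun i => continuous_apply _
  induction P with
  | nil =>
    intro f hf hd
    have e1 : (fun U => f U * ev L ([] : List (ℝ × List (ι × Cx N))) fun i => U (φ i)) =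
        fun U => 0 * f U := by
      funext U; rw [ev_nil]; ring
    have e2 : ce β ([] : List (ℝ × List (ι × Cx N))) = 0 := rfl
    rw [e1, B_smul_left, e2]
    simp
  | cons p P ih =>
    have e1 : (fun U : E → G => ev L (p :: P) fun i => U (φ i)) =
        fun U => p.1 * pw L (p.2.map fun q => (φ q.1, q.2)) U + ev L P fun i => U (φ i) := by
      funext U; rw [ev_cons, pw_map]
    have e2 : ce β (p :: P) = |p.1| * cw β p.2.length + ce β P := by
      unfold ce; simp
    rw [e1, e2]
    refine good_add μ h0 (continuous_const.mul (pw_cont _)) ((ev_cont P).comp hcφ) ?_ ih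
    have h3 := good_word μ (L := L) hΛ hβ (w := p.2.map fun q => (φ q.1, q.2))
      (fun q hq => by
        obtain ⟨q', -, rfl⟩ := List.mem_map.1 hq
        exact hφ _) h0 h0d
    rw [List.length_map] at h3
    exact good_smul μ p.1 h3

end

end Pool.Agent.U508.YMF
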