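import Mathlib
import Pool.Agent.U508.YMF.GoodEv

/-!
# The time correlations of general observables on the torus
-/

open MeasureTheory Matrix
open scoped Matrix.Norms.Frobenius
open Pool.Agent.H906R3.YM hiding Pl
open Pool.Agent.W793.YM

namespace Pool.Agent.U508.YMF

set_option linter.unusedSectionVars false

noncomputable section

variable {G : Type*} [Group G] [TopologicalSpace G] [IsTopologicalGroup G] [CompactSpace G]
  [SecondCountableTopology G] [MeasurableSpace G] [BorelSpace G] (μ : Measure G)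
  [IsProbabilityMeasure μ] [μ.IsMulLeftInvariant] [μ.IsMulRightInvariant] [μ.IsInvInvariant]
  {N n : ℕ} {L : LD G N n} {ι : Type*} [Fintype ι] [DecidableEq ι]

/-- **The time correlations of an observable which is not constant decay at most exponentially,
uniformly in the volume.** -/
theorem fin_gen [μ.IsOpenPosMeasure] (hinj : Function.Injective L.rho) {F0 : (ι → G) → ℝ}
    (hF0 : Continuous F0) (hne : ∃ u u', F0 u ≠ F0 u') (d : ℕ) {β : ℝ} (hβ : 0 < β) :
    ∃ c M : ℝ, 0 < c ∧ ∀ (m : ℕ) [NeZero m] (hm : 2 ≤ m) (τ : Fin d) (φ : ι → Ed d (2 * m)),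
      Function.Injective φ → (∀ i, φ i ∈ (TR hm τ).J) → ∀ F : (Ed d (2 * m) → G) → ℝ,
      Continuous F → GI F → Sp τ F → (∀ U, F (tr (sv τ 1) U) = F0 fun i => U (φ i)) →
      c ≤ tc μ L β τ F 0 ∧ ∀ t : ℕ, t ≤ 2 * m →
        Real.exp (-(M * t)) * tc μ L β τ F 0 ≤ tc μ L β τ F (t : ZMod (2 * m)) := by
  -- the constants
  obtain ⟨v0, hv0, hvar⟩ := var_pos (Measure.pi fun _ : ι => μ) hF0 hne
  obtain ⟨B, hB0, hB⟩ : ∃ B : ℝ, 0 < B ∧ ∀ u, |F0 u| ≤ B := by
    obtain ⟨B, hB⟩ := isCompact_univ.exists_bound_of_continuousOn hF0.continuousOn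
    refine ⟨|B| + 1, by positivity, fun u => ?_⟩
    have h1 := hB u (Set.mem_univ _)
    rw [Real.norm_eq_abs] at h1
    linarith [le_abs_self B]
  obtain ⟨K, hK⟩ : ∃ K : ℝ, K = Fintype.card ι := ⟨_, rfl⟩
  obtain ⟨v, hv⟩ : ∃ v, v = Real.exp (-(β * (4 * d * N * K))) * v0 := ⟨_, rfl⟩
  have hvp : 0 < v := by rw [hv]; positivity
  obtain ⟨P, hP⟩ := stone (L := L) hinj hF0 (ε := v / (8 * B)) (by positivity)
  obtain ⟨cP, hcP⟩ : ∃ cP, cP = ce β P := ⟨_, rfl⟩
  have hcP0 : 0 ≤ cP := by rw [hcP]; exact ce_nonneg β P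
  obtain ⟨κ, hκ⟩ : ∃ κ, κ = min (v ^ 2 / (4 * B ^ 2)) (v ^ 2 / (16 * (cP + 1) ^ 2)) *
    Real.exp (-(β * (N * K))) := ⟨_, rfl⟩
  have hκ0 : 0 < κ := by
    rw [hκ]
    exact mul_pos (lt_min (by positivity) (by positivity)) (Real.exp_pos _)
  refine ⟨κ, -Real.log (κ / B ^ 2), hκ0, fun m _ hm τ φ hφ hφJ F hFc hFg hFs hFφ => ?_⟩
  obtain ⟨Z, hZ⟩ : ∃ Z, Z = Zt μ L β (fun _ : Ed d (2 * m) → G => 1) := ⟨_, rfl⟩
  have hZ0 : 0 < Z := by rw [hZ]; exact Zt_pos μ β
  obtain ⟨z, hz⟩ : ∃ z, z = Zt μ L β F / Z := ⟨_, rfl⟩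
  have hFabs : ∀ U, |F U| ≤ B := by
    intro U
    have h1 : F (tr (sv τ 1) (tr (sv τ (-1)) U)) = F U := by
      congr 1
      funext e
      unfold tr
      rw [add_assoc, ← sv_add]
      have : sv τ (1 + -1 : ZMod (2 * m)) = 0 := by
        rw [add_neg_cancel]; unfold sv; simp
      rw [this, add_zero]
    rw [← h1, hFφ]
    exact hB _
  have hz' : |z| ≤ B := by
    have u1 : Zt μ L β F ≤ B * Z := by
      have := Zt_mono μ (L := L) (β := β) (F := F) (H := fun _ => B * 1) hFc continuous_const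
        fun U => by rw [mul_one]; exact (le_abs_self _).trans (hFabs U)
      rwa [Zt_smul, ← hZ] at this
    have u2 : -B * Z ≤ Zt μ L β F := by
      have := Zt_mono μ (L := L) (β := β) (F := fun _ => -B * 1) (H := F) continuous_const hFc
        fun U => by rw [mul_one]; exact (abs_le.1 (hFabs U)).1
      rwa [Zt_smul, ← hZ] at this
    rw [hz, abs_div, abs_of_pos hZ0, div_le_iff₀ hZ0, abs_le]
    constructor <;> linarith
  have htc : ∀ t : ZMod (2 * m), tc μ L β τ F t * Z = cor μ L β τ (fun U => F U - z) t :=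
    fun t => by rw [hz, hZ]; exact tc_eq μ β hFc t
  obtain ⟨f, hf⟩ : ∃ f : (Ed d (2 * m) → G) → ℝ, f = fun U => F U - z := ⟨_, rfl⟩
  have hfc : Continuous f := by rw [hf]; exact hFc.sub continuous_const
  have hfg : GI f := fun γ U => by
    rw [hf]
    show F (gt γ U) - z = F U - z
    rw [hFg γ U]
  have hfs : Sp τ f := fun U U' h => by
    rw [hf]
    show F U - z = F U' - z
    rw [hFs U U' h]
  rw [← hf] at htc
  -- the lower bound
  have hcφ : Continuous fun (U : Ed d (2 * m) → G) => fun i => U (φ i) :=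
    continuous_pi fun i => continuous_apply _
  obtain ⟨Λ, hΛ⟩ : ∃ Λ : Finset (Ed d (2 * m)), Λ = Finset.univ.image φ := ⟨_, rfl⟩
  have hφΛ : ∀ i, φ i ∈ Λ := fun i => by
    rw [hΛ]; exact Finset.mem_image_of_mem _ (Finset.mem_univ _)
  have hΛJ : Λ ⊆ (TR hm τ).J := by
    intro e he
    rw [hΛ] at he
    obtain ⟨i, -, rfl⟩ := Finset.mem_image.1 he
    exact hφJ i
  have hlow : κ * Z ≤ cor μ L β τ f 1 := by
    obtain ⟨c, hc, hc1, hc2⟩ := half μ (L := L) (τ := τ) hm β
    have h1 := gen_low μ (L := L) (τ := τ) hm hΛJ hβ.le (F := fun U => F0 fun i => U (φ i))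
      (P := fun U => ev L P fun i => U (φ i)) (hF0.comp hcφ) ((ev_cont P).comp hcφ)
      (fun U U' h => by
        have : (fun i => U (φ i)) = fun i => U' (φ i) := funext fun i => h _ (hφΛ i)
        show F0 _ = F0 _
        rw [this]) hB0 (fun U => hB _) (K := K) (v0 := v0) (v := v) (cP := cP)
      (e := v / (8 * B)) (z := z)
      (by
        rw [hK, hΛ]
        exact_mod_cast Finset.card_image_le) hv0 hv
      (fun x => by
        refine (hvar x).trans (le_of_eq ?_)
        exact (integral_marg μ φ hφ (f := fun u => (F0 u - x) ^ 2)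
          ((hF0.sub continuous_const).pow 2)).symm)
      hcP0 (by
        rw [hcP]
        exact good_ev μ hΛJ hβ hφΛ (Sm_cont _) (wR_dep hm β τ) P)
      (fun U => hP _) (le_of_eq (by field_simp)) hz'
    rw [← hκ] at h1
    have h2 := hc2 f hfc hfg hfs
    have h3 : (fun U : Ed d (2 * m) → G => f (tr (sv τ 1) U) * (wR L β m τ).1 U) =
        fun U => ((F0 fun i => U (φ i)) - z) * (wR L β m τ).1 U := by
      funext U
      rw [hf]
      show (F (tr (sv τ 1) U) - z) * _ = _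
      rw [hFφ]
    rw [h3] at h2
    rw [h2, hZ, hc1]
    calc κ * (c * _) = c * (κ * _) := by ring
      _ ≤ _ := mul_le_mul_of_nonneg_left h1 hc.le
  have h10 := cor_one_le μ (L := L) (τ := τ) β hfc 1
  have hpos : 0 < cor μ L β τ f 0 := lt_of_lt_of_le (mul_pos hκ0 hZ0) (hlow.trans h10)
  have hup : cor μ L β τ f 0 ≤ B ^ 2 * Z := by
    rw [cor_zero]
    have h1 : (fun U => f U ^ 2) = fun U => (F U ^ 2 + (-(2 * z)) * F U) + z ^ 2 * 1 := by
      rw [hf]; funext U; ring
    have c1 : Continuous fun U => F U ^ 2 := hFc.pow 2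
    have c2 : Continuous fun U => (-(2 * z)) * F U := continuous_const.mul hFc
    have c3 : Continuous fun U => F U ^ 2 + (-(2 * z)) * F U := c1.add c2
    have c4 : Continuous fun _ : Ed d (2 * m) → G => z ^ 2 * (1 : ℝ) := continuous_const
    rw [h1, Zt_add μ c3 c4, Zt_add μ c1 c2, Zt_smul, Zt_smul, ← hZ]
    have hzZ : Zt μ L β F = z * Z := by rw [hz]; field_simp
    rw [hzZ]
    have h2 : Zt μ L β (fun U => F U ^ 2) ≤ B ^ 2 * Z := by
      have h3 : Zt μ L β (fun U => F U ^ 2) ≤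
          Zt μ L β (fun _ : Ed d (2 * m) → G => B ^ 2 * 1) := by
        refine Zt_mono μ c1 continuous_const fun U => ?_
        rw [mul_one, ← sq_abs]
        exact pow_le_pow_left₀ (abs_nonneg _) (hFabs U) 2
      rw [Zt_smul, ← hZ] at h3
      exact h3
    nlinarith [mul_nonneg (sq_nonneg z) hZ0.le]
  have hr0 : 0 < κ / B ^ 2 := by positivity
  have hr1 : κ / B ^ 2 * cor μ L β τ f 0 ≤ cor μ L β τ f 1 := by
    calc _ ≤ κ / B ^ 2 * (B ^ 2 * Z) := mul_le_mul_of_nonneg_left hup hr0.le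
      _ = κ * Z := by field_simp
      _ ≤ _ := hlow
  have hdec := fun t (ht : t ≤ 2 * m) => decay μ (L := L) (τ := τ) hm hβ.le hfc hfg hfs
    hr0 hpos hr1 (t := t) ht
  constructor
  · have h1 : κ * Z ≤ tc μ L β τ F 0 * Z := by
      rw [htc]
      exact hlow.trans h10
    exact le_of_mul_le_mul_right h1 hZ0
  · intro t ht
    have h1 := hdec t ht
    rw [← htc, ← htc, ← mul_assoc] at h1
    have h2 := le_of_mul_le_mul_right h1 hZ0
    have h3 : Real.exp (-(-Real.log (κ / B ^ 2) * t)) = (κ / B ^ 2) ^ t := by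
      rw [neg_mul, neg_neg, mul_comm, Real.exp_nat_mul, Real.exp_log hr0]
    rw [h3]
    exact h2

end

end Pool.Agent.U508.YMF
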