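import Mathlib
import Pool.Agent.U508.YMF.GoodEv

/-!
# The time correlations of general observables on the torus: locally uniform in the coupling
-/

open MeasureTheory Matrix
open scoped Matrix.Norms.Frobenius
open Pool.Agent.H906R3.YM hiding Pl
open Pool.Agent.W793.YM

namespace Pool.Agent.U508.YMF

set_option linter.unusedSectionVars false

noncomputable section

variable {G : Type*} [Group G] [TopologicalSpace G] [IsTopologicalGroup G] [CompactSpace G]
  [SecondCountableTopology G] [MeasurableSpace G] [BorelSpace G] (μ : Measure G)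
  [IsProbabilityMeasure μ] [μ.IsMulLeftInvariant] [μ.IsMulRightInvariant] [μ.IsInvInvariant]
  {N n : ℕ} {L : LD G N n} {ι : Type*} [Fintype ι] [DecidableEq ι]

/-- the core: one coupling, a given polynomial approximation -/
theorem fin_core [μ.IsOpenPosMeasure] {F0 : (ι → G) → ℝ}
    (hF0 : Continuous F0) (d : ℕ) {β : ℝ} (hβ : 0 < β) {v0 v B K : ℝ} (hv0 : 0 < v0)
    (hvar : ∀ x : ℝ, v0 ≤ ∫ u, (F0 u - x) ^ 2 ∂(Measure.pi fun _ : ι => μ))
    (hB0 : 0 < B) (hB : ∀ u, |F0 u| ≤ B) (hK : K = Fintype.card ι)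
    (hv : v = Real.exp (-(β * (4 * d * N * K))) * v0) {ε : ℝ} (hε : ε * (8 * B) ≤ v)
    {P : List (ℝ × List (ι × Cx N))} (hP : ∀ u, |ev L P u - F0 u| ≤ ε) :
    ∀ (m : ℕ) [NeZero m] (hm : 2 ≤ m) (τ : Fin d) (φ : ι → Ed d (2 * m)),
      Function.Injective φ → (∀ i, φ i ∈ (TR hm τ).J) → ∀ F : (Ed d (2 * m) → G) → ℝ,
      Continuous F → GI F → Sp τ F → (∀ U, F (tr (sv τ 1) U) = F0 fun i => U (φ i)) →
      (min (v ^ 2 / (4 * B ^ 2)) (v ^ 2 / (16 * (ce β P + 1) ^ 2)) *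
        Real.exp (-(β * (N * K)))) ≤ tc μ L β τ F 0 ∧ ∀ t : ℕ, t ≤ 2 * m →
        ((min (v ^ 2 / (4 * B ^ 2)) (v ^ 2 / (16 * (ce β P + 1) ^ 2)) *
        Real.exp (-(β * (N * K)))) / B ^ 2) ^ t * tc μ L β τ F 0 ≤
          tc μ L β τ F (t : ZMod (2 * m)) := by
  have hvp : 0 < v := by rw [hv]; positivity
  obtain ⟨cP, hcP⟩ : ∃ cP, cP = ce β P := ⟨_, rfl⟩
  rw [← hcP]
  have hcP0 : 0 ≤ cP := by rw [hcP]; exact ce_nonneg β P
  obtain ⟨κ, hκ⟩ : ∃ κ, κ = min (v ^ 2 / (4 * B ^ 2)) (v ^ 2 / (16 * (cP + 1) ^ 2)) *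
    Real.exp (-(β * (N * K))) := ⟨_, rfl⟩
  have hκ0 : 0 < κ := by
    rw [hκ]
    exact mul_pos (lt_min (by positivity) (by positivity)) (Real.exp_pos _)
  rw [← hκ]
  intro m _ hm τ φ hφ hφJ F hFc hFg hFs hFφ
  obtain ⟨Z, hZ⟩ : ∃ Z, Z = Zt μ L β (fun _ : Ed d (2 * m) → G => 1) := ⟨_, rfl⟩
  have hZ0 : 0 < Z := by rw [hZ]; exact Zt_pos μ β
  obtain ⟨z, hz⟩ : ∃ z, z = Zt μ L β F / Z := ⟨_, rfl⟩
  have hFabs : ∀ U, |F U| ≤ B := by
    intro U
    have h1 : F (tr (sv τ 1) (tr (sv τ (-1)) U)) = F U := by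
      congr 1
      funext e
      unfold tr
      rw [add_assoc, ← sv_add]
      have : sv τ (1 + -1 : ZMod (2 * m)) = 0 := by
        rw [add_neg_cancel]; unfold sv; simp
      rw [this, add_zero]
    rw [← h1, hFφ]
    exact hB _
  have hz' : |z| ≤ B := by
    have u1 : Zt μ L β F ≤ B * Z := by
      have := Zt_mono μ (L := L) (β := β) (F := F) (H := fun _ => B * 1) hFc continuous_const
        fun U => by rw [mul_one]; exact (le_abs_self _).trans (hFabs U)
      rwa [Zt_smul, ← hZ] at this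
    have u2 : -B * Z ≤ Zt μ L β F := by
      have := Zt_mono μ (L := L) (β := β) (F := fun _ => -B * 1) (H := F) continuous_const hFc
        fun U => by rw [mul_one]; exact (abs_le.1 (hFabs U)).1
      rwa [Zt_smul, ← hZ] at this
    rw [hz, abs_div, abs_of_pos hZ0, div_le_iff₀ hZ0, abs_le]
    constructor <;> linarith
  have htc : ∀ t : ZMod (2 * m), tc μ L β τ F t * Z = cor μ L β τ (fun U => F U - z) t :=
    fun t => by rw [hz, hZ]; exact tc_eq μ β hFc t
  obtain ⟨f, hf⟩ : ∃ f : (Ed d (2 * m) → G) → ℝ, f = fun U => F U - z := ⟨_, rfl⟩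
  have hfc : Continuous f := by rw [hf]; exact hFc.sub continuous_const
  have hfg : GI f := fun γ U => by
    rw [hf]
    show F (gt γ U) - z = F U - z
    rw [hFg γ U]
  have hfs : Sp τ f := fun U U' h => by
    rw [hf]
    show F U - z = F U' - z
    rw [hFs U U' h]
  rw [← hf] at htc
  -- the lower bound
  have hcφ : Continuous fun (U : Ed d (2 * m) → G) => fun i => U (φ i) :=
    continuous_pi fun i => continuous_apply _
  obtain ⟨Λ, hΛ⟩ : ∃ Λ : Finset (Ed d (2 * m)), Λ = Finset.univ.image φ := ⟨_, rfl⟩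
  have hφΛ : ∀ i, φ i ∈ Λ := fun i => by
    rw [hΛ]; exact Finset.mem_image_of_mem _ (Finset.mem_univ _)
  have hΛJ : Λ ⊆ (TR hm τ).J := by
    intro e he
    rw [hΛ] at he
    obtain ⟨i, -, rfl⟩ := Finset.mem_image.1 he
    exact hφJ i
  have hlow : κ * Z ≤ cor μ L β τ f 1 := by
    obtain ⟨c, hc, hc1, hc2⟩ := half μ (L := L) (τ := τ) hm β
    have h1 := gen_low μ (L := L) (τ := τ) hm hΛJ hβ.le (F := fun U => F0 fun i => U (φ i))
      (P := fun U => ev L P fun i => U (φ i)) (hF0.comp hcφ) ((ev_cont P).comp hcφ)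
      (fun U U' h => by
        have : (fun i => U (φ i)) = fun i => U' (φ i) := funext fun i => h _ (hφΛ i)
        show F0 _ = F0 _
        rw [this]) hB0 (fun U => hB _) (K := K) (v0 := v0) (v := v) (cP := cP)
      (e := ε) (z := z)
      (by
        rw [hK, hΛ]
        exact_mod_cast Finset.card_image_le) hv0 hv
      (fun x => by
        refine (hvar x).trans (le_of_eq ?_)
        exact (integral_marg μ φ hφ (f := fun u => (F0 u - x) ^ 2)
          ((hF0.sub continuous_const).pow 2)).symm)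
      hcP0 (by
        rw [hcP]
        exact good_ev μ hΛJ hβ hφΛ (Sm_cont _) (wR_dep hm β τ) P)
      (fun U => hP _) hε hz'
    rw [← hκ] at h1
    have h2 := hc2 f hfc hfg hfs
    have h3 : (fun U : Ed d (2 * m) → G => f (tr (sv τ 1) U) * (wR L β m τ).1 U) =
        fun U => ((F0 fun i => U (φ i)) - z) * (wR L β m τ).1 U := by
      funext U
      rw [hf]
      show (F (tr (sv τ 1) U) - z) * _ = _
      rw [hFφ]
    rw [h3] at h2
    rw [h2, hZ, hc1]
    calc κ * (c * _) = c * (κ * _) := by ring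
      _ ≤ _ := mul_le_mul_of_nonneg_left h1 hc.le
  have h10 := cor_one_le μ (L := L) (τ := τ) β hfc 1
  have hpos : 0 < cor μ L β τ f 0 := lt_of_lt_of_le (mul_pos hκ0 hZ0) (hlow.trans h10)
  have hup : cor μ L β τ f 0 ≤ B ^ 2 * Z := by
    rw [cor_zero]
    have h1 : (fun U => f U ^ 2) = fun U => (F U ^ 2 + (-(2 * z)) * F U) + z ^ 2 * 1 := by
      rw [hf]; funext U; ring
    have c1 : Continuous fun U => F U ^ 2 := hFc.pow 2
    have c2 : Continuous fun U => (-(2 * z)) * F U := continuous_const.mul hFc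
    have c3 : Continuous fun U => F U ^ 2 + (-(2 * z)) * F U := c1.add c2
    have c4 : Continuous fun _ : Ed d (2 * m) → G => z ^ 2 * (1 : ℝ) := continuous_const
    rw [h1, Zt_add μ c3 c4, Zt_add μ c1 c2, Zt_smul, Zt_smul, ← hZ]
    have hzZ : Zt μ L β F = z * Z := by rw [hz]; field_simp
    rw [hzZ]
    have h2 : Zt μ L β (fun U => F U ^ 2) ≤ B ^ 2 * Z := by
      have h3 : Zt μ L β (fun U => F U ^ 2) ≤
          Zt μ L β (fun _ : Ed d (2 * m) → G => B ^ 2 * 1) := by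
        refine Zt_mono μ c1 continuous_const fun U => ?_
        rw [mul_one, ← sq_abs]
        exact pow_le_pow_left₀ (abs_nonneg _) (hFabs U) 2
      rw [Zt_smul, ← hZ] at h3
      exact h3
    nlinarith [mul_nonneg (sq_nonneg z) hZ0.le]
  have hr0 : 0 < κ / B ^ 2 := by positivity
  have hr1 : κ / B ^ 2 * cor μ L β τ f 0 ≤ cor μ L β τ f 1 := by
    calc _ ≤ κ / B ^ 2 * (B ^ 2 * Z) := mul_le_mul_of_nonneg_left hup hr0.le
      _ = κ * Z := by field_simp
      _ ≤ _ := hlow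
  have hdec := fun t (ht : t ≤ 2 * m) => decay μ (L := L) (τ := τ) hm hβ.le hfc hfg hfs
    hr0 hpos hr1 (t := t) ht
  constructor
  · have h1 : κ * Z ≤ tc μ L β τ F 0 * Z := by
      rw [htc]
      exact hlow.trans h10
    exact le_of_mul_le_mul_right h1 hZ0
  · intro t ht
    have h1 := hdec t ht
    rw [← htc, ← htc, ← mul_assoc] at h1
    have h2 := le_of_mul_le_mul_right h1 hZ0
    exact h2

/-- `log⁺ (1 / β)` -/
def lp1 (β : ℝ) : ℝ := max 0 (Real.log (1 / β))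

lemma lp1_nonneg (β : ℝ) : 0 ≤ lp1 β := le_max_left _ _

lemma cw_le {β : ℝ} (hβ : 0 < β) (K : ℕ) :
    cw β K ≤ Real.sqrt (K.factorial : ℝ) * Real.exp (K * lp1 β) := by
  unfold cw
  have h1 : (K.factorial : ℝ) / β ^ K = K.factorial * (1 / β) ^ K := by
    rw [one_div, inv_pow, div_eq_mul_inv]
  rw [h1, Real.sqrt_mul (by positivity)]
  refine mul_le_mul_of_nonneg_left ?_ (Real.sqrt_nonneg _)
  have h2 : (1 / β) ^ K = Real.exp (K * Real.log (1 / β)) := by
    rw [Real.exp_nat_mul, Real.exp_log (by positivity)]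
  have h3 : (1 / β) ^ K ≤ Real.exp (K * lp1 β) := by
    rw [h2]
    apply Real.exp_le_exp.2
    exact mul_le_mul_of_nonneg_left (le_max_right _ _) (Nat.cast_nonneg K)
  have h4 : 1 ≤ Real.exp (K * lp1 β) :=
    Real.one_le_exp (mul_nonneg (Nat.cast_nonneg K) (lp1_nonneg β))
  rw [Real.sqrt_le_left (by positivity)]
  refine h3.trans ?_
  nlinarith

lemma ce_le (P : List (ℝ × List (ι × Cx N))) :
    ∃ A : ℝ, 0 ≤ A ∧ ∀ β : ℝ, 0 < β → ce β P ≤ A * Real.exp (A * lp1 β) := by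
  induction P with
  | nil =>
    refine ⟨0, le_rfl, fun β _ => ?_⟩
    have e2 : ce β ([] : List (ℝ × List (ι × Cx N))) = 0 := rfl
    rw [e2, zero_mul]
  | cons p P ih =>
    obtain ⟨A, hA, h⟩ := ih
    obtain ⟨K, hK⟩ : ∃ K, K = p.2.length := ⟨_, rfl⟩
    obtain ⟨a, ha⟩ : ∃ a, a = |p.1| * Real.sqrt (K.factorial : ℝ) := ⟨_, rfl⟩
    have ha0 : 0 ≤ a := by rw [ha]; positivity
    refine ⟨A + a + K, by positivity, fun β hβ => ?_⟩
    have e2 : ce β (p :: P) = |p.1| * cw β K + ce β P := by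
      rw [hK]
      unfold ce; simp
    have h1 := h β hβ
    have h2 := mul_le_mul_of_nonneg_left (cw_le hβ K) (abs_nonneg p.1)
    have h3 := lp1_nonneg β
    have h4 : Real.exp (K * lp1 β) ≤ Real.exp ((A + a + K) * lp1 β) := by
      apply Real.exp_le_exp.2
      refine mul_le_mul_of_nonneg_right ?_ h3
      linarith
    have h5 : Real.exp (A * lp1 β) ≤ Real.exp ((A + a + K) * lp1 β) := by
      apply Real.exp_le_exp.2
      refine mul_le_mul_of_nonneg_right ?_ h3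
      have : (0 : ℝ) ≤ K := Nat.cast_nonneg K
      linarith
    rw [e2]
    calc |p.1| * cw β K + ce β P ≤ |p.1| * (Real.sqrt (K.factorial : ℝ) * Real.exp (K * lp1 β)) +
          A * Real.exp (A * lp1 β) := add_le_add h2 h1
      _ = a * Real.exp (K * lp1 β) + A * Real.exp (A * lp1 β) := by rw [ha]; ring
      _ ≤ a * Real.exp ((A + a + K) * lp1 β) + A * Real.exp ((A + a + K) * lp1 β) :=
          add_le_add (mul_le_mul_of_nonneg_left h4 ha0) (mul_le_mul_of_nonneg_left h5 hA)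
      _ = (A + a) * Real.exp ((A + a + K) * lp1 β) := by ring
      _ ≤ _ := by
          refine mul_le_mul_of_nonneg_right ?_ (Real.exp_pos _).le
          have : (0 : ℝ) ≤ K := Nat.cast_nonneg K
          linarith

/-- **The time correlations of an observable which is not constant decay at most exponentially,
uniformly in the volume and locally uniformly in the coupling; the rate is of order
`log (1 / β)` at `β → 0`.** -/
theorem fin_genU [μ.IsOpenPosMeasure] (hinj : Function.Injective L.rho) {F0 : (ι → G) → ℝ}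
    (hF0 : Continuous F0) (hne : ∃ u u', F0 u ≠ F0 u') (d : ℕ) {b : ℝ} (hb : 0 < b) :
    ∃ A : ℝ, 0 ≤ A ∧ ∀ β : ℝ, 0 < β → β ≤ b →
      ∀ (m : ℕ) [NeZero m] (hm : 2 ≤ m) (τ : Fin d) (φ : ι → Ed d (2 * m)),
      Function.Injective φ → (∀ i, φ i ∈ (TR hm τ).J) → ∀ F : (Ed d (2 * m) → G) → ℝ,
      Continuous F → GI F → Sp τ F → (∀ U, F (tr (sv τ 1) U) = F0 fun i => U (φ i)) →
      Real.exp (-(A * (1 + lp1 β))) ≤ tc μ L β τ F 0 ∧ ∀ t : ℕ, t ≤ 2 * m →
        Real.exp (-(A * (1 + lp1 β) * t)) * tc μ L β τ F 0 ≤ tc μ L β τ F (t : ZMod (2 * m)) := by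
  obtain ⟨v0, hv0, hvar⟩ := var_pos (Measure.pi fun _ : ι => μ) hF0 hne
  obtain ⟨B, hB0, hB⟩ : ∃ B : ℝ, 0 < B ∧ ∀ u, |F0 u| ≤ B := by
    obtain ⟨B, hB⟩ := isCompact_univ.exists_bound_of_continuousOn hF0.continuousOn
    refine ⟨|B| + 1, by positivity, fun u => ?_⟩
    have h1 := hB u (Set.mem_univ _)
    rw [Real.norm_eq_abs] at h1
    linarith [le_abs_self B]
  obtain ⟨K, hK⟩ : ∃ K : ℝ, K = Fintype.card ι := ⟨_, rfl⟩
  have hK0 : 0 ≤ K := by rw [hK]; positivity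
  obtain ⟨vb, hvb⟩ : ∃ v, v = Real.exp (-(b * (4 * d * N * K))) * v0 := ⟨_, rfl⟩
  have hvbp : 0 < vb := by rw [hvb]; positivity
  obtain ⟨P, hP⟩ := stone (L := L) hinj hF0 (ε := vb / (8 * B)) (by positivity)
  obtain ⟨A1, hA1, hce⟩ := ce_le P
  obtain ⟨g, hg⟩ : ∃ g, g = vb ^ 2 * Real.exp (-(b * (N * K))) / (16 * (1 + A1 + B) ^ 2) := ⟨_, rfl⟩
  have hg0 : 0 < g := by rw [hg]; positivity
  refine ⟨|Real.log g| + |Real.log (g / B ^ 2)| + 2 * A1, by positivity,
    fun β hβ hβb m _ hm τ φ hφ hφJ F hFc hFg hFs hFφ => ?_⟩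
  obtain ⟨ℓ, hℓ⟩ : ∃ ℓ, ℓ = lp1 β := ⟨_, rfl⟩
  have hℓ0 : 0 ≤ ℓ := by rw [hℓ]; exact lp1_nonneg β
  obtain ⟨v, hv⟩ : ∃ v, v = Real.exp (-(β * (4 * d * N * K))) * v0 := ⟨_, rfl⟩
  have hvv : vb ≤ v := by
    rw [hv, hvb]
    refine mul_le_mul_of_nonneg_right (Real.exp_le_exp.2 (neg_le_neg ?_)) hv0.le
    exact mul_le_mul_of_nonneg_right hβb (by positivity)
  have hε : vb / (8 * B) * (8 * B) ≤ v := by
    rw [div_mul_cancel₀ _ (by positivity)]
    exact hvv
  obtain ⟨h1, h2⟩ := fin_core μ (L := L) hF0 d hβ hv0 hvar hB0 hB hK hv hε hP m hm τ φ hφ hφJ F hFc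
    hFg hFs hFφ
  obtain ⟨κ, hκ⟩ : ∃ κ, κ = min (v ^ 2 / (4 * B ^ 2)) (v ^ 2 / (16 * (ce β P + 1) ^ 2)) *
        Real.exp (-(β * (N * K))) := ⟨_, rfl⟩
  rw [← hκ] at h1 h2
  have hce0 := ce_nonneg β P
  have hce1 := hce β hβ
  rw [← hℓ] at hce1 ⊢
  have he1 : 1 ≤ Real.exp (A1 * ℓ) := Real.one_le_exp (by positivity)
  have hsum : ce β P + 1 + B ≤ (1 + A1 + B) * Real.exp (A1 * ℓ) := by
    have u1 : (1 + B) * 1 ≤ (1 + B) * Real.exp (A1 * ℓ) :=
      mul_le_mul_of_nonneg_left he1 (by positivity)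
    linarith
  have hsum0 : 0 < ce β P + 1 + B := by positivity
  have hmin : vb ^ 2 / (16 * (ce β P + 1 + B) ^ 2) ≤
      min (v ^ 2 / (4 * B ^ 2)) (v ^ 2 / (16 * (ce β P + 1) ^ 2)) := by
    refine le_min ?_ ?_
    · apply div_le_div₀ (by positivity) (pow_le_pow_left₀ hvbp.le hvv 2) (by positivity)
      nlinarith
    · apply div_le_div₀ (by positivity) (pow_le_pow_left₀ hvbp.le hvv 2) (by positivity)
      have : (ce β P + 1) ^ 2 ≤ (ce β P + 1 + B) ^ 2 :=
        pow_le_pow_left₀ (by positivity) (by linarith) 2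
      linarith
  have hκg : g * Real.exp (-(2 * A1 * ℓ)) ≤ κ := by
    have u1 : g * Real.exp (-(2 * A1 * ℓ)) = vb ^ 2 /
        (16 * ((1 + A1 + B) * Real.exp (A1 * ℓ)) ^ 2) * Real.exp (-(b * (N * K))) := by
      rw [hg, mul_pow, ← Real.exp_nat_mul, Real.exp_neg (2 * A1 * ℓ)]
      have : ((2 : ℕ) : ℝ) * (A1 * ℓ) = 2 * A1 * ℓ := by push_cast; ring
      rw [this]
      field_simp
    rw [u1, hκ]
    refine mul_le_mul ?_ (Real.exp_le_exp.2 (neg_le_neg ?_)) (Real.exp_pos _).le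
      (le_min (by positivity) (by positivity))
    · refine le_trans ?_ hmin
      apply div_le_div_of_nonneg_left (by positivity) (by positivity)
      have := pow_le_pow_left₀ hsum0.le hsum 2
      linarith
    · exact mul_le_mul_of_nonneg_right hβb (by positivity)
  have hlog : ∀ y : ℝ, 0 < y → |Real.log y| ≤ |Real.log g| + |Real.log (g / B ^ 2)| →
      Real.exp (-((|Real.log g| + |Real.log (g / B ^ 2)| + 2 * A1) * (1 + ℓ))) ≤
        y * Real.exp (-(2 * A1 * ℓ)) := by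
    intro y hy hyl
    rw [show y * Real.exp (-(2 * A1 * ℓ)) = Real.exp (Real.log y + -(2 * A1 * ℓ)) by
      rw [Real.exp_add, Real.exp_log hy]]
    apply Real.exp_le_exp.2
    have u1 : -|Real.log y| ≤ Real.log y := neg_abs_le _
    have u2 : 0 ≤ (|Real.log g| + |Real.log (g / B ^ 2)|) * ℓ := by positivity
    nlinarith
  have c1 := hlog g hg0 (by linarith [abs_nonneg (Real.log (g / B ^ 2))])
  have c2 := hlog (g / B ^ 2) (by positivity) (by linarith [abs_nonneg (Real.log g)])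
  have htc : 0 ≤ tc μ L β τ F 0 := le_trans (le_trans (Real.exp_pos _).le (c1.trans hκg)) h1
  refine ⟨(c1.trans hκg).trans h1, fun t ht => ?_⟩
  refine le_trans (mul_le_mul_of_nonneg_right ?_ htc) (h2 t ht)
  have c3 : Real.exp (-((|Real.log g| + |Real.log (g / B ^ 2)| + 2 * A1) * (1 + ℓ))) ≤
      κ / B ^ 2 := by
    refine c2.trans ?_
    rw [div_mul_eq_mul_div]
    exact div_le_div_of_nonneg_right hκg (by positivity)
  calc Real.exp (-((|Real.log g| + |Real.log (g / B ^ 2)| + 2 * A1) * (1 + ℓ) * t)) =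
      Real.exp (-((|Real.log g| + |Real.log (g / B ^ 2)| + 2 * A1) * (1 + ℓ))) ^ t := by
        rw [← Real.exp_nat_mul]
        congr 1
        ring
    _ ≤ _ := pow_le_pow_left₀ (Real.exp_pos _).le c3 t

end

end Pool.Agent.U508.YMF
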