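import Mathlib
import Pool.Agent.Y14.Main
import Pool.Agent.U508.YMF.Fin

/-!
# Lattice Yang-Mills theory: the mass is finite at every coupling
-/

open MeasureTheory Matrix Filter
open Pool.Agent.Y14.Wilson
open scoped Matrix.Norms.Frobenius Topology

namespace Pool.Agent.U508.YMF

set_option linter.unusedSectionVars false

noncomputable section

open Pool.Agent Pool.Agent.H906R3 Pool.Agent.W793 Pool.Agent.TH618

variable {N d l D : ℕ} {G : Subgroup (UU N)}

/-- The abstract data of the group, without the Lie algebra. -/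
def ld0 (G : Subgroup (UU N)) : YM.LD G N 0 where
  rho := YM.rhoG G
  cont := YM.rhoG_cont
  unit := YM.rhoG_unit
  X := fun a => a.elim0
  ex := fun a => a.elim0
  ex_add := fun a => a.elim0
  deriv_ex := fun a => a.elim0
  orth := fun a => a.elim0
  conj_mem := fun _ a => a.elim0
  brk_mem := fun a => a.elim0

lemma action_eq0 [NeZero l] (U : Link d l → G) : action U = YM.act (ld0 G) U := rfl

section bridge

variable [CompactSpace G] [SecondCountableTopology G] [MeasurableSpace G] [BorelSpace G]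
  (μ : Measure G) [IsProbabilityMeasure μ] [μ.IsHaarMeasure]

lemma expect_eq0 [NeZero l] (β : ℝ) (F : (LinkZ d → G) → ℝ) : expect l μ β F =
    YM.Zt μ (ld0 G) β (fun U : YM.Ed d l → G => F (YM.lf U)) /
      YM.Zt μ (ld0 G) β (fun _ : YM.Ed d l → G => 1) := by
  unfold expect YM.Zt
  simp only [one_mul]
  rfl

lemma action_cont0 [NeZero l] : Continuous (action : (Link d l → G) → ℝ) :=
  YM.act_cont (L := ld0 G)

/-- existence of infinite volume limits -/
lemma exists_infVol0 (β : ℝ) : ∃ ν : Measure (LinkZ (D + 1) → G), IsInfVol μ β ν := by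
  have hP : ∀ j : ℕ, ∃ P : ProbabilityMeasure (LinkZ (D + 1) → G),
      ∀ F : (LinkZ (D + 1) → G) → ℝ, Continuous F →
        ∫ V, F V ∂(P : Measure (LinkZ (D + 1) → G)) = expect (2 * (j + 1)) μ β F := by
    intro j
    have hper : Continuous (per : (Link (D + 1) (2 * (j + 1)) → G) → LinkZ (D + 1) → G) :=
      continuous_pi fun e => continuous_apply _
    have hexp : Continuous fun U : Link (D + 1) (2 * (j + 1)) → G =>
        Real.exp (-(β * action U)) :=
      Real.continuous_exp.comp (continuous_const.mul action_cont0).neg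
    have hint : Integrable (fun U : Link (D + 1) (2 * (j + 1)) → G =>
        Real.exp (-(β * action U))) (Measure.pi fun _ => μ) :=
      hexp.integrable_of_hasCompactSupport (HasCompactSupport.of_compactSpace _)
    have h1 := isProbabilityMeasure_tilted (f := fun U : Link (D + 1) (2 * (j + 1)) → G =>
      -(β * action U)) hint
    refine ⟨⟨((Measure.pi fun _ => μ).tilted fun U : Link (D + 1) (2 * (j + 1)) → G =>
      -(β * action U)).map per, Measure.isProbabilityMeasure_map hper.aemeasurable⟩,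
      fun F hF => ?_⟩
    show ∫ V, F V ∂(((Measure.pi fun _ => μ).tilted fun U : Link (D + 1) (2 * (j + 1)) → G =>
      -(β * action U)).map per) = _
    rw [integral_map hper.aemeasurable hF.aestronglyMeasurable, integral_tilted]
    unfold expect
    rw [← integral_div]
    refine integral_congr_ae (Filter.Eventually.of_forall fun U => ?_)
    simp only [smul_eq_mul]
    ring
  choose P hP using hP
  obtain ⟨ν, φ, hφ, hlim⟩ := CompactSpace.tendsto_subseq P
  refine ⟨ν, ⟨inferInstance, φ, hφ.tendsto_atTop, fun R F hF => ?_⟩⟩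
  have h1 := (ProbabilityMeasure.tendsto_iff_forall_integral_tendsto.1 hlim)
    (BoundedContinuousFunction.mkOfCompact ⟨F, hF.cont⟩)
  simp only [Function.comp_apply, BoundedContinuousFunction.mkOfCompact_apply,
    ContinuousMap.coe_mk] at h1
  simpa only [hP _ F hF.cont] using h1

/-- the truncated correlation of the observable `F` in terms of the helper files -/
lemma corr_tc {m : ℕ} [NeZero m] (β : ℝ) {F : (LinkZ (D + 1) → G) → ℝ}
    {F0 : (YM.Ed (D + 1) (2 * m) → G) → ℝ} (h : ∀ U, F (YM.lf U) = F0 U) (t : ℕ) :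
    corr (2 * m) μ β F t = tc μ (ld0 G) β (Fin.last D) F0 (t : ZMod (2 * m)) := by
  have := right_inv μ
  have := inv_inv' μ
  have hsh : ∀ (U : YM.Ed (D + 1) (2 * m) → G), F (shift t (YM.lf U)) =
      F0 (YM.tr (YM.sv (Fin.last D) (t : ZMod (2 * m))) U) := by
    intro U
    rw [← h]
    exact congrArg F (YM.tz_lf (Fin.last D) t U)
  unfold corr tc
  rw [expect_eq0 μ, expect_eq0 μ, expect_eq0 μ]
  simp only [h, hsh]
  rw [YM.Zt_tr μ β _ F0, pow_two]

end bridge

/-! ### the plaquette -/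

section plaq

variable [CompactSpace G] [SecondCountableTopology G] [MeasurableSpace G] [BorelSpace G]
  {i j : Fin (D + 1)}

lemma plaqO_cont (i j : Fin d) : Continuous (plaqO (G := G) i j) := by
  unfold plaqO
  refine Complex.continuous_re.comp (Continuous.matrix_trace ?_)
  refine (continuous_subtype_val.comp continuous_subtype_val).comp ?_
  fun_prop

lemma mt_mul (g h : G) : mt (g * h) = mt g * mt h := rfl

lemma plaqO_local (i j : Fin d) : IsLocal 2 (plaqO (G := G) i j) where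
  cont := plaqO_cont i j
  inv γ V := by
    have h1 : Y14.Wilson.gauge γ V (0, i) * Y14.Wilson.gauge γ V (Pi.single i 1, j) *
        (Y14.Wilson.gauge γ V (Pi.single j 1, i))⁻¹ * (Y14.Wilson.gauge γ V (0, j))⁻¹ =
        γ 0 * (V (0, i) * V (Pi.single i 1, j) * (V (Pi.single j 1, i))⁻¹ * (V (0, j))⁻¹) *
          (γ 0)⁻¹ := by
      unfold Y14.Wilson.gauge
      simp only [zero_add]
      have h2 : (Pi.single j 1 + Pi.single i 1 : Fin d → ℤ) = Pi.single i 1 + Pi.single j 1 :=
        add_comm _ _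
      rw [h2]
      group
    unfold plaqO
    rw [h1]
    exact rtr_conj (L := ld0 G) _ _
  loc V V' h := by
    have hs : ∀ k i' : Fin d, 0 ≤ (Pi.single k 1 : Fin d → ℤ) i' ∧
        (Pi.single k 1 : Fin d → ℤ) i' < (2 : ℕ) := by
      intro k i'
      by_cases hk : i' = k
      · subst hk; simp
      · simp [hk]
    have h0 : ∀ i' : Fin d, 0 ≤ (0 : Fin d → ℤ) i' ∧ (0 : Fin d → ℤ) i' < (2 : ℕ) := by
      intro i'; simp
    unfold plaqO
    rw [h (0, i) h0, h (Pi.single i 1, j) (hs i), h (Pi.single j 1, i) (hs j), h (0, j) h0]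

lemma plaqO_time (hi : i ≠ Fin.last D) (hj : j ≠ Fin.last D) :
    AtTimeZero (plaqO (G := G) i j) := by
  intro V V' h
  have hs : ∀ k : Fin (D + 1), k ≠ Fin.last D → (Pi.single k 1 : Fin (D + 1) → ℤ) (Fin.last D) =
      0 := by
    intro k hk
    simp [hk.symm]
  unfold plaqO
  rw [h (0, i) rfl hi, h (Pi.single i 1, j) (hs i hi) hj, h (Pi.single j 1, i) (hs j hj) hi,
    h (0, j) rfl hj]

lemma plaqO_lf {l : ℕ} (U : YM.Ed d l → G) (i j : Fin d) :
    plaqO i j (YM.lf U) = rtr (ld0 G) (YM.plqT U 0 i j) := by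
  have hs : ∀ k : Fin d, (fun i' => (((Pi.single k 1 : Fin d → ℤ) i' : ℤ) : ZMod l)) =
      0 + YM.eT k := by
    intro k
    funext i'
    by_cases hk : i' = k
    · subst hk; simp [YM.eT]
    · simp [YM.eT, hk]
  have h0 : (fun i' : Fin d => (((0 : Fin d → ℤ) i' : ℤ) : ZMod l)) = 0 := by
    funext i'; simp
  have e : YM.lf U (0, i) * YM.lf U (Pi.single i 1, j) * (YM.lf U (Pi.single j 1, i))⁻¹ *
      (YM.lf U (0, j))⁻¹ = YM.plqT U 0 i j := by
    unfold YM.lf YM.plqT
    simp only [hs, h0]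
  unfold plaqO
  rw [e]
  rfl

end plaq

lemma rho_ne (hne : G ≠ ⊥) : ∃ g : G, (ld0 G).rho g ≠ 1 := by
  by_contra hcon
  push Not at hcon
  refine hne ((Subgroup.eq_bot_iff_forall _).2 fun x hx => ?_)
  have h1 : ((⟨x, hx⟩ : G) : UU N).1 = 1 := hcon ⟨x, hx⟩
  exact Subtype.ext h1

lemma N_pos (hne : G ≠ ⊥) : 1 ≤ N := by
  rcases Nat.eq_zero_or_pos N with h | h
  · subst h
    exfalso
    refine hne ((Subgroup.eq_bot_iff_forall _).2 fun x _ => ?_)
    exact Subsingleton.elim _ _
  · exact h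

/-- The mass is finite at every coupling. -/
theorem main {N D : ℕ} (G : Subgroup (UU N)) (hG : IsClosed (G : Set (UU N))) (hne : G ≠ ⊥)
    [MeasurableSpace G] [BorelSpace G] (μ : Measure G) [IsProbabilityMeasure μ] [μ.IsHaarMeasure]
    (hD : 2 ≤ D) {β : ℝ} (hβ : 0 < β) :
    (∀ i j : Fin (D + 1), i ≠ Fin.last D → j ≠ Fin.last D → i ≠ j →
      IsLocal 2 (plaqO (G := G) i j) ∧ AtTimeZero (plaqO (G := G) i j) ∧
      (∀ (l : ℕ) [NeZero l], Even l → 4 ≤ l →
        Real.exp (-massBound N (D + 1) β) ≤ corr l μ β (plaqO i j) 0 ∧ ∀ t : ℕ, t ≤ l →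
          Real.exp (-(massBound N (D + 1) β * t)) * corr l μ β (plaqO i j) 0 ≤
            corr l μ β (plaqO i j) t) ∧
      ∀ ν : Measure (LinkZ (D + 1) → G), IsInfVol μ β ν →
        Real.exp (-massBound N (D + 1) β) ≤ corrZ ν (plaqO i j) 0 ∧
        ∀ t : ℕ, Real.exp (-(massBound N (D + 1) β * t)) * corrZ ν (plaqO i j) 0 ≤
            corrZ ν (plaqO i j) t) ∧
      (∀ M : ℝ, Clusters D μ β M → M ≤ massBound N (D + 1) β) ∧
      (∀ ν : Measure (LinkZ (D + 1) → G), IsInfVol μ β ν → ∀ M : ℝ, ClustersZ ν M →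
        M ≤ massBound N (D + 1) β) ∧
      ∃ ν : Measure (LinkZ (D + 1) → G), IsInfVol μ β ν := by
  have : CompactSpace G := by
    have h1 : IsCompact (G : Set (UU N)) := hG.isCompact
    exact isCompact_iff_compactSpace.1 h1
  have h00 : SecondCountableTopology (UU N) := TopologicalSpace.Subtype.secondCountableTopology _
  have : SecondCountableTopology G := TopologicalSpace.Subtype.secondCountableTopology _
  have := right_inv μ
  have := inv_inv' μ
  have hN : 1 ≤ N := N_pos hne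
  obtain ⟨M0, hM0⟩ : ∃ M0, M0 = massBound N (D + 1) β := ⟨_, rfl⟩
  rw [← hM0]
  have hfin : ∀ i j : Fin (D + 1), i ≠ Fin.last D → j ≠ Fin.last D → i ≠ j →
      ∀ (l : ℕ) [NeZero l], Even l → 4 ≤ l →
        Real.exp (-M0) ≤ corr l μ β (plaqO i j) 0 ∧ ∀ t : ℕ, t ≤ l →
          Real.exp (-(M0 * t)) * corr l μ β (plaqO i j) 0 ≤ corr l μ β (plaqO i j) t := by
    intro i j hi hj hij l _ hl hl4
    obtain ⟨m, rfl⟩ := even_iff_two_dvd.1 hl
    have hm0 : NeZero m := ⟨by rintro rfl; omega⟩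
    obtain ⟨h1, h2⟩ := fin_plq μ (L := ld0 G) (d := D + 1) (m := m) (τ := Fin.last D) (by omega)
      hi hj hij (rho_ne hne) hN hβ
    have hc : ∀ t : ℕ, corr (2 * m) μ β (plaqO i j) t = tc μ (ld0 G) β (Fin.last D)
        (fun U : YM.Ed (D + 1) (2 * m) → G => rtr (ld0 G) (YM.plqT U 0 i j))
        (t : ZMod (2 * m)) := fun t => corr_tc μ β (fun U => plaqO_lf U i j) t
    have hc0 := hc 0
    rw [Nat.cast_zero] at hc0
    rw [← hc0, ← hM0] at h1
    refine ⟨h1, fun t ht => ?_⟩
    rw [hc0, hc t, hM0]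
    exact h2 t ht
  have hinf : ∀ i j : Fin (D + 1), i ≠ Fin.last D → j ≠ Fin.last D → i ≠ j →
      ∀ ν : Measure (LinkZ (D + 1) → G), IsInfVol μ β ν →
        Real.exp (-M0) ≤ corrZ ν (plaqO i j) 0 ∧
        ∀ t : ℕ, Real.exp (-(M0 * t)) * corrZ ν (plaqO i j) 0 ≤ corrZ ν (plaqO i j) t := by
    intro i j hi hj hij ν hν
    obtain ⟨φ, hφ, hlim⟩ := hν.lim
    have hF := plaqO_local (G := G) i j
    have h1 : ∀ t, Tendsto (fun k => corr (2 * (φ k + 1)) μ β (plaqO i j) t) atTop
        (𝓝 (corrZ ν (plaqO i j) t)) :=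
      fun t => (hlim _ _ (local_mul hF t)).sub
        ((hlim _ _ hF).mul (hlim _ _ (local_shift hF t)))
    refine ⟨ge_of_tendsto (h1 0) ?_, fun t =>
      le_of_tendsto_of_tendsto ((h1 0).const_mul _) (h1 t) ?_⟩
    · filter_upwards [hφ.eventually_ge_atTop 1] with k hk
      exact (hfin i j hi hj hij (2 * (φ k + 1)) (even_two_mul _) (by omega)).1
    · filter_upwards [hφ.eventually_ge_atTop (t + 1)] with k hk
      exact (hfin i j hi hj hij (2 * (φ k + 1)) (even_two_mul _) (by omega)).2 t (by omega)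
  obtain ⟨i, j, hi, hj, hij⟩ : ∃ i j : Fin (D + 1), i ≠ Fin.last D ∧ j ≠ Fin.last D ∧ i ≠ j := by
    refine ⟨⟨0, by omega⟩, ⟨1, by omega⟩, ?_, ?_, ?_⟩ <;>
    · intro h
      have := congrArg Fin.val h
      simp at this
      try omega
  refine ⟨fun i j hi hj hij => ⟨plaqO_local i j, plaqO_time hi hj, hfin i j hi hj hij,
    hinf i j hi hj hij⟩, fun M hM => ?_, fun ν hν M hM => ?_, exists_infVol0 μ β⟩
  · obtain ⟨K, l₀, hK⟩ := hM 2 _ (plaqO_local i j) (plaqO_time hi hj)
    refine rate (K := K) (Real.exp_pos (-M0)) fun t ht => ?_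
    obtain ⟨l, hl⟩ : ∃ l, l = 2 * (l₀ + t + 2) := ⟨_, rfl⟩
    have : NeZero l := ⟨by omega⟩
    have h1 : Even l := by rw [hl]; exact even_two_mul _
    obtain ⟨h2, h3⟩ := hfin i j hi hj hij l h1 (by omega)
    refine le_trans ?_ ((h3 t (by omega)).trans
      ((le_abs_self _).trans (hK l h1 (by omega) t (by omega))))
    rw [mul_comm]
    exact mul_le_mul_of_nonneg_left h2 (Real.exp_pos _).le
  · obtain ⟨K, hK⟩ := hM 2 _ (plaqO_local i j) (plaqO_time hi hj)
    obtain ⟨h2, h3⟩ := hinf i j hi hj hij ν hν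
    refine rate (K := K) (Real.exp_pos (-M0)) fun t ht => ?_
    rw [mul_comm]
    exact ((mul_le_mul_of_nonneg_left h2 (Real.exp_pos _).le).trans (h3 t)).trans
      ((le_abs_self _).trans (hK t))

end

end Pool.Agent.U508.YMF
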