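import Mathlib
import Pool.Agent.U508.YMF.FinGen
import Pool.Agent.U508.YMF.Main

/-!
# The mass in the channel of every observable is finite
-/

open MeasureTheory Matrix Filter
open Pool.Agent.Y14.Wilson
open scoped Matrix.Norms.Frobenius Topology

namespace Pool.Agent.U508.YMF

set_option linter.unusedSectionVars false

noncomputable section

open Pool.Agent Pool.Agent.H906R3 Pool.Agent.W793 Pool.Agent.TH618

variable {N d D R : ℕ} {G : Subgroup (UU N)}

/-- the spatial links at time `0` in the box -/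
abbrev Bx (D R : ℕ) : Type :=
  {e : (Fin (D + 1) → Fin R) × Fin (D + 1) // (e.1 (Fin.last D) : ℕ) = 0 ∧ e.2 ≠ Fin.last D}

/-- the link of `ℤ^d` -/
def tZ (e : Bx D R) : LinkZ (D + 1) := (fun i => ((e.1.1 i : ℕ) : ℤ), e.1.2)

lemma tZ_inj : Function.Injective (tZ (D := D) (R := R)) := by
  rintro ⟨⟨x, i⟩, hx⟩ ⟨⟨y, j⟩, hy⟩ h
  unfold tZ at h
  simp only [Prod.mk.injEq] at h
  refine Subtype.ext (Prod.ext ?_ h.2)
  funext k
  have := congrFun h.1 k
  exact Fin.ext (by exact_mod_cast this)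

lemma tZ_surj {e : LinkZ (D + 1)} (h : ∀ i, 0 ≤ e.1 i ∧ e.1 i < R)
    (h0 : e.1 (Fin.last D) = 0) (h1 : e.2 ≠ Fin.last D) : ∃ e' : Bx D R, tZ e' = e := by
  refine ⟨⟨(fun i => ⟨(e.1 i).toNat, ?_⟩, e.2), ?_, h1⟩, ?_⟩
  · have := h i
    omega
  · show ((e.1 (Fin.last D)).toNat) = 0
    rw [h0]; rfl
  · unfold tZ
    refine Prod.ext ?_ rfl
    funext i
    show (((e.1 i).toNat : ℕ) : ℤ) = e.1 i
    exact Int.toNat_of_nonneg (h i).1

open Classical in
/-- extension of a configuration by `1` -/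
def eZ (u : Bx D R → G) : LinkZ (D + 1) → G := fun e =>
  if h : ∃ e' : Bx D R, tZ e' = e then u h.choose else 1

lemma eZ_tZ (u : Bx D R → G) (e : Bx D R) : eZ u (tZ e) = u e := by
  have h : ∃ e' : Bx D R, tZ e' = tZ e := ⟨e, rfl⟩
  unfold eZ
  rw [dif_pos h, tZ_inj h.choose_spec]

lemma eZ_cont : Continuous (eZ : (Bx D R → G) → LinkZ (D + 1) → G) := by
  refine continuous_pi fun e => ?_
  unfold eZ
  by_cases h : ∃ e' : Bx D R, tZ e' = e
  · simp only [dif_pos h]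
    exact continuous_apply _
  · simp only [dif_neg h]
    exact continuous_const

/-- an observable at time `0` depends only on the links of the box -/
lemma dep_box {F : (LinkZ (D + 1) → G) → ℝ} (hF : IsLocal R F) (hT : AtTimeZero F)
    {V V' : LinkZ (D + 1) → G} (h : ∀ e : Bx D R, V (tZ e) = V' (tZ e)) : F V = F V' := by
  classical
  obtain ⟨W, hW⟩ : ∃ W : LinkZ (D + 1) → G, W = fun e =>
    if ∀ i, 0 ≤ e.1 i ∧ e.1 i < (R : ℤ) then V e else V' e := ⟨_, rfl⟩
  have h1 : F V = F W := hF.loc V W fun e he => by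
    rw [hW]
    simp only
    rw [if_pos he]
  have h2 : F W = F V' := hT W V' fun e h0 h3 => by
    rw [hW]
    simp only
    split_ifs with he
    · obtain ⟨e', rfl⟩ := tZ_surj he h0 h3
      exact h e'
    · rfl
  rw [h1, h2]

lemma box_eq {F : (LinkZ (D + 1) → G) → ℝ} (hF : IsLocal R F) (hT : AtTimeZero F)
    (V : LinkZ (D + 1) → G) : F V = F (eZ fun e : Bx D R => V (tZ e)) :=
  dep_box hF hT fun e => by rw [eZ_tZ]

/-- the links on the torus, at time `1` -/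
def tT (D R l : ℕ) (e : Bx D R) : YM.Ed (D + 1) l :=
  ((fun i => (((tZ e).1 i : ℤ) : ZMod l)) + YM.eT (Fin.last D), (tZ e).2)

lemma tT_inj {l : ℕ} (hl : R ≤ l) : Function.Injective (tT D R l) := by
  intro e e' h
  unfold tT at h
  simp only [Prod.mk.injEq, add_left_inj] at h
  refine tZ_inj (Prod.ext ?_ h.2)
  funext i
  have h1 := congrFun h.1 i
  rw [ZMod.intCast_eq_intCast_iff_dvd_sub] at h1
  have h2 : (0 : ℤ) ≤ (tZ e).1 i ∧ (tZ e).1 i < R := ⟨by unfold tZ; positivity, by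
    show (((e.1.1 i : ℕ) : ℤ)) < R
    exact_mod_cast (e.1.1 i).2⟩
  have h3 : (0 : ℤ) ≤ (tZ e').1 i ∧ (tZ e').1 i < R := ⟨by unfold tZ; positivity, by
    show (((e'.1.1 i : ℕ) : ℤ)) < R
    exact_mod_cast (e'.1.1 i).2⟩
  have h4 : (tZ e').1 i - (tZ e).1 i = 0 := by
    refine Int.eq_zero_of_abs_lt_dvd h1 ?_
    rw [abs_lt]
    have : (R : ℤ) ≤ l := by exact_mod_cast hl
    constructor <;> omega
  omega

lemma tT_J {m : ℕ} [NeZero m] (hm : 2 ≤ m) (e : Bx D R) :
    tT D R (2 * m) e ∈ (YM.TR hm (Fin.last D)).J := by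
  have h6 : tT D R (2 * m) e ∈ Finset.univ.filter (fun e : YM.Ed (D + 1) (2 * m) =>
      e.2 ≠ Fin.last D ∧ (e.1 (Fin.last D) = 1 ∨ e.1 (Fin.last D) = (m : ZMod (2 * m)))) := by
    rw [Finset.mem_filter]
    refine ⟨Finset.mem_univ _, e.2.2, Or.inl ?_⟩
    unfold tT tZ YM.eT
    have := e.2.1
    simp [this]
  exact h6

section haar

variable [CompactSpace G] [SecondCountableTopology G] [MeasurableSpace G] [BorelSpace G]
  (μ : Measure G) [IsProbabilityMeasure μ] [μ.IsHaarMeasure]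

/-- **The mass in the channel of every observable is finite.** -/
theorem gen_fin {β : ℝ} (hβ : 0 < β) {F : (LinkZ (D + 1) → G) → ℝ} (hF : IsLocal R F)
    (hT : AtTimeZero F) (hne : ∃ V V', F V ≠ F V') :
    ∃ c M : ℝ, 0 < c ∧ ∀ (l : ℕ) [NeZero l], Even l → 4 ≤ l → R ≤ l →
      c ≤ corr l μ β F 0 ∧ ∀ t : ℕ, t ≤ l →
        Real.exp (-(M * t)) * corr l μ β F 0 ≤ corr l μ β F t := by
  have := right_inv μ
  have := inv_inv' μ
  obtain ⟨F0, hF0⟩ : ∃ F0 : (Bx D R → G) → ℝ, F0 = fun u => F (eZ u) := ⟨_, rfl⟩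
  have hF0c : Continuous F0 := by rw [hF0]; exact hF.cont.comp eZ_cont
  have hFF : ∀ V, F V = F0 fun e => V (tZ e) := fun V => by rw [hF0]; exact box_eq hF hT V
  have hne0 : ∃ u u', F0 u ≠ F0 u' := by
    obtain ⟨V, V', h⟩ := hne
    rw [hFF V, hFF V'] at h
    exact ⟨_, _, h⟩
  have hinj : Function.Injective (ld0 G).rho := fun g h hgh => Subtype.ext (Subtype.ext hgh)
  obtain ⟨c, M, hc, H⟩ := fin_gen μ (L := ld0 G) hinj hF0c hne0 (D + 1) hβ
  refine ⟨c, M, hc, fun l _ hl hl4 hlR => ?_⟩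
  obtain ⟨m, rfl⟩ := even_iff_two_dvd.1 hl
  have hm0 : NeZero m := ⟨by rintro rfl; omega⟩
  have hm : 2 ≤ m := by omega
  have hlf : Continuous (YM.lf : (YM.Ed (D + 1) (2 * m) → G) → LinkZ (D + 1) → G) :=
    continuous_pi fun e => continuous_apply _
  obtain ⟨h1, h2⟩ := H m hm (Fin.last D) (tT D R (2 * m)) (tT_inj hlR) (tT_J hm)
    (fun U => F (YM.lf U)) (hF.cont.comp hlf)
    (fun γ U => by
      have h3 : YM.lf (YM.gt γ U) = Y14.Wilson.gauge
          (fun x => γ (fun i => ((x i : ℤ) : ZMod (2 * m)))) (YM.lf U) := by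
        funext e
        unfold YM.lf YM.gt Y14.Wilson.gauge
        simp only
        congr 3
        funext i
        by_cases hi : i = e.2
        · subst hi; simp [YM.eT]
        · simp [YM.eT, hi]
      show F (YM.lf (YM.gt γ U)) = F (YM.lf U)
      rw [h3, hF.inv])
    (fun U U' h => by
      refine hT _ _ fun e h0 h3 => ?_
      unfold YM.lf
      exact h _ _ (by simp [h0]) h3)
    (fun U => by
      show F (YM.lf (YM.tr (YM.sv (Fin.last D) 1) U)) = _
      rw [hFF]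
      congr 1)
  have hcc : ∀ t : ℕ, corr (2 * m) μ β F t = tc μ (ld0 G) β (Fin.last D)
      (fun U : YM.Ed (D + 1) (2 * m) → G => F (YM.lf U)) (t : ZMod (2 * m)) :=
    fun t => corr_tc μ β (fun U => rfl) t
  have hc0 := hcc 0
  rw [Nat.cast_zero] at hc0
  rw [← hc0] at h1
  refine ⟨h1, fun t ht => ?_⟩
  rw [hc0, hcc t]
  exact h2 t ht

/-- the same in infinite volume -/
theorem gen_inf {β c M : ℝ} {F : (LinkZ (D + 1) → G) → ℝ} (hF : IsLocal R F)
    (H : ∀ (l : ℕ) [NeZero l], Even l → 4 ≤ l → R ≤ l →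
      c ≤ corr l μ β F 0 ∧ ∀ t : ℕ, t ≤ l →
        Real.exp (-(M * t)) * corr l μ β F 0 ≤ corr l μ β F t)
    {ν : Measure (LinkZ (D + 1) → G)} (hν : IsInfVol μ β ν) :
    c ≤ corrZ ν F 0 ∧ ∀ t : ℕ, Real.exp (-(M * t)) * corrZ ν F 0 ≤ corrZ ν F t := by
  obtain ⟨φ, hφ, hlim⟩ := hν.lim
  have h1 : ∀ t, Tendsto (fun k => corr (2 * (φ k + 1)) μ β F t) atTop (𝓝 (corrZ ν F t)) :=
    fun t => (hlim _ _ (local_mul hF t)).sub ((hlim _ _ hF).mul (hlim _ _ (local_shift hF t)))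
  refine ⟨ge_of_tendsto (h1 0) ?_, fun t =>
    le_of_tendsto_of_tendsto ((h1 0).const_mul _) (h1 t) ?_⟩
  · filter_upwards [hφ.eventually_ge_atTop (R + 1)] with k hk
    exact (H (2 * (φ k + 1)) (even_two_mul _) (by omega) (by omega)).1
  · filter_upwards [hφ.eventually_ge_atTop (R + t + 1)] with k hk
    exact (H (2 * (φ k + 1)) (even_two_mul _) (by omega) (by omega)).2 t (by omega)

end haar

end

end Pool.Agent.U508.YMF
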