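import Mathlib
import Pool.Agent.U508.YMF.MainGen
import Pool.Agent.U508.YMF.FinGenU

/-!
# The time correlations of general observables, locally uniformly in the coupling
-/

open MeasureTheory Matrix Filter
open Pool.Agent.Y14.Wilson
open scoped Matrix.Norms.Frobenius Topology

namespace Pool.Agent.U508.YMF

set_option linter.unusedSectionVars false

noncomputable section

open Pool.Agent Pool.Agent.H906R3 Pool.Agent.W793 Pool.Agent.TH618

variable {N d D R : ℕ} {G : Subgroup (UU N)} [CompactSpace G] [SecondCountableTopology G]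
  [MeasurableSpace G] [BorelSpace G] (μ : Measure G) [IsProbabilityMeasure μ] [μ.IsHaarMeasure]

/-- **The mass in the channel of every observable is finite, locally uniformly in the coupling.** -/
theorem gen_finU {b : ℝ} (hb : 0 < b) {F : (LinkZ (D + 1) → G) → ℝ} (hF : IsLocal R F)
    (hT : AtTimeZero F) (hne : ∃ V V', F V ≠ F V') :
    ∃ A : ℝ, 0 ≤ A ∧ ∀ β : ℝ, 0 < β → β ≤ b → ∀ (l : ℕ) [NeZero l], Even l → 4 ≤ l → R ≤ l →
      Real.exp (-(A * (1 + lp1 β))) ≤ corr l μ β F 0 ∧ ∀ t : ℕ, t ≤ l →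
        Real.exp (-(A * (1 + lp1 β) * t)) * corr l μ β F 0 ≤ corr l μ β F t := by
  have := right_inv μ
  have := inv_inv' μ
  obtain ⟨F0, hF0⟩ : ∃ F0 : (Bx D R → G) → ℝ, F0 = fun u => F (eZ u) := ⟨_, rfl⟩
  have hF0c : Continuous F0 := by rw [hF0]; exact hF.cont.comp eZ_cont
  have hFF : ∀ V, F V = F0 fun e => V (tZ e) := fun V => by rw [hF0]; exact box_eq hF hT V
  have hne0 : ∃ u u', F0 u ≠ F0 u' := by
    obtain ⟨V, V', h⟩ := hne
    rw [hFF V, hFF V'] at h
    exact ⟨_, _, h⟩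
  have hinj : Function.Injective (ld0 G).rho := fun g h hgh => Subtype.ext (Subtype.ext hgh)
  obtain ⟨A, hA, H⟩ := fin_genU μ (L := ld0 G) hinj hF0c hne0 (D + 1) hb
  refine ⟨A, hA, fun β hβ hβb l _ hl hl4 hlR => ?_⟩
  obtain ⟨m, rfl⟩ := even_iff_two_dvd.1 hl
  have hm0 : NeZero m := ⟨by rintro rfl; omega⟩
  have hm : 2 ≤ m := by omega
  have hlf : Continuous (YM.lf : (YM.Ed (D + 1) (2 * m) → G) → LinkZ (D + 1) → G) :=
    continuous_pi fun e => continuous_apply _
  obtain ⟨h1, h2⟩ := H β hβ hβb m hm (Fin.last D) (tT D R (2 * m)) (tT_inj hlR) (tT_J hm)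
    (fun U => F (YM.lf U)) (hF.cont.comp hlf)
    (fun γ U => by
      have h3 : YM.lf (YM.gt γ U) = Y14.Wilson.gauge
          (fun x => γ (fun i => ((x i : ℤ) : ZMod (2 * m)))) (YM.lf U) := by
        funext e
        unfold YM.lf YM.gt Y14.Wilson.gauge
        simp only
        congr 3
        funext i
        by_cases hi : i = e.2
        · subst hi; simp [YM.eT]
        · simp [YM.eT, hi]
      show F (YM.lf (YM.gt γ U)) = F (YM.lf U)
      rw [h3, hF.inv])
    (fun U U' h => by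
      refine hT _ _ fun e h0 h3 => ?_
      unfold YM.lf
      exact h _ _ (by simp [h0]) h3)
    (fun U => by
      show F (YM.lf (YM.tr (YM.sv (Fin.last D) 1) U)) = _
      rw [hFF]
      congr 1)
  have hcc : ∀ t : ℕ, corr (2 * m) μ β F t = tc μ (ld0 G) β (Fin.last D)
      (fun U : YM.Ed (D + 1) (2 * m) → G => F (YM.lf U)) (t : ZMod (2 * m)) :=
    fun t => corr_tc μ β (fun U => rfl) t
  have hc0 := hcc 0
  rw [Nat.cast_zero] at hc0
  rw [← hc0] at h1
  refine ⟨h1, fun t ht => ?_⟩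
  rw [hc0, hcc t]
  exact h2 t ht

/-- both ends of the range of couplings -/
theorem gap_all (G : Subgroup (UU N)) [CompactSpace G] [SecondCountableTopology G]
    [MeasurableSpace G] [BorelSpace G] (hG : IsClosed (G : Set (UU N))) (μ : Measure G)
    [IsProbabilityMeasure μ] [μ.IsHaarMeasure] (hD : 2 ≤ D) {n : ℕ} (hn : 1 ≤ n)
    (B : LieBasis G n) : ∃ C : ℝ, ∀ β : ℝ, 0 < β →
      GapLe D μ β (4 * max 0 (Real.log (1 / β)) + C * min 1 (β ^ (-(1 / (D + 1 : ℝ))))) := by
  have hN : 1 ≤ N := by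
    rcases Nat.eq_zero_or_pos N with h | h
    · subst h
      have h1 := B.orth ⟨0, hn⟩ ⟨0, hn⟩
      rw [if_pos rfl] at h1
      have h2 : trace ((B.X ⟨0, hn⟩)ᴴ * B.X ⟨0, hn⟩) = 0 := by
        unfold Matrix.trace
        exact Finset.sum_empty
      rw [h2] at h1
      norm_num at h1
    · exact h
  have hne : G ≠ ⊥ := by
    rintro rfl
    have hX : B.X ⟨0, hn⟩ = 0 := by
      have h0 : ∀ t : ℝ, NormedSpace.exp (t • B.X ⟨0, hn⟩) = 1 := fun t => by
        rw [← B.ex_eq]
        have h1 := (B.ex ⟨0, hn⟩ t).2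
        rw [Subgroup.mem_bot] at h1
        unfold Pool.Agent.Y14.Wilson.mt
        rw [h1]
        rfl
      have h1 : HasDerivAt (fun t : ℝ => NormedSpace.exp (t • B.X ⟨0, hn⟩))
          (NormedSpace.exp ((0 : ℝ) • B.X ⟨0, hn⟩) * B.X ⟨0, hn⟩) 0 :=
        hasDerivAt_exp_smul_const (𝕂 := ℝ) (B.X ⟨0, hn⟩) (0 : ℝ)
      simp only [h0, one_mul] at h1
      exact h1.unique (hasDerivAt_const _ _)
    have h1 := B.orth ⟨0, hn⟩ ⟨0, hn⟩
    rw [if_pos rfl, hX] at h1
    simp at h1
  obtain ⟨C, c, β₀, hC, hc, hβ₀, H⟩ := Pool.Agent.Y14.Wilson.main G hG μ B hn hD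
  have hβ₀0 : 0 < β₀ := by linarith
  obtain ⟨K, hK⟩ : ∃ K : ℝ, K = (32 * (D + 1) + 4) * N * β₀ + Real.log (256 * (N : ℝ) ^ 6) :=
    ⟨_, rfl⟩
  have hK0 : 0 ≤ K := by
    rw [hK]
    have hN1 : (1 : ℝ) ≤ N := by exact_mod_cast hN
    have h1 : 0 ≤ Real.log (256 * (N : ℝ) ^ 6) := by
      apply Real.log_nonneg
      have := one_le_pow₀ (n := 6) hN1
      linarith
    positivity
  obtain ⟨r0, hr0⟩ : ∃ r, r = β₀ ^ (-(1 / (D + 1 : ℝ))) := ⟨_, rfl⟩
  have hr00 : 0 < r0 := by rw [hr0]; positivity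
  obtain ⟨m0, hm0⟩ : ∃ m, m = min 1 r0 := ⟨_, rfl⟩
  have hm00 : 0 < m0 := by rw [hm0]; exact lt_min one_pos hr00
  refine ⟨K / m0 + C + C * r0, fun β hβ => ?_⟩
  obtain ⟨r, hr⟩ : ∃ r, r = β ^ (-(1 / (D + 1 : ℝ))) := ⟨_, rfl⟩
  have hrp : 0 < r := by rw [hr]; positivity
  rw [← hr]
  have hmin : 0 < min 1 r := lt_min one_pos hrp
  rcases le_total β β₀ with h | h
  · obtain ⟨-, h2, h3, -⟩ := main G hG hne μ hD hβ
    have hrr : r0 ≤ r := by
      rw [hr, hr0]
      exact Real.rpow_le_rpow_of_nonpos hβ h (by rw [neg_nonpos]; positivity)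
    have hmm : m0 ≤ min 1 r := by rw [hm0]; exact min_le_min le_rfl hrr
    have key : massBound N (D + 1) β ≤ 4 * max 0 (Real.log (1 / β)) +
        (K / m0 + C + C * r0) * min 1 r := by
      have h4 : massBound N (D + 1) β ≤ 4 * max 0 (Real.log (1 / β)) + K := by
        unfold massBound
        rw [hK]
        push_cast
        have h5 : (32 * ((D : ℝ) + 1) + 4) * N * β ≤ (32 * (D + 1) + 4) * N * β₀ := by gcongr
        linarith
      have h6 : K ≤ K / m0 * min 1 r := by
        calc K = K / m0 * m0 := by field_simp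
          _ ≤ _ := mul_le_mul_of_nonneg_left hmm (by positivity)
      have h7 : 0 ≤ (C + C * r0) * min 1 r := by positivity
      linarith
    exact ⟨fun M hM => (h2 M hM).trans key, fun ν hν M hM => (h3 ν hν M hM).trans key⟩
  · obtain ⟨-, h2, h3, -⟩ := H β h
    rw [← hr] at h2 h3
    have hrr : r ≤ r0 := by
      rw [hr, hr0]
      exact Real.rpow_le_rpow_of_nonpos hβ₀0 h (by rw [neg_nonpos]; positivity)
    have key : C * r ≤ 4 * max 0 (Real.log (1 / β)) + (K / m0 + C + C * r0) * min 1 r := by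
      have h4 := le_max_left 0 (Real.log (1 / β))
      have h5 : 0 ≤ K / m0 * min 1 r := by positivity
      have h6 : C * r ≤ (C + C * r0) * min 1 r := by
        rcases le_total r 1 with h7 | h7
        · rw [min_eq_right h7]
          have : 0 ≤ C * r0 * r := by positivity
          linarith
        · rw [min_eq_left h7, mul_one]
          have := mul_le_mul_of_nonneg_left hrr hC.le
          linarith
      linarith
    exact ⟨fun M hM => (h2 M hM).trans key, fun ν hν M hM => (h3 ν hν M hM).trans key⟩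

end

end Pool.Agent.U508.YMF
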